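import Pool.Agent.H.MP_ebc13b_lc.h61b.L1.MaxA
import Pool.Agent.H.MP_ebc13b_lc.h61b.L2.F1
import Pool.Agent.H.MP_ebc13b_lc.h61b.L2.F3

/-!
# Rows of maximal stable sets
-/

namespace Pool.Agent.H.MP_ebc13b_lc.h61b

open Pool.Agent.H.MP_ebc13b_lc.h46 Pool.Agent.H.MP_ebc13b_lc.h53

variable {α : Type*} [DecidableEq α] {G : SimpleGraph α} {A F : Finset α} {col : α → ZMod 3}
  {Z : ZLine G A col}

/-- The row `kk ≤ ρ` holds for the masses: `vv = 2 * kk` on the existing blocks (`vv_max`; on the other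
blocks `z = 0` by `zex`), so `2 * ∑ kk * z ≤ 2 * ρ + ε`, and `ε / 2 ≤ ε`. -/
theorem own_kk (hC : PC G A col) (hF : MaxS G A F) {S : Sys} (h : S.Ok) (hS : Blk S Z) {ρ : ℤ}
    (hO : S.Own (vv Z F) (2 * ρ)) : S.Own (kk Z F) ρ := by
  have e : ∑ x ∈ Finset.Icc (-S.K) S.K, (vv Z F x : ℝ) * S.z x =
      2 * ∑ x ∈ Finset.Icc (-S.K) S.K, (kk Z F x : ℝ) * S.z x := by
    rw [Finset.mul_sum]
    refine Finset.sum_congr rfl fun x _ => ?_
    by_cases hx : S.ex x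
    · rw [vv_max hC hF ((hS x).1 hx)]
      push_cast
      ring
    · rw [h.zex x hx]
      ring
  unfold Sys.Own at hO ⊢
  rw [e] at hO
  push_cast at hO
  have h0 := h.ε0
  linarith

/-- The rows of `vv` and `kk`: options and hits are existing blocks, so `w (vv) p = 2 * w (kk) p`
(`w_att`, `w_le`) and `Hs (vv) = 2 * Hs (kk)`. -/
theorem row_vv_of_kk (hC : PC G A col) (hF : MaxS G A F) {S : Sys} (h : S.Ok) (hS : Blk S Z)
    {ρ : ℤ} (hr : S.Row (kk Z F) ρ) : S.Row (vv Z F) (2 * ρ) := by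
  unfold Sys.Row at hr ⊢
  have h1 : ∑ p ∈ S.P, (S.w (vv Z F) p : ℤ) ≤ ∑ p ∈ S.P, 2 * (S.w (kk Z F) p : ℤ) := by
    refine Finset.sum_le_sum fun p hp => ?_
    obtain ⟨b, hb, hbv⟩ := w_att h (v := kk Z F) hp
    have h2 := w_le (v := vv Z F) hb
    rw [vv_max hC hF ((hS b).1 (O_range hb).2.2), hbv] at h2
    exact_mod_cast h2
  rw [← Finset.mul_sum] at h1
  linarith

theorem hs_vv_of_kk (hC : PC G A col) (hF : MaxS G A F) {S : Sys} (h : S.Ok) (hS : Blk S Z) :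
    S.Hs (vv Z F) = 2 * S.Hs (kk Z F) := by
  unfold Sys.Hs
  rw [Finset.mul_sum]
  refine Finset.sum_congr rfl fun p hp => ?_
  rw [vv_max hC hF ((hS _).1 (t_range h hp).2.2)]
  push_cast
  ring

/-- the disjunction of the shapes (`Line.zshape` for `Z = L.toZ`) -/
def Shp (Z : ZLine G A col) (F : Finset α) : Prop :=
  Z.Shape0 F ∨ (∃ i, Z.Shape1 F i) ∨ (∃ i, Z.Shape2 F i) ∨ ∃ i, Z.Shape3 F i

/-- `own_kk`, then `cyc_hs` and `row_of_hits`, `fsh1_row`, `fsh2_row`, `fsh3_row`. -/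
theorem kk_row (hC : PC G A col) (hF : MaxS G A F) (hsh : Shp Z F) {S : Sys} (h : S.Ok)
    (hS : Blk S Z) {ρ : ℤ} (hO : S.Own (vv Z F) (2 * ρ)) : S.Row (kk Z F) ρ := by
  have hk := own_kk hC hF h hS hO
  rcases hsh with h0 | ⟨i, h1⟩ | ⟨i, h2⟩ | ⟨i, h3⟩
  · exact row_of_hits h (cyc_hs h hk (cyc_of_shape h0 hS))
  · exact fsh1_row h hk (fsh1_of_shape h1 hS)
  · exact fsh2_row h hk (fsh2_of_shape h2 hS)
  · exact fsh3_row h hk (fsh3_of_shape h3 hS)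

/-- `cyc_hs`, `fsh1_hs`, `fsh2_hs`, `fsh3_hs`. -/
theorem kk_hs (hC : PC G A col) (hF : MaxS G A F) (hsh : Shp Z F) {S : Sys} (h : S.Ok)
    (hS : Blk S Z) {ρ : ℤ} (hO : S.Own (vv Z F) (2 * ρ)) : S.Hs (kk Z F) ≤ ρ + 1 := by
  have hk := own_kk hC hF h hS hO
  rcases hsh with h0 | ⟨i, h1⟩ | ⟨i, h2⟩ | ⟨i, h3⟩
  · have := cyc_hs h hk (cyc_of_shape h0 hS)
    omega
  · exact fsh1_hs h hk (fsh1_of_shape h1 hS)
  · exact fsh2_hs h hk (fsh2_of_shape h2 hS)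
  · exact fsh3_hs h hk (fsh3_of_shape h3 hS)

/-- **Rows of maximal stable sets.**  `cc_max_even` gives `ρ`; `kk_row`, `row_vv_of_kk`. -/
theorem max_row (hC : PC G A col) (hF : MaxS G A F) (hsh : Shp Z F) {S : Sys} (h : S.Ok)
    (hS : Blk S Z) (hpar : Even (A.card + S.P.card))
    (hO : S.Own (vv Z F) (cc G A F - S.P.card)) : S.Row (vv Z F) (cc G A F - S.P.card) := by
  obtain ⟨ρ, hρ⟩ := cc_max_even hF hpar
  rw [hρ] at hO ⊢
  exact row_vv_of_kk hC hF h hS (kk_row hC hF hsh h hS hO)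

/-- `kk_hs`, `hs_vv_of_kk`. -/
theorem max_low (hC : PC G A col) (hF : MaxS G A F) (hsh : Shp Z F) {S : Sys} (h : S.Ok)
    (hS : Blk S Z) (hpar : Even (A.card + S.P.card))
    (hO : S.Own (vv Z F) (cc G A F - S.P.card)) :
    S.Hs (vv Z F) ≤ cc G A F - S.P.card + 2 := by
  obtain ⟨ρ, hρ⟩ := cc_max_even hF hpar
  rw [hρ] at hO ⊢
  rw [hs_vv_of_kk hC hF h hS]
  have := kk_hs hC hF hsh h hS hO
  omega

end Pool.Agent.H.MP_ebc13b_lc.h61b
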