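import Pool.Agent.H.MP_ebc13b_lc.h61b.L1.CFc
import Pool.Agent.H.MP_ebc13b_lc.h61b.L2.One
import Pool.Agent.H.MP_ebc13b_lc.h61b.L2.Two
import Pool.Agent.H.MP_ebc13b_lc.h61b.L2.LowOne
import Pool.Agent.H.MP_ebc13b_lc.h61b.L2.LowTwo
import Pool.Agent.H.MP_ebc13b_lc.h73.SysEx

/-!
# Rows of stable sets without interior core
-/

namespace Pool.Agent.H.MP_ebc13b_lc.h61b

open Pool.Agent.H.MP_ebc13b_lc.h46 Pool.Agent.H.MP_ebc13b_lc.h53 Pool.Agent.H.MP_ebc13b_lc.h73

variable {α : Type*} [DecidableEq α] {G : SimpleGraph α} {A D : Finset α} {col : α → ZMod 3}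
  {Z : ZLine G A col}

private theorem NicRow_z (k : ZMod 3) : k + 1 ≠ k ∧ k + 2 ≠ k ∧ k + 2 + 1 = k ∧
    k + 2 + 2 = k + 1 ∧ k + 1 + 1 = k + 2 ∧ k + 1 + 2 = k ∧
    ∀ j, j = k ∨ j = k + 1 ∨ j = k + 2 := by
  revert k
  decide

private theorem NicRow_y (k : ZMod 3) : k + 1 + 1 + 1 = k := by
  revert k
  decide

private theorem NicRow_single (hC : PC G A col) (hD : Stab G A D) (hcard : D.card = 1) {S : Sys}
    (hS : Blk S Z) : ∀ x, S.ex x → vv Z D x = 0 := by
  obtain ⟨d, rfl⟩ := Finset.card_eq_one.1 hcard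
  intro x hx
  exact one_single hC (hD.1 (Finset.mem_singleton_self d)) ((hS x).1 hx)

/-- `vv` and `mn`: the minimum of `M_D` over the triangles of the block is `vv + 1` (`vv_spec`, `vv_le`,
`mn_le`, `exists_mn`). -/
theorem mn_vv (hC : PC G A col) (hD : Stab G A D) (hne : D.Nonempty) {b : ℤ}
    (hb : (Z.bl b).Nonempty) : mn Z D b = (vv Z D b : ℤ) + 1 := by
  obtain ⟨T, hT, h1⟩ := vv_spec (Z := Z) hC hD hne hb
  obtain ⟨T', hT', h2⟩ := exists_mn Z D hb
  have h3 := mn_le Z D hT
  have h4 := vv_le (Z := Z) hC hD hne hT'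
  omega

/-- A stable set without interior core which meets all three classes does not meet the triangles.

Proof.  Let `u ∈ T ∩ D` have colour `k`, `w` the vertex of `T` given by `NIC`, of colour `k + 1` (or
`k + 2`).  Take `x ∈ D` of colour `k + 2` (resp. `k + 1`): `x ∉ T` and `x` is not adjacent to `u`, and
its colour is that of the third vertex, so it is adjacent to `w`, and `x ∈ D \ {u}`:
contradiction. -/
theorem nic_three (hC : PC G A col) (hD : Stab G A D) (hN : NIC G A D)
    (h3 : ∀ k, ∃ x ∈ D, col x = k) : CF G A D := by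
  intro T hT
  rw [Finset.disjoint_left]
  intro u hu huD
  obtain ⟨w, hw, hwu, hwn⟩ := hN T hT u hu huD
  have hcu : col u ≠ col w := fun e => hwu (hC.col_inj hT hw hu e.symm)
  have hcon : ∀ x ∈ D, col x ≠ col u → G.Adj x w → False := by
    intro x hx hxu hadj
    apply hwn
    exact mem_nb.2 ⟨hT.1 hw, x, Finset.mem_erase.2 ⟨fun e => hxu (by rw [e]), hx⟩, hadj.symm⟩
  have hout : ∀ x ∈ D, col x ≠ col u → x ∉ T := by
    intro x hx hxu hxT
    exact hD.2 x hx u huD (hT.adj hxT hu (fun e => hxu (by rw [e])))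
  rcases z3_cases _ _ hcu with h1 | h1
  · obtain ⟨x, hx, hxc⟩ := h3 (col u + 2)
    have hxu : col x ≠ col u := by
      rw [hxc]
      exact (NicRow_z (col u)).2.1
    rcases hC.lt_or_gt hT (hD.1 hx) (hout x hx hxu) with h2 | h2
    · refine hD.2 x hx u huD (hC.lt_adj hT h2 hu ?_)
      rw [hxc]
      exact ((NicRow_z (col u)).2.2.1).symm
    · refine hcon x hx hxu (hC.gt_adj hT h2 hw ?_)
      rw [h1, hxc]
      exact ((NicRow_z (col u)).2.2.2.1).symm
  · obtain ⟨x, hx, hxc⟩ := h3 (col u + 1)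
    have hxu : col x ≠ col u := by
      rw [hxc]
      exact (NicRow_z (col u)).1
    rcases hC.lt_or_gt hT (hD.1 hx) (hout x hx hxu) with h2 | h2
    · refine hcon x hx hxu (hC.lt_adj hT h2 hw ?_)
      rw [h1, hxc]
      exact ((NicRow_z (col u)).2.2.2.2.1).symm
    · refine hD.2 x hx u huD (hC.gt_adj hT h2 hu ?_)
      rw [hxc]
      exact ((NicRow_z (col u)).2.2.2.2.2.1).symm

/-- A nonempty set meets one, two or three classes. -/
theorem class_cases (hne : D.Nonempty) : (∃ k, ∀ x ∈ D, col x = k) ∨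
    (∃ k, (∀ x ∈ D, col x = k ∨ col x = k + 1) ∧ (∃ x ∈ D, col x = k) ∧
      ∃ x ∈ D, col x = k + 1) ∨ (∀ k, ∃ x ∈ D, col x = k) := by
  obtain ⟨x0, hx0⟩ := hne
  have hc := (NicRow_z (col x0)).2.2.2.2.2.2
  by_cases h1 : ∃ x ∈ D, col x = col x0 + 1
  · by_cases h2 : ∃ x ∈ D, col x = col x0 + 2
    · right; right
      intro k
      rcases hc k with rfl | rfl | rfl
      · exact ⟨x0, hx0, rfl⟩
      · exact h1
      · exact h2
    · right; left
      refine ⟨col x0, ?_, ⟨x0, hx0, rfl⟩, h1⟩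
      intro x hx
      rcases hc (col x) with h3 | h3 | h3
      · exact Or.inl h3
      · exact Or.inr h3
      · exact absurd ⟨x, hx, h3⟩ h2
  · by_cases h2 : ∃ x ∈ D, col x = col x0 + 2
    · right; left
      have e : col x0 + 2 + 1 = col x0 := (NicRow_z (col x0)).2.2.1
      refine ⟨col x0 + 2, ?_, h2, ⟨x0, hx0, e.symm⟩⟩
      intro x hx
      rcases hc (col x) with h3 | h3 | h3
      · exact Or.inr (h3.trans e.symm)
      · exact absurd ⟨x, hx, h3⟩ h1
      · exact Or.inl h3
    · left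
      refine ⟨col x0, ?_⟩
      intro x hx
      rcases hc (col x) with h3 | h3 | h3
      · exact h3
      · exact absurd ⟨x, hx, h3⟩ h1
      · exact absurd ⟨x, hx, h3⟩ h2

/-- **Rows of stable sets without interior core.**

`class_cases`.
* One class: if `D` is a singleton all values are `0` (`one_single`): `arc_const` and `row_of_hits`.
  Otherwise `one_pat` and `one_class`; its hypothesis `hdc`, for the ends `U i`, `L (i + 3)`: if
  `Hs (vv D) ≤ r` use `row_of_hits` instead.  Otherwise `cc D < ∑ mn D (t p)` (`mn_vv`), and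
  `DemL` for the hub `i + 1` (class `col (h (i + 1)) + 1 = k`, as `col (h i) = k + 1` and
  `col1`; `mid i ∈ D` by `LInfo`) gives the first part, `DemR` for the hub `i + 3` (class
  `col (h (i + 3)) + 2 = k`, as `col (h (i + 3)) = k + 1` by `RInfo`; `mid (i + 3) ∈ D`) gives the
  second part.
* Two classes: `two_pat`: `cf_hs` and `row_of_hits`; `arc_add` and `row_of_hits`; `two_class`.
* Three classes: `nic_three`, `cf_hs`, `row_of_hits`. -/
theorem nic_row (hC : PC G A col) (hD : Stab G A D) (hne : D.Nonempty) (hN : NIC G A D) {S : Sys}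
    (h : S.Ok) (hS : Blk S Z)
    (hO : ∀ E, Stab G A E → E.Nonempty → S.Own (vv Z E) (cc G A E - S.P.card))
    (hL : DemL Z S) (hR : DemR Z S) : S.Row (vv Z D) (cc G A D - S.P.card) := by
  have hOD := hO D hD hne
  rcases class_cases (col := col) hne with ⟨k, hk⟩ | ⟨k, hk, h0, h1⟩ | h3
  · by_cases hcard : D.card = 1
    · exact row_of_hits h (arc_const h hOD (NicRow_single hC hD hcard hS))
    · have hc2 : 2 ≤ D.card := by
        have := Finset.card_pos.2 hne
        omega
      by_cases hH : S.Hs (vv Z D) ≤ cc G A D - S.P.card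
      · exact row_of_hits h hH
      have hlt : cc G A D < ∑ p ∈ S.P, mn Z D (S.t p) := by
        have e : ∑ p ∈ S.P, mn Z D (S.t p) = S.Hs (vv Z D) + S.P.card := by
          unfold Sys.Hs
          rw [← nsmul_one, ← Finset.sum_const, ← Finset.sum_add_distrib]
          refine Finset.sum_congr rfl fun p hp => ?_
          exact mn_vv hC hD hne ((hS _).1 (h.tO p hp).1)
        rw [e]
        omega
      obtain ⟨X, Y, hX, hY, hc, hv, hLI, hRI⟩ := one_pat hC hD hc2 hk hN hS
      refine one_class h hOD hX hY hc hv ?_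
      rintro i rfl rfl
      obtain ⟨a1, a2, a3, a4⟩ := hLI
      obtain ⟨b1, b2, b3, b4⟩ := hRI
      have e1 : i + 1 - 1 = i := by ring
      have e2 : 2 * (i + 1) - 1 = 2 * i + 1 := by ring
      have e3 : i + 3 + 1 = i + 4 := by ring
      have e4 : 2 * (i + 3) + 1 = 2 * i + 7 := by ring
      constructor
      · intro hf hp
        have h5 := hL (i + 1) hf (by rw [e1]; exact a1) (by
          obtain ⟨p, hp, h6⟩ := hp
          exact ⟨p, hp, by omega⟩) D hD (by
          intro x hx
          rw [hk x hx, Z.col1 i a1, a4]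
          exact (NicRow_y k).symm) (by rw [e1]; exact a2) hlt
        rw [e1, e2] at h5
        exact h5
      · intro hf hp
        have h5 := hR (i + 3) hf b1 (by
          obtain ⟨p, hp, h6⟩ := hp
          exact ⟨p, hp, by omega⟩) D hD (by
          intro x hx
          rw [hk x hx, b4]
          exact ((NicRow_z k).2.2.2.2.2.1).symm) b2 hlt
        rw [e3, e4] at h5
        exact h5
  · rcases two_pat hC hD hk h0 h1 hN hS with ⟨hF, -⟩ | ⟨a, b, hab, hv⟩ | ⟨X, Y, hX, hY, hc, hx, hy, hv⟩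
    · exact row_of_hits h (cf_hs hC hD hne hF h hS hO)
    · exact row_of_hits h (arc_add h hOD hab (c := 1) hv)
    · exact two_class h hOD hX hY hc hx hy hv
  · exact row_of_hits h (cf_hs hC hD hne (nic_three hC hD hN h3) h hS hO)

/-- **Lower bound for the slack.**  The same cases with `low_one`, `low_two`, `cf_hs`, `arc_add`. -/
theorem nic_low (hC : PC G A col) (hD : Stab G A D) (hne : D.Nonempty) (hN : NIC G A D) {S : Sys}
    (h : S.Ok) (hS : Blk S Z)
    (hO : ∀ E, Stab G A E → E.Nonempty → S.Own (vv Z E) (cc G A E - S.P.card)) :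
    S.Hs (vv Z D) ≤ cc G A D - S.P.card + 2 := by
  have hOD := hO D hD hne
  have hle : ∀ n : ℤ, n ≤ cc G A D - S.P.card → n ≤ cc G A D - S.P.card + 2 := by
    intro n hn
    omega
  rcases class_cases (col := col) hne with ⟨k, hk⟩ | ⟨k, hk, h0, h1⟩ | h3
  · by_cases hcard : D.card = 1
    · exact hle _ (arc_const h hOD (NicRow_single hC hD hcard hS))
    · have hc2 : 2 ≤ D.card := by
        have := Finset.card_pos.2 hne
        omega
      obtain ⟨X, Y, -, -, hc, hv, -, -⟩ := one_pat hC hD hc2 hk hN hS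
      exact low_one h hOD hc hv
  · rcases two_pat hC hD hk h0 h1 hN hS with ⟨hF, -⟩ | ⟨a, b, hab, hv⟩ | ⟨X, Y, hX, hY, hc, -, -, hv⟩
    · exact hle _ (cf_hs hC hD hne hF h hS hO)
    · exact hle _ (arc_add h hOD hab (c := 1) hv)
    · exact low_two h hOD hX hY hc hv
  · exact hle _ (cf_hs hC hD hne (nic_three hC hD hN h3) h hS hO)

end Pool.Agent.H.MP_ebc13b_lc.h61b
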