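import Pool.Agent.H.MP_ebc13b_lc.h61b.L1.LeftEnd
import Pool.Agent.H.MP_ebc13b_lc.h61b.L2.Refl

/-!
# Level 1: the right end of a class (mirror image)
-/

namespace Pool.Agent.H.MP_ebc13b_lc.h61b

open Pool.Agent.H.MP_ebc13b_lc.h46 Pool.Agent.H.MP_ebc13b_lc.h53

variable {α : Type*} [DecidableEq α] {G : SimpleGraph α} {A D : Finset α} {col : α → ZMod 3}
  {Z : ZLine G A col}

/-- `vgt` and `vlt` are exchanged by `rcol` (`vlt_rcol`, `vgt_rcol`), and `bl` of the mirror image at
`b` is `Z.bl (-b)`. -/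
theorem lamB_mirror (hC : PC G A col) {b : ℤ} : lamB (Z.mirror hC) D b ↔ rhoB Z D (-b) := by
  unfold lamB rhoB
  simp only [vgt_rcol, Z.mirror_bl]

theorem rhoB_mirror (hC : PC G A col) {b : ℤ} : rhoB (Z.mirror hC) D b ↔ lamB Z D (-b) := by
  unfold lamB rhoB
  simp only [vlt_rcol, Z.mirror_bl]

theorem blk_mirror (hC : PC G A col) {S : Sys} (hS : Blk S Z) : Blk S.refl (Z.mirror hC) := by
  intro b
  exact hS (-b)

/-- the values of the mirror image (`vv` does not depend on the colouring) -/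
theorem vv_mirror (hC : PC G A col) (b : ℤ) : vv (Z.mirror hC) D b = vv Z D (-b) := rfl

private theorem RightEnd_c1 (a k : ZMod 3) : -a = -(k + 1) ↔ a = k + 1 := by
  revert a k
  decide

private theorem RightEnd_c2 (a k : ZMod 3) : -a = -(k + 1) + 1 ↔ a = k := by
  revert a k
  decide

private theorem RightEnd_c3 (a k : ZMod 3) : -a = -k ↔ a = k := neg_inj

private theorem RightEnd_c4 (a k : ZMod 3) : -a = -k + 1 ↔ a = k + 2 := by
  revert a k
  decide

private theorem RightEnd_c5 (a k : ZMod 3) (h : a + 1 = k + 2) : a = k + 1 := by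
  revert a k
  decide

theorem sep_mirror {k : ZMod 3} {T : Finset α} :
    Sep G (rcol col) D (-(k + 1)) T ↔ Sep G col D k T := by
  unfold Sep
  simp only [vlt_rcol, vgt_rcol]
  have e1 : ∀ x, rcol col x = -(k + 1) ↔ col x = k + 1 := fun x => RightEnd_c1 _ _
  have e2 : ∀ x, rcol col x = -(k + 1) + 1 ↔ col x = k := fun x => RightEnd_c2 _ _
  simp only [e1, e2]
  exact and_comm

/-- **The right end of a class**: apply `left_end` to the mirror image `Z.mirror hC` (a
`ZLine G A (rcol col)`, with `PC.rev`), to `S.refl`, and to the class `-k`.  The left end `X` of the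
mirror image gives `Y`: `n a` becomes `n (1 - a)`, `E j` becomes `E (-j)`, `U i` becomes
`L (-i - 1)` (`LEnd.refl`, `lam_refl`).  `RInfo`: `(Z.mirror hC).h i = Z.h (-i)`,
`(Z.mirror hC).mid i = Z.mid (-i - 1)`; for `U i` with `l = -i - 1`: `Z.lk l` (`mirror_lk`),
`mid l ∈ D`, adjacency to `Z.h (-(i + 1)) = Z.h l`; the colour of `Z.h (-i) = Z.h (l + 1)` is
`-(-k + 1) = k + 2` (`rcol`), so the colour of `Z.h l` is `k + 1` by `col1`. -/
theorem right_end (hC : PC G A col) (hD : D ⊆ A) {k : ZMod 3} (hk : ∀ x ∈ D, col x = k) {S : Sys}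
    (hS : Blk S Z) : ∃ Y : REnd, Y.Val S ∧ (∀ b, S.ex b → (rhoB Z D b ↔ rho Y b)) ∧
      RInfo Z D k Y := by
  have hk' : ∀ x ∈ D, rcol col x = -k := fun x hx => (RightEnd_c3 _ _).2 (hk x hx)
  obtain ⟨X, hV, hb, hI⟩ := left_end (Z := Z.mirror hC) hC.rev hD hk' (blk_mirror hC hS)
  refine ⟨X.refl, ?_, ?_, ?_⟩
  · have hrr : S.refl.refl.ex = S.ex := by
      funext b
      show S.ex (- -b) = S.ex b
      rw [neg_neg]
    have h1 := (lval_refl (S := S.refl) (X := X)).2 hV
    cases X with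
    | n a => trivial
    | E j =>
      have h2 : S.refl.refl.ex (2 * (-j)) := h1
      rw [hrr] at h2
      exact h2
    | U i =>
      have h2 : S.refl.refl.ex (2 * (-i - 1) + 1) := h1
      rw [hrr] at h2
      exact h2
  · intro b hex
    have h1 := hb (-b) (by show S.ex (- -b); rw [neg_neg]; exact hex)
    rw [lamB_mirror, neg_neg] at h1
    rw [h1, lam_refl]
  · cases X with
    | n a => trivial
    | E j =>
      obtain ⟨h1, T, hT, u, huT, huD, h2⟩ := hI
      refine ⟨(RightEnd_c4 _ _).1 h1, T, ?_, u, huT, huD, fun x hx hxu => vgt_rcol.1 (h2 x hx hxu)⟩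
      rw [Z.mirror_bl] at hT
      have e : 2 * (-j) = -(2 * j) := by ring
      rw [e]
      exact hT
    | U i =>
      obtain ⟨h1, h2, h3, h4⟩ := hI
      have hl := (Z.mirror_lk hC).1 h1
      refine ⟨hl, h2, fun x hx => ?_, ?_⟩
      · have h5 := h3 x hx
        rw [Z.mirror_h] at h5
        have e : -(i + 1) = -i - 1 := by ring
        rw [e] at h5
        exact h5
      · have h5 := Z.col1 _ hl
        have e : -i - 1 + 1 = -i := by ring
        rw [e] at h5
        have h6 := (RightEnd_c4 _ _).1 h4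
        rw [Z.mirror_h, h5] at h6
        exact RightEnd_c5 _ _ h6

end Pool.Agent.H.MP_ebc13b_lc.h61b
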