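import Pool.Agent.H.MP_ebc13b_lc.h61b.L1.Vals
import Pool.Agent.H.MP_ebc13b_lc.h61b.L1.RightEnd

/-!
# Level 1: stable sets contained in one class
-/

namespace Pool.Agent.H.MP_ebc13b_lc.h61b

open Pool.Agent.H.MP_ebc13b_lc.h46 Pool.Agent.H.MP_ebc13b_lc.h53

variable {α : Type*} [DecidableEq α] {G : SimpleGraph α} {A D : Finset α} {col : α → ZMod 3}
  {Z : ZLine G A col}

private theorem OneCls_c1 (k : ZMod 3) : k ≠ k + 1 := by revert k; decide

private theorem OneCls_c2 (k : ZMod 3) : k ≠ k + 2 := by revert k; decide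

private theorem OneCls_c12 (k : ZMod 3) : k + 1 ≠ k + 2 := by revert k; decide

private theorem OneCls_c11 (k : ZMod 3) : k + 1 + 1 = k + 2 := by revert k; decide

private theorem OneCls_c21 (k : ZMod 3) : k + 2 + 1 = k := by revert k; decide

/-- the right hub of a link has the colour `k + 2` -/
private theorem OneCls_next {i : ℤ} {k : ZMod 3} (hi : Z.lk i) (hc : col (Z.h i) = k + 1) :
    col (Z.h (i + 1)) = k + 2 := by
  rw [Z.col1 i hi, hc, OneCls_c11]

/-- an element of `D` other than a given one -/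
private theorem OneCls_other (hcard : 2 ≤ D.card) (u : α) : ∃ d ∈ D, d ≠ u := by
  obtain ⟨a, ha, b, hb, hab⟩ := Finset.one_lt_card.1 (by omega : 1 < D.card)
  by_cases h : a = u
  · exact ⟨b, hb, fun e => hab (h.trans e.symm)⟩
  · exact ⟨a, ha, h⟩

/-- left `E`: the other elements are not adjacent to the hub -/
private theorem OneCls_El (hC : PC G A col) (hD : D ⊆ A) {k : ZMod 3} (hk : ∀ x ∈ D, col x = k)
    {j : ℤ} (hc : col (Z.h j) = k + 1) {T : Finset α} (hT : T ∈ Z.bl (2 * j)) {u : α}
    (h : ∀ x ∈ D, x ≠ u → vgt G col x T) : ∀ d ∈ D, d ≠ u → ¬ G.Adj d (Z.h j) := by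
  intro d hd hdu hadj
  have h1 := h d hd hdu
  refine hC.not_both (Z.isT _ _ hT) (hD hd) ⟨h1.1, Z.h j, Z.mem' hT (Or.inr (Or.inl rfl)), hadj, ?_⟩
    h1
  rw [hc, hk d hd]

/-- right `E`: the other elements are not adjacent to the hub -/
private theorem OneCls_Er (hC : PC G A col) (hD : D ⊆ A) {k : ZMod 3} (hk : ∀ x ∈ D, col x = k)
    {j : ℤ} (hc : col (Z.h j) = k + 2) {T : Finset α} (hT : T ∈ Z.bl (2 * j)) {u : α}
    (h : ∀ x ∈ D, x ≠ u → vlt G col x T) : ∀ d ∈ D, d ≠ u → ¬ G.Adj d (Z.h j) := by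
  intro d hd hdu hadj
  have h1 := h d hd hdu
  refine hC.not_both (Z.isT _ _ hT) (hD hd) h1
    ⟨h1.1, Z.h j, Z.mem' hT (Or.inr (Or.inl rfl)), hadj, ?_⟩
  rw [hc, hk d hd]

/-- **Values of a one-class row.**

`lamB` by the triangle `T`: if `T` meets `D` then `M_D(T) = 1` (`MM_hit`), otherwise all elements of
`D` are larger than `T` and `M_D(T) = 1` (`MM_one`); `vv_eq` with `MM_pos`.  The same for `rhoB`.

Neither `lamB` nor `rhoB`: no triangle `T` of the block meets `D`.  Otherwise let `u ∈ T ∩ D`; by `NIC`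
some `w ∈ T`, `w ≠ u`, is not in `N(D \ {u})`.  Every `x ∈ D`, `x ≠ u`, is outside `T` (`T` has only
one vertex of colour `k`) and smaller or larger than `T`; if `col w = k + 1` then no `x` is smaller
than `T` (it would be adjacent to `w`, `PC.lt_adj`), so `lamB` holds; if `col w = k + 2` then `rhoB`
holds.  So all triangles of the block are disjoint from `D` and neither smaller nor larger than all
elements of `D`, hence `M_D(T) = 2` (`MM_one`), `vv = 1`. -/
theorem one_val (hC : PC G A col) (hD : Stab G A D) (hne : D.Nonempty) {k : ZMod 3}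
    (hk : ∀ x ∈ D, col x = k) (hN : NIC G A D) {b : ℤ} (hb : (Z.bl b).Nonempty) :
    ((lamB Z D b ∨ rhoB Z D b) → vv Z D b = 0) ∧
    (¬ lamB Z D b → ¬ rhoB Z D b → vv Z D b = 1) := by
  constructor
  · intro h
    have h1 : ∃ T ∈ Z.bl b, MM G A D T = 1 := by
      rcases h with ⟨T, hT, h⟩ | ⟨T, hT, h⟩
      · refine ⟨T, hT, ?_⟩
        by_cases hm : ∃ u ∈ T, u ∈ D
        · obtain ⟨u, hu, huD⟩ := hm
          exact MM_hit hC hD (Z.isT _ _ hT) hu huD
        · have hm' : Disjoint T D := by
            rw [Finset.disjoint_left]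
            intro x hx hxD
            exact hm ⟨x, hx, hxD⟩
          refine (MM_one hC hD.1 hne hk (Z.isT _ _ hT) hm').1 (Or.inr ?_)
          intro x hx
          exact (h x hx).resolve_left fun h1 => hm ⟨x, h1, hx⟩
      · refine ⟨T, hT, ?_⟩
        by_cases hm : ∃ u ∈ T, u ∈ D
        · obtain ⟨u, hu, huD⟩ := hm
          exact MM_hit hC hD (Z.isT _ _ hT) hu huD
        · have hm' : Disjoint T D := by
            rw [Finset.disjoint_left]
            intro x hx hxD
            exact hm ⟨x, hx, hxD⟩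
          refine (MM_one hC hD.1 hne hk (Z.isT _ _ hT) hm').1 (Or.inl ?_)
          intro x hx
          exact (h x hx).resolve_left fun h1 => hm ⟨x, h1, hx⟩
    obtain ⟨T, hT, h2⟩ := h1
    refine vv_eq (Z := Z) hC hD hne ⟨T, hT, ?_⟩ ?_
    · rw [h2]
      norm_num
    · intro T' hT'
      have := (MM_pos hC hD hne (Z.isT _ _ hT')).1
      push_cast
      omega
  · intro hl hr
    have hdis : ∀ T ∈ Z.bl b, Disjoint T D := by
      intro T hT
      rw [Finset.disjoint_left]
      intro u hu huD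
      have iT := Z.isT _ _ hT
      obtain ⟨w, hw, hwu, hwn⟩ := hN T iT u hu huD
      have hout : ∀ x ∈ D, x ≠ u → x ∉ T := by
        intro x hx hxu hxT
        exact hxu (hC.col_inj iT hxT hu (by rw [hk x hx, hk u huD]))
      have hnadj : ∀ x ∈ D, x ≠ u → ¬ G.Adj x w := by
        intro x hx hxu hadj
        exact hwn (mem_nb.2 ⟨iT.1 hw, x, Finset.mem_erase.2 ⟨hxu, hx⟩, hadj.symm⟩)
      have hcw : col w = k + 1 ∨ col w = k + 2 := by
        apply z3_cases
        intro e
        exact hwu (hC.col_inj iT hw hu (by rw [← e, hk u huD]))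
      rcases hcw with hcw | hcw
      · apply hl
        refine ⟨T, hT, ?_⟩
        intro x hx
        by_cases hxu : x = u
        · left
          rw [hxu]
          exact hu
        · right
          apply hC.gt_of_not_lt iT (hD.1 hx) (hout x hx hxu)
          intro h1
          exact hnadj x hx hxu (hC.lt_adj iT h1 hw (by rw [hcw, hk x hx]))
      · apply hr
        refine ⟨T, hT, ?_⟩
        intro x hx
        by_cases hxu : x = u
        · left
          rw [hxu]
          exact hu
        · right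
          apply hC.lt_of_not_gt iT (hD.1 hx) (hout x hx hxu)
          intro h1
          exact hnadj x hx hxu (hC.gt_adj iT h1 hw (by rw [hcw, hk x hx]))
    have hM : ∀ T ∈ Z.bl b, MM G A D T = 2 := by
      intro T hT
      refine (MM_one hC hD.1 hne hk (Z.isT _ _ hT) (hdis T hT)).2 ?_
      rintro (h | h)
      · exact hr ⟨T, hT, fun x hx => Or.inr (h x hx)⟩
      · exact hl ⟨T, hT, fun x hx => Or.inr (h x hx)⟩
    obtain ⟨T, hT⟩ := hb
    refine vv_eq (Z := Z) hC hD hne ⟨T, hT, ?_⟩ ?_
    · rw [hM T hT]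
      norm_num
    · intro T' hT'
      rw [hM T' hT']
      norm_num

/-- If `D = {d}` then all values are `0`: `M_D(T) = 1` by `MM_hit` or `MM_one`. -/
theorem one_single (hC : PC G A col) {d : α} (hd : d ∈ A) {b : ℤ} (hb : (Z.bl b).Nonempty) :
    vv Z {d} b = 0 := by
  have hD : Stab G A {d} := by
    refine ⟨Finset.singleton_subset_iff.2 hd, ?_⟩
    intro u hu v hv
    rw [Finset.mem_singleton] at hu hv
    rw [hu, hv]
    exact G.irrefl
  have hne : ({d} : Finset α).Nonempty := Finset.singleton_nonempty d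
  have hM : ∀ T ∈ Z.bl b, MM G A {d} T = 1 := by
    intro T hT
    have iT := Z.isT _ _ hT
    by_cases hdT : d ∈ T
    · exact MM_hit hC hD iT hdT (Finset.mem_singleton_self d)
    · have hm : Disjoint T {d} := Finset.disjoint_singleton_right.2 hdT
      refine (MM_one hC hD.1 hne (k := col d) ?_ iT hm).1 ?_
      · intro x hx
        rw [Finset.mem_singleton.1 hx]
      · rcases hC.lt_or_gt iT hd hdT with h | h
        · left
          intro x hx
          rw [Finset.mem_singleton.1 hx]
          exact h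
        · right
          intro x hx
          rw [Finset.mem_singleton.1 hx]
          exact h
  obtain ⟨T, hT⟩ := hb
  refine vv_eq (Z := Z) hC hD hne ⟨T, hT, ?_⟩ ?_
  · rw [hM T hT]
    norm_num
  · intro T' hT'
    rw [hM T' hT']
    norm_num

/-- **Relative position of the two ends.**  `D` has at least two elements.

In all cases with `E j` on the left: `col (h j) = k + 1`, `u ∈ T' ∈ bl (2 * j)`, `u ∈ D`, all other
elements of `D` are larger than `T'`; no other element `d` of `D` is adjacent to `h j` (otherwise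
`d < T'`, as `d ∉ T'`).  With `E j` on the right: `col (h j) = k + 2` and no other element of `D` is
adjacent to `h j`.  With `U i`: `col (h i) = k + 1`, `col (h (i + 1)) = k + 2`, `mid i ∈ D`, all
elements of `D` are adjacent to `h (i + 1)`.  With `L l`: `col (h l) = k + 1`, `mid l ∈ D`, all
elements of `D` are adjacent to `h l`.

* `n a`, `n b`: nothing.
* `U i`, `n b`: let `x ≤ 2 * i + 3` exist and `b ≤ x`.  One of the blocks `2 * i + 2`, `2 * i + 3`
  exists (`ex_right`); take `y = x` if `x ≥ 2 * i + 2`, and otherwise this block.  `b ≤ y`, so `rhoB`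
  holds for `y`; but `mid i` is larger than the triangles of `y` (`mid_gt_star`) and not in them.
* `E j`, `n b`: let `x ≤ 2 * j + 1` exist and `b ≤ x`; put `y = x` if `x ≥ 2 * j`, otherwise
  `y = 2 * j`, which exists.  `rhoB` holds for `y` by a triangle `T ∋ h j`.  Take `d ∈ D`, `d ≠ u`:
  `d ∈ T` (then `d` is adjacent to `h j`) or `d < T` (then `d` is adjacent to the vertex of colour
  `k + 1` of `T`, which is `h j`): contradiction.
* `n a`, `L l` and `n a`, `E j`: the same on the other side.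
* `U i`, `L l`: `i ≠ l`, otherwise a second element of `D` is adjacent to `h i` and `h (i + 1)`, so it
  is in `Q i` (`PC.mem_of_adj2`) and has the colour `k` of `mid i`.  `l ≠ i + 1` by the colours.
  If `l = i + 2` and `2 * i + 3` exists then `col (h (i + 2)) = k ≠ k + 1`.  `l < i` is impossible:
  `mid l` is adjacent to `h (i + 1) ∈ Q i`; if `2 * i + 1 > 2 * l + 3` then `mid l < Q i`
  (`mid_lt`), so it is adjacent to `h i`, the vertex of colour `k + 1`: two neighbours; if
  `l = i - 1`, then `col (h i) = col (h l) + 1 = k + 2`.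
* `U i`, `E j` (`u ∈ T' ∈ bl (2 * j)`, all other elements smaller than `T'`): `mid i ≠ u`
  (`mid_unique`), so `mid i < T'`; therefore `2 * j > 2 * i + 3` or `j = i` (`mid_gt`,
  `mid_gt_star`, `PC.not_both`), and `j ≠ i` by the colours.  If `j = i + 2` and `2 * i + 3` exists
  then `col (h (i + 2)) = k ≠ k + 2`.
* `E j`, `L l`: `mid l ≠ u`, so `mid l > T'`, therefore `2 * j < 2 * l - 1` or `j = l + 1`
  (`mid_lt`, `mid_lt_star`), and `col (h (l + 1)) = k + 2 ≠ k + 1`.  If `j = l - 1` and `2 * j + 1`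
  exists, then `col (h l) = k + 2`, a contradiction.
* `E j`, `E j'` with `u ∈ T' ∈ bl (2 * j)`, `u' ∈ T'' ∈ bl (2 * j')`: `j ≠ j'` by the colours.
  `u ≠ u'` (`Z.share`; `u ≠ h j` as the colours differ).  So `u < T''`.  If `j' < j` then `T''` and
  `T'` are disjoint (`disj_of`) and `T'' < T'` (`Z.dis`), so `u > T''` (`PC.tlt_gt`): contradiction. -/
theorem one_compat (hC : PC G A col) (hD : Stab G A D) (hcard : 2 ≤ D.card) {k : ZMod 3}
    (hk : ∀ x ∈ D, col x = k) {S : Sys} (hS : Blk S Z) {X : LEnd} {Y : REnd}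
    (hX : X.Val S) (hY : Y.Val S)
    (hX1 : ∀ b, S.ex b → (lamB Z D b ↔ lam X b)) (hY1 : ∀ b, S.ex b → (rhoB Z D b ↔ rho Y b))
    (hX2 : LInfo Z D k X) (hY2 : RInfo Z D k Y) : Compat1 S X Y := by
  have hDA := hD.1
  cases X with
  | n a =>
    cases Y with
    | n b => trivial
    | E j =>
      obtain ⟨hc, T', hT', u, hu, huD, hall⟩ := hY2
      have hex : S.ex (2 * j) := hY
      have hna := OneCls_Er hC hDA hk hc hT' hall
      intro x hx hxe
      by_contra hcon
      obtain ⟨y, hy, hye, hya⟩ : ∃ y, (y = 2 * j - 1 ∨ y = 2 * j) ∧ S.ex y ∧ y < a := by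
        by_cases hx2 : x ≤ 2 * j
        · exact ⟨x, by omega, hxe, by omega⟩
        · exact ⟨2 * j, Or.inr rfl, hex, by omega⟩
      obtain ⟨T, hT, hTD⟩ := (hX1 y hye).2 hya
      obtain ⟨d, hd, hdu⟩ := OneCls_other hcard u
      have hj : Z.h j ∈ T := Z.mem' hT (by unfold inS; omega)
      apply hna d hd hdu
      rcases hTD d hd with h | h
      · apply (Z.isT _ _ hT).adj h hj
        intro e
        rw [← e, hk d hd] at hc
        exact OneCls_c2 _ hc
      · exact hC.gt_adj (Z.isT _ _ hT) h hj (by rw [hc, hk d hd])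
    | L l =>
      obtain ⟨hl, hm, hadj, hc⟩ := hY2
      intro x hx hxe
      by_contra hcon
      obtain ⟨y, hy, hye, hya⟩ : ∃ y, (y = 2 * l - 1 ∨ y = 2 * l) ∧ S.ex y ∧ y < a := by
        by_cases hx2 : x ≤ 2 * l
        · exact ⟨x, by omega, hxe, by omega⟩
        · obtain ⟨y, T, hT, hy⟩ := Z.ex_left hl
          exact ⟨y, hy, (hS y).2 ⟨T, hT⟩, by omega⟩
      obtain ⟨T, hT, hTD⟩ := (hX1 y hye).2 hya
      have h1 := Z.mid_lt_star hl hT hy
      rcases hTD _ hm with h | h
      · exact h1.1 h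
      · exact hC.not_both (Z.isT _ _ hT) (hDA hm) h1 h
  | E j =>
    obtain ⟨hc, T', hT', u, hu, huD, hall⟩ := hX2
    have hex : S.ex (2 * j) := hX
    have hna := OneCls_El hC hDA hk hc hT' hall
    have iT' := Z.isT _ _ hT'
    cases Y with
    | n b =>
      intro x hx hxe
      by_contra hcon
      obtain ⟨y, hy, hye, hyb⟩ : ∃ y, (y = 2 * j ∨ y = 2 * j + 1) ∧ S.ex y ∧ b ≤ y := by
        by_cases hx2 : 2 * j ≤ x
        · exact ⟨x, by omega, hxe, by omega⟩
        · exact ⟨2 * j, Or.inl rfl, hex, by omega⟩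
      obtain ⟨T, hT, hTD⟩ := (hY1 y hye).2 hyb
      obtain ⟨d, hd, hdu⟩ := OneCls_other hcard u
      have hj : Z.h j ∈ T := Z.mem' hT (by unfold inS; omega)
      apply hna d hd hdu
      rcases hTD d hd with h | h
      · apply (Z.isT _ _ hT).adj h hj
        intro e
        rw [← e, hk d hd] at hc
        exact OneCls_c1 _ hc
      · exact hC.lt_adj (Z.isT _ _ hT) h hj (by rw [hc, hk d hd])
    | E j' =>
      obtain ⟨hc', T'', hT'', u', hu', huD', hall'⟩ := hY2
      show j + 1 ≤ j'
      by_contra hcon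
      have hjj : j' ≠ j := by
        rintro rfl
        rw [hc] at hc'
        exact OneCls_c12 _ hc'
      have hne : T'' ≠ T' := Z.ne_of_lt hT'' hT' (by omega)
      have hdis : Disjoint T'' T' := by
        apply Z.disj_of hT'' hT' hne
        intro i h1 h2
        unfold inS at *
        omega
      have huu : u ≠ u' := by
        rintro rfl
        exact Finset.disjoint_left.1 hdis hu' hu
      have h1 := hall' u huD huu
      have h2 := hC.tlt_gt (Z.isT _ _ hT'') iT' (Z.dis _ _ _ _ hT'' hT' hdis (by omega)) u hu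
      exact hC.not_both (Z.isT _ _ hT'') (hDA huD) h1 h2
    | L l =>
      obtain ⟨hl, hm, hadj, hcl⟩ := hY2
      show j + 2 ≤ l ∨ (l = j + 1 ∧ ¬ S.ex (2 * j + 1))
      have hmu : Z.mid l ≠ u := by
        intro e
        have h1 := (Z.mid_unique hl hT' (by rw [e]; exact hu)).2
        omega
      have hg := hall _ hm hmu
      have n1 : ¬ (2 * l + 3 < 2 * j) := fun h1 =>
        hC.not_both iT' (hDA hm) (Z.mid_lt hl hT' h1) hg
      have n2 : ¬ (2 * j = 2 * l - 1 ∨ 2 * j = 2 * l) := fun h1 =>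
        hC.not_both iT' (hDA hm) (Z.mid_lt_star hl hT' h1) hg
      have n3 : j ≠ l + 1 := by
        rintro rfl
        rw [OneCls_next hl hcl] at hc
        exact OneCls_c12 _ hc.symm
      by_cases h2 : j + 2 ≤ l
      · exact Or.inl h2
      · right
        have hlj : l = j + 1 := by omega
        refine ⟨hlj, fun hexj => ?_⟩
        have hlk : Z.lk j := (hS _).1 hexj
        have h3 := OneCls_next hlk hc
        rw [← hlj, hcl] at h3
        exact OneCls_c12 _ h3
  | U i =>
    obtain ⟨hi, hm, hadj, hc⟩ := hX2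
    have hc1 := OneCls_next hi hc
    have hnext : S.ex (2 * i + 3) → col (Z.h (i + 2)) = k := by
      intro he
      have hlk : Z.lk (i + 1) := by
        have h1 := (hS _).1 he
        have e : 2 * i + 3 = 2 * (i + 1) + 1 := by ring
        rw [e] at h1
        exact h1
      have h1 := Z.col1 _ hlk
      have e : i + 1 + 1 = i + 2 := by ring
      rw [e, hc1, OneCls_c21] at h1
      exact h1
    cases Y with
    | n b =>
      intro x hx hxe
      by_contra hcon
      obtain ⟨y, hy, hye, hyb⟩ : ∃ y, (y = 2 * i + 2 ∨ y = 2 * i + 3) ∧ S.ex y ∧ b ≤ y := by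
        by_cases hx2 : 2 * i + 2 ≤ x
        · exact ⟨x, by omega, hxe, by omega⟩
        · obtain ⟨y, T, hT, hy⟩ := Z.ex_right hi
          exact ⟨y, hy, (hS y).2 ⟨T, hT⟩, by omega⟩
      obtain ⟨T, hT, hTD⟩ := (hY1 y hye).2 hyb
      have h1 := Z.mid_gt_star hi hT hy
      rcases hTD _ hm with h | h
      · exact h1.1 h
      · exact hC.not_both (Z.isT _ _ hT) (hDA hm) h h1
    | E j =>
      obtain ⟨hcj, T', hT', u, hu, huD, hall⟩ := hY2
      have iT' := Z.isT _ _ hT'
      show i + 3 ≤ j ∨ (j = i + 2 ∧ ¬ S.ex (2 * i + 3))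
      have hmu : Z.mid i ≠ u := by
        intro e
        have h1 := (Z.mid_unique hi hT' (by rw [e]; exact hu)).2
        omega
      have hg := hall _ hm hmu
      have n1 : ¬ (2 * j < 2 * i - 1) := fun h1 =>
        hC.not_both iT' (hDA hm) hg (Z.mid_gt hC hi hT' h1)
      have n2 : ¬ (2 * j = 2 * i + 2 ∨ 2 * j = 2 * i + 3) := fun h1 =>
        hC.not_both iT' (hDA hm) hg (Z.mid_gt_star hi hT' h1)
      have n3 : j ≠ i := by
        rintro rfl
        rw [hc] at hcj
        exact OneCls_c12 _ hcj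
      by_cases h2 : i + 3 ≤ j
      · exact Or.inl h2
      · right
        have hj : j = i + 2 := by omega
        refine ⟨hj, fun he => ?_⟩
        have h3 := hnext he
        rw [← hj, hcj] at h3
        exact OneCls_c2 _ h3.symm
    | L l =>
      obtain ⟨hl, hml, hadjl, hcl⟩ := hY2
      show i + 3 ≤ l ∨ (l = i + 2 ∧ ¬ S.ex (2 * i + 3))
      have hhne : Z.h i ≠ Z.h (i + 1) := by
        intro e
        rw [← e, hc] at hc1
        exact OneCls_c12 _ hc1
      have n1 : l ≠ i := by
        rintro rfl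
        obtain ⟨d, hd, hdu⟩ := OneCls_other hcard (Z.mid l)
        have h1 : d ∈ Z.Q l := hC.mem_of_adj2 (Z.Q_T hi) (hDA hd) (Z.h_mem_Q l) (Z.h1_mem_Q l) hhne
          (hadjl d hd) (hadj d hd)
        exact hdu (hC.col_inj (Z.Q_T hi) h1 (Z.mid_mem_Q l) (by rw [hk d hd, hk _ hm]))
      have n2 : l ≠ i + 1 := by
        rintro rfl
        rw [hcl] at hc1
        exact OneCls_c12 _ hc1
      have n3 : ¬ l < i := by
        intro hli
        by_cases h1 : i = l + 1
        · subst h1
          rw [OneCls_next hl hcl] at hc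
          exact OneCls_c12 _ hc.symm
        · have h2 := Z.mid_lt hl (Z.Q_mem hi) (by omega)
          have h3 : G.Adj (Z.mid l) (Z.h i) :=
            hC.lt_adj (Z.Q_T hi) h2 (Z.h_mem_Q i) (by rw [hc, hk _ hml])
          exact hhne (hC.nb_unique (Z.Q_T hi) (hDA hml) h2.1 (Z.h_mem_Q i) (Z.h1_mem_Q i) h3
            (hadj _ hml))
      by_cases h2 : i + 3 ≤ l
      · exact Or.inl h2
      · right
        have hj : l = i + 2 := by omega
        refine ⟨hj, fun he => ?_⟩
        have h3 := hnext he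
        rw [← hj, hcl] at h3
        exact OneCls_c1 _ h3.symm

/-- `left_end`, `right_end`, `one_val`, `one_compat`. -/
theorem one_pat (hC : PC G A col) (hD : Stab G A D) (hcard : 2 ≤ D.card) {k : ZMod 3}
    (hk : ∀ x ∈ D, col x = k) (hN : NIC G A D) {S : Sys} (hS : Blk S Z) :
    ∃ (X : LEnd) (Y : REnd), X.Val S ∧ Y.Val S ∧ Compat1 S X Y ∧ One S (vv Z D) X Y ∧
      LInfo Z D k X ∧ RInfo Z D k Y := by
  obtain ⟨X, hX, hX1, hX2⟩ := left_end hC hD.1 hk hS
  obtain ⟨Y, hY, hY1, hY2⟩ := right_end hC hD.1 hk hS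
  refine ⟨X, Y, hX, hY, one_compat hC hD hcard hk hS hX hY hX1 hY1 hX2 hY2, ?_, hX2, hY2⟩
  have hne : D.Nonempty := by
    rw [← Finset.card_pos]
    omega
  intro x hx
  obtain ⟨h1, h2⟩ := one_val hC hD hne hk hN ((hS x).1 hx)
  rw [hX1 x hx, hY1 x hx] at h1
  rw [hX1 x hx, hY1 x hx] at h2
  exact ⟨h1, h2⟩

end Pool.Agent.H.MP_ebc13b_lc.h61b
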