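import Pool.Agent.H.MP_ebc13b_lc.h61b.L1.TwoCls
import Pool.Agent.H.MP_ebc13b_lc.h61b.L1.OneCls
import Pool.Agent.H.MP_ebc13b_lc.h61b.L2.Arc

/-!
# Level 1: stable sets outside the core (`CF`), arcs
-/

namespace Pool.Agent.H.MP_ebc13b_lc.h61b

open Pool.Agent.H.MP_ebc13b_lc.h46 Pool.Agent.H.MP_ebc13b_lc.h53

variable {α : Type*} [DecidableEq α] {G : SimpleGraph α} {A D : Finset α} {col : α → ZMod 3}
  {Z : ZLine G A col}

/-- the values are an arc: a constant, plus or minus the indicator function of an interval -/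
def ArcV (S : Sys) (v : ℤ → ℕ) : Prop := ∃ (a b : ℤ) (c : ℕ), a ≤ b ∧
  ((∀ x, S.ex x → v x = if a ≤ x ∧ x < b then c + 1 else c) ∨
    (∀ x, S.ex x → v x = if a ≤ x ∧ x < b then c else c + 1))

theorem CF.nic (h : CF G A D) : NIC G A D := by
  intro T hT u hu huD
  exact absurd huD (Finset.disjoint_left.1 (h T hT) hu)

theorem CF.mono (h : CF G A D) {E : Finset α} (hE : E ⊆ D) : CF G A E := by
  intro T hT
  exact (h T hT).mono_right hE

/-- a vertex outside the core is not a middle vertex `mid i`, `Z.lk i` -/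
theorem CF.ne_mid (h : CF G A D) {x : α} (hx : x ∈ D) : ∀ i, Z.lk i → x ≠ Z.mid i := by
  intro i hi he
  subst he
  exact Finset.disjoint_left.1 (h _ (Z.Q_T hi)) (Z.mid_mem_Q i) hx

private theorem CFa_left {E : Finset α} {k : ZMod 3} (hF : CF G A D) (hE : E ⊆ D) {X : LEnd}
    (hX : LInfo Z E k X) : ∃ a, X = .n a := by
  cases X with
  | n a => exact ⟨a, rfl⟩
  | E j =>
    exfalso
    obtain ⟨_, T, hT, u, hu, huE, _⟩ := hX
    exact Finset.disjoint_left.1 (hF T (Z.isT _ T hT)) hu (hE huE)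
  | U i =>
    exfalso
    obtain ⟨h1, h2, _⟩ := hX
    exact hF.ne_mid (hE h2) i h1 rfl

private theorem CFa_right {E : Finset α} {k : ZMod 3} (hF : CF G A D) (hE : E ⊆ D) {Y : REnd}
    (hY : RInfo Z E k Y) : ∃ a, Y = .n a := by
  cases Y with
  | n a => exact ⟨a, rfl⟩
  | E j =>
    exfalso
    obtain ⟨_, T, hT, u, hu, huE, _⟩ := hY
    exact Finset.disjoint_left.1 (hF T (Z.isT _ T hT)) hu (hE huE)
  | L i =>
    exfalso
    obtain ⟨h1, h2, _⟩ := hY
    exact hF.ne_mid (hE h2) i h1 rfl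

/-- One class: the ends are normal (`LInfo`, `RInfo` of special ends give an element of `D` in a
triangle), and `one_val` (with `CF.nic`): the value is `1` exactly on the existing blocks of
`[a, b)` (empty if `b < a`). -/
theorem cf_one (hC : PC G A col) (hD : Stab G A D) (hne : D.Nonempty) {k : ZMod 3}
    (hk : ∀ x ∈ D, col x = k) (hF : CF G A D) {S : Sys} (hS : Blk S Z) :
    ArcV S (vv Z D) := by
  obtain ⟨X, _, hX1, hX2⟩ := left_end (Z := Z) hC hD.1 hk hS
  obtain ⟨Y, _, hY1, hY2⟩ := right_end (Z := Z) hC hD.1 hk hS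
  obtain ⟨a, rfl⟩ := CFa_left hF (Finset.Subset.refl D) hX2
  obtain ⟨c, rfl⟩ := CFa_right hF (Finset.Subset.refl D) hY2
  refine ⟨a, max a c, 0, le_max_left _ _, Or.inl fun x hx => ?_⟩
  obtain ⟨h1, h2⟩ := one_val hC hD hne hk hF.nic ((hS x).1 hx)
  rw [hX1 x hx, hY1 x hx] at h1
  rw [hX1 x hx, hY1 x hx] at h2
  change (x < a ∨ c ≤ x) → _ at h1
  change ¬ x < a → ¬ c ≤ x → _ at h2
  split_ifs with h3
  · exact h2 (by omega) (by omega)
  · exact h1 (by omega)

/-- Two classes which are not separated by any triangle: `two_pat`; in the third alternative the ends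
must be normal (special ends do not satisfy ... use `left_end`, `right_end`, `two_val` directly
instead): the ends are `n a`, `n c` (`LInfo`, `RInfo` as in `cf_one`).  If `c ≤ a`: the value is `0` on
`[c, a)` and `1` elsewhere.  If `a < c`: the value is `2` on `[a, c)` (`two_val`, no separating
triangle) and `1` elsewhere. -/
theorem cf_two (hC : PC G A col) (hD : Stab G A D) {k : ZMod 3}
    (hk : ∀ x ∈ D, col x = k ∨ col x = k + 1) (h0 : ∃ x ∈ D, col x = k)
    (h1 : ∃ x ∈ D, col x = k + 1) (hF : CF G A D) {S : Sys} (hS : Blk S Z)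
    (hns : ∀ T, IsT G A T → ¬ Sep G col D k T) : ArcV S (vv Z D) := by
  obtain ⟨X, _, hX1, hX2⟩ := left_end (Z := Z) (D := cl col D k) hC
    (fun x hx => hD.1 (mem_cl.1 hx).1) (fun x hx => (mem_cl.1 hx).2) hS
  obtain ⟨Y, _, hY1, hY2⟩ := right_end (Z := Z) (D := cl col D (k + 1)) hC
    (fun x hx => hD.1 (mem_cl.1 hx).1) (fun x hx => (mem_cl.1 hx).2) hS
  obtain ⟨a, rfl⟩ := CFa_left hF (fun x hx => (mem_cl.1 hx).1) hX2
  obtain ⟨c, rfl⟩ := CFa_right hF (fun x hx => (mem_cl.1 hx).1) hY2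
  have key : ∀ x, S.ex x → (x < a → c ≤ x → vv Z D x = 0) ∧ (x < a → ¬ c ≤ x → vv Z D x = 1) ∧
      (¬ x < a → c ≤ x → vv Z D x = 1) ∧ (¬ x < a → ¬ c ≤ x → vv Z D x = 2) := by
    intro x hx
    obtain ⟨e1, e2, e3, e4⟩ := two_val hC hD hk h0 h1 hF.nic ((hS x).1 hx)
    rw [hX1 x hx, hY1 x hx] at e1 e2 e3 e4
    refine ⟨e1, e2, e3, fun h3 h4 => (e4 h3 h4).2 fun T hT => hns T (Z.isT _ T hT)⟩
  rcases le_or_gt c a with hca | hca
  · refine ⟨c, a, 0, hca, Or.inr fun x hx => ?_⟩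
    obtain ⟨e1, e2, e3, e4⟩ := key x hx
    split_ifs with h3
    · exact e1 h3.2 h3.1
    · by_cases h4 : x < a
      · exact e2 h4 (by omega)
      · exact e3 h4 (by omega)
  · refine ⟨a, c, 1, hca.le, Or.inl fun x hx => ?_⟩
    obtain ⟨e1, e2, e3, e4⟩ := key x hx
    split_ifs with h3
    · exact e4 (by omega) (by omega)
    · by_cases h4 : x < a
      · exact e2 h4 (by omega)
      · exact e3 h4 (by omega)

/-- `ArcV` rows hold for the hits: `arc_add`, `arc_sub`. -/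
theorem arcV_hs {S : Sys} (h : S.Ok) {v : ℤ → ℕ} {r : ℤ} (hO : S.Own v r) (hv : ArcV S v) :
    S.Hs v ≤ r := by
  obtain ⟨a, b, c, hab, h1 | h1⟩ := hv
  · exact arc_add h hO hab h1
  · exact arc_sub h hO hab h1

end Pool.Agent.H.MP_ebc13b_lc.h61b
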