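import Pool.Agent.H.MP_ebc13b_lc.h61b.L1.CFa

/-!
# Level 1: stable sets outside the core (`CF`), additivity
-/

namespace Pool.Agent.H.MP_ebc13b_lc.h61b

open Pool.Agent.H.MP_ebc13b_lc.h46 Pool.Agent.H.MP_ebc13b_lc.h53

variable {α : Type*} [DecidableEq α] {G : SimpleGraph α} {A D E F : Finset α} {col : α → ZMod 3}
  {Z : ZLine G A col}

/-- **No common neighbours.**  Let `T` separate the classes `k`, `k + 1` of the `CF` set `D`.  Then no
vertex is adjacent to an element `x` of the class `k` and to an element `x'` of the class `k + 1`.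

Proof.  Such a vertex `y ∈ A` has colour `k + 2`.  `x < T`, `x' > T`; the vertices of `T` of colour
`k + 1` and `k` are adjacent to `x` resp. `x'`.  `y ∉ T`: otherwise `y` and the vertex of colour
`k + 1` are two neighbours of `x` in `T`.  `y` sees a vertex `t` of `T`, of colour `k` or `k + 1`.  If
`t` has colour `k + 1`, then `{y, x, t}` is a triangle containing `x ∈ D`; if it has colour `k`, then
`{y, x', t}` is a triangle containing `x' ∈ D`: contradiction to `CF`. -/
theorem cf_nb (hC : PC G A col) (hD : Stab G A D) (hF : CF G A D) {k : ZMod 3} {T : Finset α}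
    (hT : IsT G A T) (hs : Sep G col D k T) {y x x' : α} (hy : y ∈ A) (hx : x ∈ D)
    (hxk : col x = k) (hx' : x' ∈ D) (hxk' : col x' = k + 1) (h1 : G.Adj y x) (h2 : G.Adj y x') :
    False := by
  have hxA := hD.1 hx
  have hxA' := hD.1 hx'
  have c1 := hC.col y hy x hxA h1
  have c2 := hC.col y hy x' hxA' h2
  rw [hxk] at c1
  rw [hxk'] at c2
  obtain ⟨hxT, u, hu, hxu, huc⟩ := hs.1 x hx hxk
  obtain ⟨hxT', u', hu', hxu', huc'⟩ := hs.2 x' hx' hxk'
  rw [hxk] at huc
  have huc'' : col u' = k := by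
    rw [huc', hxk']
    clear * -
    revert k
    decide
  have hyT : y ∉ T := by
    intro hyT
    have e := hC.nb_unique hT hxA hxT hyT hu h1.symm hxu
    rw [e] at c2
    exact c2 huc
  obtain ⟨t, ht, hyt, _⟩ := hC.pr T hT.1 hT.2 y hy hyT
  have c3 := hC.col y hy t (hT.1 ht) hyt
  have key : ∀ v ∈ D, G.Adj y v → G.Adj v t → False := by
    intro v hv h3 h4
    have hTT : IsT G A {y, v, t} := by
      refine ⟨?_, clique_abc h3 hyt h4⟩
      intro w hw
      simp only [Finset.mem_insert, Finset.mem_singleton] at hw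
      rcases hw with rfl | rfl | rfl
      · exact hy
      · exact hD.1 hv
      · exact hT.1 ht
    exact Finset.disjoint_left.1 (hF _ hTT) (by simp) hv
  have hct : col t = k ∨ col t = k + 1 := by
    revert c1 c2 c3
    generalize col y = a
    generalize col t = b
    clear * -
    revert k a b
    decide
  rcases hct with h3 | h3
  · have e := hC.col_inj hT ht hu' (h3.trans huc''.symm)
    exact key x' hx' h2 (e ▸ hxu')
  · have e := hC.col_inj hT ht hu (h3.trans huc.symm)
    exact key x hx h1 (e ▸ hxu)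

/-- **Additivity.**  `D` is the disjoint union of `E` and `F`, without common neighbours, and no
triangle meets `D`: `nb D` is the disjoint union of `nb E` and `nb F`. -/
theorem cf_add (hD : Stab G A D) (hF : CF G A D) (hEF : D = E ∪ F) (hdis : Disjoint E F)
    (hnb : Disjoint (nb G A E) (nb G A F)) :
    cc G A D = cc G A E + cc G A F ∧ ∀ T, IsT G A T → MM G A D T = MM G A E T + MM G A F T := by
  have hun : nb G A D = nb G A E ∪ nb G A F := by
    ext v
    rw [Finset.mem_union, mem_nb, mem_nb, mem_nb, hEF]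
    constructor
    · rintro ⟨hv, d, hd, h1⟩
      rcases Finset.mem_union.1 hd with h2 | h2
      · exact Or.inl ⟨hv, d, h2, h1⟩
      · exact Or.inr ⟨hv, d, h2, h1⟩
    · rintro (⟨hv, d, hd, h1⟩ | ⟨hv, d, hd, h1⟩)
      · exact ⟨hv, d, Finset.mem_union_left _ hd, h1⟩
      · exact ⟨hv, d, Finset.mem_union_right _ hd, h1⟩
  constructor
  · unfold cc
    rw [hun, Finset.card_union_of_disjoint hnb, hEF, Finset.card_union_of_disjoint hdis]
    push_cast
    ring
  · intro T hT
    have hTD := hF T hT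
    have hTE : Disjoint T E := by
      rw [hEF] at hTD
      exact Finset.disjoint_of_subset_right Finset.subset_union_left hTD
    have hTF : Disjoint T F := by
      rw [hEF] at hTD
      exact Finset.disjoint_of_subset_right Finset.subset_union_right hTD
    unfold MM
    rw [Finset.disjoint_iff_inter_eq_empty.1 hTD, Finset.disjoint_iff_inter_eq_empty.1 hTE,
      Finset.disjoint_iff_inter_eq_empty.1 hTF, hun, Finset.inter_union_distrib_left,
      Finset.card_union_of_disjoint]
    · rw [Finset.card_empty]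
      push_cast
      ring
    · exact Finset.disjoint_of_subset_left Finset.inter_subset_right
        (Finset.disjoint_of_subset_right Finset.inter_subset_right hnb)

/-- **Uniformity.**  If no element of the `CF` set `E` has the colour of `h j`, then `M_E` is constant
on the triangles of the block `2 * j`.

Proof.  Let `T, T' ∈ bl (2 * j)`, both contain `h j`.  For `x ∈ E` (outside `T` and `T'`),
`x < T ↔ x < T'` and `x > T ↔ x > T'` (`PC.uni_lt`, `PC.uni_gt` with the common vertex `h j`, whose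
colour is different from the colour of `x`).  Use `MM_sum` for `T` and `T'`. -/
theorem cf_unif (hC : PC G A col) (hE : E ⊆ A) (hF : CF G A E) {j : ℤ}
    (hc : ∀ x ∈ E, col x ≠ col (Z.h j)) {T T' : Finset α} (hT : T ∈ Z.bl (2 * j))
    (hT' : T' ∈ Z.bl (2 * j)) : MM G A E T = MM G A E T' := by
  have iT := Z.isT _ _ hT
  have iT' := Z.isT _ _ hT'
  have hj : Z.h j ∈ T := Z.mem' hT (Or.inr (Or.inl rfl))
  have hj' : Z.h j ∈ T' := Z.mem' hT' (Or.inr (Or.inl rfl))
  have out : ∀ x ∈ E, x ∉ T := fun x hx h => Finset.disjoint_left.1 (hF T iT) h hx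
  have out' : ∀ x ∈ E, x ∉ T' := fun x hx h => Finset.disjoint_left.1 (hF T' iT') h hx
  have l : ∀ x ∈ E, (vlt G col x T ↔ vlt G col x T') := fun x hx =>
    ⟨fun h => hC.uni_lt iT iT' hj hj' (hE hx) (out' x hx) (hc x hx) h,
      fun h => hC.uni_lt iT' iT hj' hj (hE hx) (out x hx) (hc x hx) h⟩
  have g : ∀ x ∈ E, (vgt G col x T ↔ vgt G col x T') := fun x hx =>
    ⟨fun h => hC.uni_gt iT iT' hj hj' (hE hx) (out' x hx) (hc x hx) h,
      fun h => hC.uni_gt iT' iT hj' hj (hE hx) (out x hx) (hc x hx) h⟩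
  classical
  rw [MM_sum hC hE iT (hF T iT), MM_sum hC hE iT' (hF T' iT')]
  refine Finset.sum_congr rfl ?_
  intro c _
  refine if_congr ?_ rfl rfl
  constructor
  · rintro (⟨x, hx, h1, h2⟩ | ⟨x, hx, h1, h2⟩)
    · exact Or.inl ⟨x, hx, h1, (l x hx).1 h2⟩
    · exact Or.inr ⟨x, hx, h1, (g x hx).1 h2⟩
  · rintro (⟨x, hx, h1, h2⟩ | ⟨x, hx, h1, h2⟩)
    · exact Or.inl ⟨x, hx, h1, (l x hx).2 h2⟩
    · exact Or.inr ⟨x, hx, h1, (g x hx).2 h2⟩

/-- the values add if one of the functions is constant on the block -/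
private theorem CFb_aux (hC : PC G A col) (hD : Stab G A D) (hF : CF G A D) (hEF : D = E ∪ F)
    (hdis : Disjoint E F) (hnb : Disjoint (nb G A E) (nb G A F)) (hE : E.Nonempty)
    (hF' : F.Nonempty) {b : ℤ} (hb : (Z.bl b).Nonempty)
    (hcon : ∀ T ∈ Z.bl b, ∀ T' ∈ Z.bl b, MM G A E T = MM G A E T') :
    vv Z D b = vv Z E b + vv Z F b + 1 := by
  have hSE : Stab G A E := hD.mono (by rw [hEF]; exact Finset.subset_union_left)
  have hSF : Stab G A F := hD.mono (by rw [hEF]; exact Finset.subset_union_right)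
  have hne : D.Nonempty := by
    obtain ⟨x, hx⟩ := hE
    exact ⟨x, by rw [hEF]; exact Finset.mem_union_left _ hx⟩
  have hadd := (cf_add hD hF hEF hdis hnb).2
  obtain ⟨T₁, hT₁, e1⟩ := vv_spec (Z := Z) hC hSE hE hb
  obtain ⟨T₂, hT₂, e2⟩ := vv_spec (Z := Z) hC hSF hF' hb
  refine vv_eq hC hD hne ⟨T₂, hT₂, ?_⟩ ?_
  · rw [hadd T₂ (Z.isT _ _ hT₂), ← e2, hcon T₂ hT₂ T₁ hT₁, ← e1]
    push_cast
    ring
  · intro T hT
    rw [hadd T (Z.isT _ _ hT)]
    have h1 := vv_le (Z := Z) hC hSE hE hT
    have h2 := vv_le (Z := Z) hC hSF hF' hT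
    push_cast
    linarith

/-- **Additivity on blocks.**  `D = E ∪ F` as in `cf_add`, both nonempty, and no element of `E` has the
colour of an element of `F`.  Then `vv D b = vv E b + vv F b + 1` for every nonempty block `b`.

Proof.  If `b` is odd, the block has only one triangle.  If `b = 2 * j`, then `E` or `F` has no element
of the colour of `h j`, say `E`; `M_E` is constant on the block by `cf_unif`, so the minimum of
`M_E + M_F` is the sum of the minima (`vv_spec`, `vv_le`). -/
theorem cf_vv (hC : PC G A col) (hD : Stab G A D) (hF : CF G A D) (hEF : D = E ∪ F)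
    (hdis : Disjoint E F) (hnb : Disjoint (nb G A E) (nb G A F)) (hE : E.Nonempty)
    (hF' : F.Nonempty) (hcol : ∀ x ∈ E, ∀ y ∈ F, col x ≠ col y) {b : ℤ}
    (hb : (Z.bl b).Nonempty) : vv Z D b = vv Z E b + vv Z F b + 1 := by
  rcases Int.even_or_odd' b with ⟨j, rfl | rfl⟩
  · have hEA : E ⊆ A := (show E ⊆ D by rw [hEF]; exact Finset.subset_union_left).trans hD.1
    have hFA : F ⊆ A := (show F ⊆ D by rw [hEF]; exact Finset.subset_union_right).trans hD.1
    have cE : CF G A E := hF.mono (by rw [hEF]; exact Finset.subset_union_left)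
    have cF : CF G A F := hF.mono (by rw [hEF]; exact Finset.subset_union_right)
    by_cases h1 : ∀ x ∈ E, col x ≠ col (Z.h j)
    · exact CFb_aux hC hD hF hEF hdis hnb hE hF' hb
        (fun T hT T' hT' => cf_unif hC hEA cE h1 hT hT')
    · push Not at h1
      obtain ⟨x, hx, hxc⟩ := h1
      have h2 : ∀ y ∈ F, col y ≠ col (Z.h j) := by
        intro y hy hyc
        exact hcol x hx y hy (hxc.trans hyc.symm)
      have h3 := CFb_aux (Z := Z) (E := F) (F := E) hC hD hF
        (by rw [hEF, Finset.union_comm]) hdis.symm hnb.symm hF' hE hb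
        (fun T hT T' hT' => cf_unif hC hFA cF h2 hT hT')
      omega
  · refine CFb_aux hC hD hF hEF hdis hnb hE hF' hb ?_
    intro T hT T' hT'
    rw [Z.eq_of_block hT hT' rfl]

/-- If the rows of `E` and `F` hold for the hits, then so does the row of `D`:
`Hs (vv D) = Hs (vv E) + Hs (vv F) + |P| ≤ cc E - |P| + (cc F - |P|) + |P| = cc D - |P|` (the hits are
existing blocks, `t_range`). -/
theorem cf_hs_add (hC : PC G A col) (hD : Stab G A D) (hF : CF G A D) (hEF : D = E ∪ F)
    (hdis : Disjoint E F) (hnb : Disjoint (nb G A E) (nb G A F)) (hE : E.Nonempty)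
    (hF' : F.Nonempty) (hcol : ∀ x ∈ E, ∀ y ∈ F, col x ≠ col y) {S : Sys} (h : S.Ok)
    (hS : Blk S Z) (h1 : S.Hs (vv Z E) ≤ cc G A E - S.P.card)
    (h2 : S.Hs (vv Z F) ≤ cc G A F - S.P.card) : S.Hs (vv Z D) ≤ cc G A D - S.P.card := by
  have e : S.Hs (vv Z D) = S.Hs (vv Z E) + S.Hs (vv Z F) + S.P.card := by
    unfold Sys.Hs
    rw [Finset.card_eq_sum_ones, Nat.cast_sum, ← Finset.sum_add_distrib, ← Finset.sum_add_distrib]
    refine Finset.sum_congr rfl ?_
    intro p hp
    have h3 := (hS _).1 (t_range h hp).2.2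
    rw [cf_vv hC hD hF hEF hdis hnb hE hF' hcol h3]
    push_cast
    ring
  rw [e, (cf_add hD hF hEF hdis hnb).1]
  linarith

end Pool.Agent.H.MP_ebc13b_lc.h61b
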