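import Pool.Agent.H.MP_ebc13b_lc.h61b.L1.CFb

/-!
# Level 1: stable sets outside the core (`CF`), three classes
-/

namespace Pool.Agent.H.MP_ebc13b_lc.h61b

open Pool.Agent.H.MP_ebc13b_lc.h46 Pool.Agent.H.MP_ebc13b_lc.h53

variable {α : Type*} [DecidableEq α] {G : SimpleGraph α} {A D : Finset α} {col : α → ZMod 3}
  {Z : ZLine G A col}

/-- the zone `k`: blocks with a triangle separating the classes `k`, `k + 1` -/
def zone (Z : ZLine G A col) (D : Finset α) (k : ZMod 3) (b : ℤ) : Prop :=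
  ∃ T ∈ Z.bl b, Sep G col D k T

/-- A zone is an interval: if `b₁ < b < b₃`, the blocks `b₁`, `b₃` are in the zone `k` and `b` is
nonempty then `b` is in the zone `k`.  Take any `T ∈ bl b`: the elements `x` of the class `k` are
smaller than the triangle of `b₁`, so they are smaller than `T` (`ZLine.mono_lt`, `CF.ne_mid`,
`x ∉ T` by `CF`), the elements of the class `k + 1` are larger than the triangle of `b₃`, so they are
larger than `T` (`ZLine.mono_gt`). -/
theorem zone_conv (hC : PC G A col) (hD : Stab G A D) (hF : CF G A D) {k : ZMod 3} {b₁ b b₃ : ℤ}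
    (h1 : zone Z D k b₁) (h3 : zone Z D k b₃) (hb : (Z.bl b).Nonempty) (h12 : b₁ < b)
    (h23 : b < b₃) : zone Z D k b := by
  obtain ⟨T1, hT1, s1, _⟩ := h1
  obtain ⟨T3, hT3, _, s3⟩ := h3
  obtain ⟨T, hT⟩ := hb
  have hout : ∀ x ∈ D, x ∉ T := fun x hx h1 =>
    Finset.disjoint_left.1 (hF T (Z.isT b T hT)) h1 hx
  refine ⟨T, hT, ?_, ?_⟩
  · intro x hx hxk
    exact Z.mono_lt hC (hD.1 hx) (hF.ne_mid hx) hT1 hT h12 (hout x hx) (s1 x hx hxk)
  · intro x hx hxk
    exact Z.mono_gt hC (hD.1 hx) (hF.ne_mid hx) hT hT3 h23 (hout x hx) (s3 x hx hxk)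

private theorem CFc_111 (k : ZMod 3) : k + 1 + 1 + 1 = k := by
  revert k
  decide

private theorem CFc_all' (k c : ZMod 3) : c = k ∨ c = k + 1 ∨ c = k + 1 + 1 := by
  revert k c
  decide

private theorem CFc_cyc (b : ZMod 3 → ℤ) (h : ∀ k, b k ≤ b (k + 1)) (k k' : ZMod 3) :
    b k = b k' := by
  have key : ∀ k, b k = b (k + 1) := by
    intro k
    have h1 := h k
    have h2 := h (k + 1)
    have h3 := h (k + 1 + 1)
    rw [CFc_111] at h3
    omega
  have hc := CFc_all' k k'
  rcases hc with rfl | rfl | rfl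
  · rfl
  · exact key k
  · rw [key k, key (k + 1)]

/-- Not all three zones are nonempty.  Let `T k ∈ bl (b k)` separate the classes `k`, `k + 1`.  For
`x` of the class `k + 1`: `x > T k` and `x < T (k + 1)`.  By `mono_lt` (`x` is not a middle vertex)
`b (k + 1) < b k` is impossible.  So `b 0 ≤ b 1 ≤ b 2 ≤ b 0`, all equal to `b`, and the triangles
`T k`, `T (k + 1)` are different.  So `b` is even, `b = 2 * j`.  Let `k + 1` be a class with
`k + 1 ≠ col (h j)`, `x` in this class: `x > T k` implies `x > T (k + 1)` by `PC.uni_gt`: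
contradiction. -/
theorem zone_three (hC : PC G A col) (hD : Stab G A D) (hF : CF G A D)
    (h3 : ∀ k, ∃ x ∈ D, col x = k) : ∃ k, ∀ b, ¬ zone Z D k b := by
  by_contra hcon
  push Not at hcon
  choose b T hT hs using hcon
  have hout : ∀ k, ∀ x ∈ D, x ∉ T k := fun k x hx h1 =>
    Finset.disjoint_left.1 (hF (T k) (Z.isT _ _ (hT k))) h1 hx
  have hle : ∀ k, b k ≤ b (k + 1) := by
    intro k
    by_contra h1
    push Not at h1
    obtain ⟨x, hx, hxk⟩ := h3 (k + 1)
    have h4 := Z.mono_lt hC (hD.1 hx) (hF.ne_mid hx) (hT (k + 1)) (hT k) h1 (hout k x hx)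
      ((hs (k + 1)).1 x hx hxk)
    exact hC.not_both (Z.isT _ _ (hT k)) (hD.1 hx) h4 ((hs k).2 x hx hxk)
  have heq : ∀ k, b k = b 0 := fun k => CFc_cyc b hle k 0
  have hne : ∀ k, T k ≠ T (k + 1) := by
    intro k h1
    obtain ⟨x, hx, hxk⟩ := h3 (k + 1)
    have h4 := (hs (k + 1)).1 x hx hxk
    rw [← h1] at h4
    exact hC.not_both (Z.isT _ _ (hT k)) (hD.1 hx) h4 ((hs k).2 x hx hxk)
  obtain ⟨j, hj⟩ : ∃ j, b 0 = 2 * j := by
    rcases Int.even_or_odd' (b 0) with ⟨j, h1 | h1⟩
    · exact ⟨j, h1⟩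
    · exfalso
      have h4 := hT 0
      have h5 := hT (0 + 1)
      rw [heq (0 + 1)] at h5
      exact hne 0 (Z.eq_of_block h4 h5 h1)
  have hk : col (Z.h j) + 1 ≠ col (Z.h j) := by
    generalize col (Z.h j) = a
    revert a
    decide
  obtain ⟨x, hx, hxk⟩ := h3 (col (Z.h j) + 1)
  have m1 : Z.h j ∈ T (col (Z.h j)) := Z.mem' (hT _) (by rw [heq, hj]; unfold inS; omega)
  have m2 : Z.h j ∈ T (col (Z.h j) + 1) := Z.mem' (hT _) (by rw [heq, hj]; unfold inS; omega)
  have h4 := hC.uni_gt (Z.isT _ _ (hT (col (Z.h j)))) (Z.isT _ _ (hT (col (Z.h j) + 1))) m1 m2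
    (hD.1 hx) (hout _ x hx) (by rw [hxk]; exact hk) ((hs (col (Z.h j))).2 x hx hxk)
  exact hC.not_both (Z.isT _ _ (hT (col (Z.h j) + 1))) (hD.1 hx)
    ((hs (col (Z.h j) + 1)).1 x hx hxk) h4

/-- Values of the blocks: `1` if the block is in some zone, otherwise `2` (`MM_three`). -/
theorem zone_val (hC : PC G A col) (hD : Stab G A D) (hF : CF G A D)
    (h3 : ∀ k, ∃ x ∈ D, col x = k) {b : ℤ} (hb : (Z.bl b).Nonempty) :
    ((∃ k, zone Z D k b) → vv Z D b = 1) ∧ ((¬ ∃ k, zone Z D k b) → vv Z D b = 2) := by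
  have hne : D.Nonempty := by
    obtain ⟨x, hx, _⟩ := h3 0
    exact ⟨x, hx⟩
  have key : ∀ T ∈ Z.bl b, ((∃ k, Sep G col D k T) → MM G A D T = 2) ∧
      ((¬ ∃ k, Sep G col D k T) → MM G A D T = 3) := fun T hT =>
    MM_three hC hD.1 h3 (Z.isT b T hT) (hF T (Z.isT b T hT))
  constructor
  · rintro ⟨k, T, hT, hs⟩
    refine vv_eq hC hD hne ⟨T, hT, ?_⟩ ?_
    · rw [(key T hT).1 ⟨k, hs⟩]
      norm_num
    · intro T' hT'
      by_cases h1 : ∃ k, Sep G col D k T'
      · rw [(key T' hT').1 h1]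
        norm_num
      · rw [(key T' hT').2 h1]
        norm_num
  · intro hno
    have h4 : ∀ T ∈ Z.bl b, MM G A D T = 3 := fun T hT =>
      (key T hT).2 fun ⟨k, hs⟩ => hno ⟨k, T, hT, hs⟩
    obtain ⟨T, hT⟩ := hb
    refine vv_eq hC hD hne ⟨T, hT, ?_⟩ ?_
    · rw [h4 T hT]
      norm_num
    · intro T' hT'
      rw [h4 T' hT']
      norm_num

/-- If at most the zone `k` is nonempty, the values are an arc: `1` on the zone, an interval
(`zone_conv`, finite range `Z.bd`), `2` elsewhere. -/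
theorem zone_arc (hC : PC G A col) (hD : Stab G A D) (hF : CF G A D)
    (h3 : ∀ k, ∃ x ∈ D, col x = k) {k : ZMod 3} (hk : ∀ k', k' ≠ k → ∀ b, ¬ zone Z D k' b)
    {S : Sys} (hS : Blk S Z) : ArcV S (vv Z D) := by
  classical
  have hval : ∀ x, S.ex x → (zone Z D k x → vv Z D x = 1) ∧ (¬ zone Z D k x → vv Z D x = 2) := by
    intro x hx
    obtain ⟨v1, v2⟩ := zone_val hC hD hF h3 ((hS x).1 hx)
    refine ⟨fun h1 => v1 ⟨k, h1⟩, fun h1 => v2 ?_⟩
    rintro ⟨k', h2⟩
    by_cases h4 : k' = k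
    · subst h4
      exact h1 h2
    · exact hk k' h4 x h2
  by_cases hz : ∃ b, zone Z D k b
  · obtain ⟨N, hN⟩ := Z.bd
    have hbd : ∀ b, zone Z D k b → -N ≤ b ∧ b ≤ N := fun b ⟨T, hT, _⟩ => hN b ⟨T, hT⟩
    obtain ⟨a, ha, ha2⟩ := Int.exists_least_of_bdd (P := zone Z D k)
      ⟨-N, fun b hb => (hbd b hb).1⟩ hz
    obtain ⟨c, hc, hc2⟩ := Int.exists_greatest_of_bdd (P := zone Z D k)
      ⟨N, fun b hb => (hbd b hb).2⟩ hz
    have hac : a ≤ c := ha2 c hc
    refine ⟨a, c + 1, 1, by omega, Or.inr ?_⟩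
    intro x hx
    by_cases h1 : a ≤ x ∧ x < c + 1
    · rw [if_pos h1]
      apply (hval x hx).1
      by_cases h2 : x = a
      · rw [h2]
        exact ha
      · by_cases h4 : x = c
        · rw [h4]
          exact hc
        · exact zone_conv hC hD hF ha hc ((hS x).1 hx) (by omega) (by omega)
    · rw [if_neg h1]
      apply (hval x hx).2
      intro h2
      have h4 := ha2 x h2
      have h5 := hc2 x h2
      omega
  · refine ⟨0, 0, 1, le_refl _, Or.inr ?_⟩
    intro x hx
    rw [if_neg (by omega)]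
    exact (hval x hx).2 fun h1 => hz ⟨x, h1⟩

private theorem CFc_z (k : ZMod 3) : k + 1 + 1 = k + 2 ∧ k + 2 + 1 = k ∧ k ≠ k + 1 ∧ k ≠ k + 2 ∧
    k + 1 ≠ k + 2 := by
  revert k
  decide

private theorem CFc_all (k c : ZMod 3) : c = k ∨ c = k + 1 ∨ c = k + 2 := by
  revert k c
  decide

/-- two separated parts -/
private theorem CFc_add (hC : PC G A col) (hD : Stab G A D) (hF : CF G A D) {S : Sys}
    (h : S.Ok) (hS : Blk S Z)
    (hO : ∀ E, Stab G A E → E.Nonempty → S.Own (vv Z E) (cc G A E - S.P.card))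
    {E F : Finset α} (hEF : D = E ∪ F) (hE : E.Nonempty) (hF' : F.Nonempty)
    (hcol : ∀ x ∈ E, ∀ y ∈ F, col x ≠ col y)
    (hnb : ∀ y ∈ A, ∀ x ∈ E, ∀ x' ∈ F, G.Adj y x → G.Adj y x' → False)
    (aE : ArcV S (vv Z E)) (aF : ArcV S (vv Z F)) :
    S.Hs (vv Z D) ≤ cc G A D - S.P.card := by
  have sE : Stab G A E := hD.mono (by rw [hEF]; exact Finset.subset_union_left)
  have sF : Stab G A F := hD.mono (by rw [hEF]; exact Finset.subset_union_right)
  have hdis : Disjoint E F := by
    rw [Finset.disjoint_left]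
    intro x hx hx'
    exact hcol x hx x hx' rfl
  have hdn : Disjoint (nb G A E) (nb G A F) := by
    rw [Finset.disjoint_left]
    intro y hy hy'
    obtain ⟨hyA, x, hx, hyx⟩ := mem_nb.1 hy
    obtain ⟨_, x', hx', hyx'⟩ := mem_nb.1 hy'
    exact hnb y hyA x hx x' hx' hyx hyx'
  exact cf_hs_add hC hD hF hEF hdis hdn hE hF' hcol h hS (arcV_hs h (hO E sE hE) aE)
    (arcV_hs h (hO F sF hF') aF)

/-- **All `CF` rows hold for the hits.**

One class: `cf_one`, `arcV_hs`.  Two classes `k`, `k + 1`: if no triangle separates them `cf_two` and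
`arcV_hs`; otherwise `cf_hs_add` for `E = cl D k`, `F = cl D (k + 1)` with `cf_nb` and `cf_one`.

Three classes: by `zone_three` some zone is empty.  If at most one zone is nonempty, `zone_arc`.
Otherwise exactly two zones `k`, `k + 1` are nonempty and the zone `k + 2` is empty: put
`E = cl D (k + 1)`, `F = cl D k ∪ cl D (k + 2)`.  They have no common neighbours: `cf_nb` for a
triangle of the zone `k` (classes `k`, `k + 1`) and for a triangle of the zone `k + 1` (classes
`k + 1`, `k + 2`).  `E` is one class, `F` has the classes `k + 2`, `k + 3 = k`, which are not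
separated by a triangle (the zone `k + 2` of `D` is empty): `cf_two` with `k + 2` instead of `k`. -/
theorem cf_hs (hC : PC G A col) (hD : Stab G A D) (hne : D.Nonempty) (hF : CF G A D) {S : Sys}
    (h : S.Ok) (hS : Blk S Z)
    (hO : ∀ E, Stab G A E → E.Nonempty → S.Own (vv Z E) (cc G A E - S.P.card)) :
    S.Hs (vv Z D) ≤ cc G A D - S.P.card := by
  by_cases h3 : ∀ k, ∃ x ∈ D, col x = k
  · obtain ⟨k, hk0⟩ := zone_three (Z := Z) hC hD hF h3
    obtain ⟨z1, z2, z3, z4, z5⟩ := CFc_z k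
    by_cases hz1 : ∃ b, zone Z D (k + 1) b
    · by_cases hz2 : ∃ b, zone Z D (k + 2) b
      · obtain ⟨b1, T1, hT1, s1⟩ := hz1
        obtain ⟨b2, T2, hT2, s2⟩ := hz2
        have hEs : cl col D (k + 2) ⊆ D := Finset.filter_subset _ _
        have hFs : cl col D k ∪ cl col D (k + 1) ⊆ D :=
          Finset.union_subset (Finset.filter_subset _ _) (Finset.filter_subset _ _)
        have hEF : D = cl col D (k + 2) ∪ (cl col D k ∪ cl col D (k + 1)) := by
          ext x
          simp only [Finset.mem_union, mem_cl]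
          constructor
          · intro hx
            rcases CFc_all k (col x) with h1 | h1 | h1
            · exact Or.inr (Or.inl ⟨hx, h1⟩)
            · exact Or.inr (Or.inr ⟨hx, h1⟩)
            · exact Or.inl ⟨hx, h1⟩
          · rintro (h1 | h1 | h1) <;> exact h1.1
        have hEn : (cl col D (k + 2)).Nonempty := by
          obtain ⟨x, hx, hxk⟩ := h3 (k + 2)
          exact ⟨x, mem_cl.2 ⟨hx, hxk⟩⟩
        have hF0 : ∃ x ∈ cl col D k ∪ cl col D (k + 1), col x = k := by
          obtain ⟨x, hx, hxk⟩ := h3 k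
          exact ⟨x, Finset.mem_union_left _ (mem_cl.2 ⟨hx, hxk⟩), hxk⟩
        have hF1 : ∃ x ∈ cl col D k ∪ cl col D (k + 1), col x = k + 1 := by
          obtain ⟨x, hx, hxk⟩ := h3 (k + 1)
          exact ⟨x, Finset.mem_union_right _ (mem_cl.2 ⟨hx, hxk⟩), hxk⟩
        have hFc : ∀ x ∈ cl col D k ∪ cl col D (k + 1), col x = k ∨ col x = k + 1 := by
          intro x hx
          rcases Finset.mem_union.1 hx with h1 | h1
          · exact Or.inl (mem_cl.1 h1).2
          · exact Or.inr (mem_cl.1 h1).2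
        have sE : Stab G A (cl col D (k + 2)) := hD.mono hEs
        have sF : Stab G A (cl col D k ∪ cl col D (k + 1)) := hD.mono hFs
        have aE : ArcV S (vv Z (cl col D (k + 2))) :=
          cf_one hC sE hEn (fun x hx => (mem_cl.1 hx).2) (hF.mono hEs) hS
        have aF : ArcV S (vv Z (cl col D k ∪ cl col D (k + 1))) := by
          refine cf_two hC sF hFc hF0 hF1 (hF.mono hFs) hS ?_
          intro T hT hs
          obtain ⟨b, hb⟩ := Z.ex T hT
          refine hk0 b ⟨T, hb, ?_, ?_⟩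
          · intro x hx hxk
            exact hs.1 x (Finset.mem_union_left _ (mem_cl.2 ⟨hx, hxk⟩)) hxk
          · intro x hx hxk
            exact hs.2 x (Finset.mem_union_right _ (mem_cl.2 ⟨hx, hxk⟩)) hxk
        refine CFc_add hC hD hF h hS hO hEF hEn ?_ ?_ ?_ aE aF
        · obtain ⟨x, hx, _⟩ := hF0
          exact ⟨x, hx⟩
        · intro x hx y hy hxy
          have h1 := (mem_cl.1 hx).2
          rcases hFc y hy with h2 | h2
          · rw [h1, h2] at hxy
            exact z4 hxy.symm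
          · rw [h1, h2] at hxy
            exact z5 hxy.symm
        · intro y hy x hx x' hx' h1 h2
          obtain ⟨hxD, hxk⟩ := mem_cl.1 hx
          rcases Finset.mem_union.1 hx' with h4 | h4
          · obtain ⟨hxD', hxk'⟩ := mem_cl.1 h4
            exact cf_nb hC hD hF (Z.isT _ _ hT2) s2 hy hxD hxk hxD' (by rw [z2]; exact hxk') h1 h2
          · obtain ⟨hxD', hxk'⟩ := mem_cl.1 h4
            exact cf_nb hC hD hF (Z.isT _ _ hT1) s1 hy hxD' hxk' hxD (by rw [z1]; exact hxk) h2 h1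
      · refine arcV_hs h (hO D hD hne) (zone_arc hC hD hF h3 (k := k + 1) ?_ hS)
        intro k' hk' b hb
        rcases CFc_all k k' with rfl | rfl | rfl
        · exact hk0 b hb
        · exact hk' rfl
        · exact hz2 ⟨b, hb⟩
    · refine arcV_hs h (hO D hD hne) (zone_arc hC hD hF h3 (k := k + 2) ?_ hS)
      intro k' hk' b hb
      rcases CFc_all k k' with rfl | rfl | rfl
      · exact hk0 b hb
      · exact hz1 ⟨b, hb⟩
      · exact hk' rfl
  · push Not at h3
    obtain ⟨k0, hk0⟩ := h3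
    obtain ⟨z1, z2, z3, z4, z5⟩ := CFc_z k0
    have hc : ∀ x ∈ D, col x = k0 + 1 ∨ col x = k0 + 2 := by
      intro x hx
      rcases CFc_all k0 (col x) with h1 | h1 | h1
      · exact absurd h1 (hk0 x hx)
      · exact Or.inl h1
      · exact Or.inr h1
    by_cases h1 : ∃ x ∈ D, col x = k0 + 1
    · by_cases h2 : ∃ x ∈ D, col x = k0 + 2
      · have hc' : ∀ x ∈ D, col x = k0 + 1 ∨ col x = k0 + 1 + 1 := by rwa [z1]
        have h2' : ∃ x ∈ D, col x = k0 + 1 + 1 := by rwa [z1]
        by_cases hs : ∃ T, IsT G A T ∧ Sep G col D (k0 + 1) T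
        · obtain ⟨T, hT, hs⟩ := hs
          have hE1 : cl col D (k0 + 1) ⊆ D := Finset.filter_subset _ _
          have hE2 : cl col D (k0 + 1 + 1) ⊆ D := Finset.filter_subset _ _
          have n1 : (cl col D (k0 + 1)).Nonempty := by
            obtain ⟨x, hx, hxk⟩ := h1
            exact ⟨x, mem_cl.2 ⟨hx, hxk⟩⟩
          have n2 : (cl col D (k0 + 1 + 1)).Nonempty := by
            obtain ⟨x, hx, hxk⟩ := h2'
            exact ⟨x, mem_cl.2 ⟨hx, hxk⟩⟩
          refine CFc_add hC hD hF h hS hO (E := cl col D (k0 + 1)) (F := cl col D (k0 + 1 + 1))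
            ?_ n1 n2 ?_ ?_
            (cf_one hC (hD.mono hE1) n1 (fun x hx => (mem_cl.1 hx).2) (hF.mono hE1) hS)
            (cf_one hC (hD.mono hE2) n2 (fun x hx => (mem_cl.1 hx).2) (hF.mono hE2) hS)
          · ext x
            simp only [Finset.mem_union, mem_cl]
            constructor
            · intro hx
              rcases hc' x hx with h4 | h4
              · exact Or.inl ⟨hx, h4⟩
              · exact Or.inr ⟨hx, h4⟩
            · rintro (h4 | h4) <;> exact h4.1
          · intro x hx y hy hxy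
            rw [(mem_cl.1 hx).2, (mem_cl.1 hy).2, z1] at hxy
            exact z5 hxy
          · intro y hy x hx x' hx' h4 h5
            obtain ⟨hxD, hxk⟩ := mem_cl.1 hx
            obtain ⟨hxD', hxk'⟩ := mem_cl.1 hx'
            exact cf_nb hC hD hF hT hs hy hxD hxk hxD' hxk' h4 h5
        · refine arcV_hs h (hO D hD hne) (cf_two hC hD hc' h1 h2' hF hS ?_)
          intro T hT h4
          exact hs ⟨T, hT, h4⟩
      · refine arcV_hs h (hO D hD hne) (cf_one hC hD hne (k := k0 + 1) ?_ hF hS)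
        intro x hx
        rcases hc x hx with h4 | h4
        · exact h4
        · exact absurd ⟨x, hx, h4⟩ h2
    · refine arcV_hs h (hO D hD hne) (cf_one hC hD hne (k := k0 + 2) ?_ hF hS)
      intro x hx
      rcases hc x hx with h4 | h4
      · exact absurd ⟨x, hx, h4⟩ h1
      · exact h4

end Pool.Agent.H.MP_ebc13b_lc.h61b
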