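import Pool.Agent.H.MP_ebc13b_lc.h61b.L2.FDefs
import Pool.Agent.H.MP_ebc13b_lc.h53.ZPos

/-!
# Level 1: the rows of stable sets as patterns on the line of blocks
-/

namespace Pool.Agent.H.MP_ebc13b_lc.h61b

open Pool.Agent.H.MP_ebc13b_lc.h46 Pool.Agent.H.MP_ebc13b_lc.h53

variable {α : Type*} [DecidableEq α] {G : SimpleGraph α} {A : Finset α} {col : α → ZMod 3}

/-- the smallest value `M_D(T) - 1` of the triangles `T` of the block `b` -/
noncomputable def vv (Z : ZLine G A col) (D : Finset α) (b : ℤ) : ℕ :=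
  sInf {n : ℕ | ∃ T ∈ Z.bl b, (n : ℤ) + 1 = MM G A D T}

/-- some triangle of the block `b` is smaller than all elements of `D` outside it -/
def lamB (Z : ZLine G A col) (D : Finset α) (b : ℤ) : Prop :=
  ∃ T ∈ Z.bl b, ∀ x ∈ D, x ∈ T ∨ vgt G col x T

/-- some triangle of the block `b` is larger than all elements of `D` outside it -/
def rhoB (Z : ZLine G A col) (D : Finset α) (b : ℤ) : Prop :=
  ∃ T ∈ Z.bl b, ∀ x ∈ D, x ∈ T ∨ vlt G col x T

/-- no interior core: if `u ∈ D` lies in the triangle `T`, then some other vertex of `T` has no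
neighbour in `D \ {u}` -/
def NIC (G : SimpleGraph α) (A D : Finset α) : Prop :=
  ∀ T, IsT G A T → ∀ u ∈ T, u ∈ D → ∃ w ∈ T, w ≠ u ∧ w ∉ nb G A (D.erase u)

/-- no triangle meets `D` -/
def CF (G : SimpleGraph α) (A D : Finset α) : Prop := ∀ T, IsT G A T → Disjoint T D

/-- information on special left ends of the class `k` -/
def LInfo (Z : ZLine G A col) (D : Finset α) (k : ZMod 3) : LEnd → Prop
  | .n _ => True
  | .E j => col (Z.h j) = k + 1 ∧ ∃ T ∈ Z.bl (2 * j), ∃ u ∈ T, u ∈ D ∧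
      ∀ x ∈ D, x ≠ u → vgt G col x T
  | .U i => Z.lk i ∧ Z.mid i ∈ D ∧ (∀ x ∈ D, G.Adj x (Z.h (i + 1))) ∧ col (Z.h i) = k + 1

/-- information on special right ends of the class `k` -/
def RInfo (Z : ZLine G A col) (D : Finset α) (k : ZMod 3) : REnd → Prop
  | .n _ => True
  | .E j => col (Z.h j) = k + 2 ∧ ∃ T ∈ Z.bl (2 * j), ∃ u ∈ T, u ∈ D ∧
      ∀ x ∈ D, x ≠ u → vlt G col x T
  | .L l => Z.lk l ∧ Z.mid l ∈ D ∧ (∀ x ∈ D, G.Adj x (Z.h l)) ∧ col (Z.h l) = k + 1

/-- the blocks of the abstract system are the blocks of the line -/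
def Blk (S : Sys) (Z : ZLine G A col) : Prop := ∀ b, S.ex b ↔ (Z.bl b).Nonempty

/-- `T` separates the classes `k` and `k + 1` of `D` -/
def Sep (G : SimpleGraph α) (col : α → ZMod 3) (D : Finset α) (k : ZMod 3) (T : Finset α) : Prop :=
  (∀ x ∈ D, col x = k → vlt G col x T) ∧ ∀ x ∈ D, col x = k + 1 → vgt G col x T

end Pool.Agent.H.MP_ebc13b_lc.h61b
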