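import Pool.Agent.H.MP_ebc13b_lc.h61b.L1.LDefs

/-!
# Level 1: the left end of a class
-/

namespace Pool.Agent.H.MP_ebc13b_lc.h61b

open Pool.Agent.H.MP_ebc13b_lc.h46 Pool.Agent.H.MP_ebc13b_lc.h53

variable {α : Type*} [DecidableEq α] {G : SimpleGraph α} {A D : Finset α} {col : α → ZMod 3}
  {Z : ZLine G A col}

/-- **A pair of blocks where `lamB` is not downward closed.**  Let `b < b'`, `lamB b'` (by the
triangle `T'`), and `T ∈ bl b` a triangle such that not all elements of `D` outside it are larger.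
Take `x ∈ D`, `x ∉ T`, `x < T`.
* If `x ∉ T'`, then `x > T'`, and `ZLine.inv` gives `x = mid i`, `b ∈ {2 * i - 1, 2 * i}`,
  `b' ∈ {2 * i + 2, 2 * i + 3}`.
* If `x ∈ T'`: `T` and `T'` are not disjoint (otherwise `T < T'` by `Z.dis`, so `x > T`, `PC.tlt_gt`).
  By `Z.share` the common vertex is `h j` with `inS j b`, `inS j b'`.  `x ≠ h j` (`x ∉ T`), so `x` is
  adjacent to `h j ∈ T`, and as `x < T`, `col (h j) = col x + 1 = k + 1`.  If `b' = 2 * j + 1`, then
  `T' = Q j = {h j, mid j, h (j + 1)}` and `col (h (j + 1)) = k + 2`, so `x = mid j`; `b` is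
  `2 * j - 1` or `2 * j`: first alternative with `i = j`.  If `b' = 2 * j` then `b = 2 * j - 1`:
  second alternative (all elements of `D` have the same colour, so `D ∩ T' = {x}`). -/
theorem lam_pair (hC : PC G A col) (hD : D ⊆ A) {k : ZMod 3} (hk : ∀ x ∈ D, col x = k) {b b' : ℤ}
    (hb : b < b') (h' : lamB Z D b') {T : Finset α} (hT : T ∈ Z.bl b)
    (hn : ¬ ∀ x ∈ D, x ∈ T ∨ vgt G col x T) :
    (∃ i, Z.lk i ∧ Z.mid i ∈ D ∧ col (Z.h i) = k + 1 ∧ (b = 2 * i - 1 ∨ b = 2 * i) ∧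
      (b' = 2 * i + 1 ∨ b' = 2 * i + 2 ∨ b' = 2 * i + 3)) ∨
    (∃ j, col (Z.h j) = k + 1 ∧ b = 2 * j - 1 ∧ b' = 2 * j ∧
      ∃ T' ∈ Z.bl (2 * j), ∃ u ∈ T', u ∈ D ∧ ∀ x ∈ D, x ≠ u → vgt G col x T') := by
  push Not at hn
  obtain ⟨x, hxD, hxT, hxg⟩ := hn
  have iT := Z.isT _ _ hT
  have hxA := hD hxD
  have hxl : vlt G col x T := hC.lt_of_not_gt iT hxA hxT hxg
  obtain ⟨T', hT', hT'D⟩ := h'
  have iT' := Z.isT _ _ hT'
  by_cases hx' : x ∈ T'
  · have hne : T ≠ T' := Z.ne_of_lt hT hT' hb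
    have hnd : ¬ Disjoint T T' := by
      intro hd
      exact hxg (hC.tlt_gt iT iT' (Z.dis _ _ _ _ hT hT' hd hb) x hx')
    obtain ⟨y, hy, hy'⟩ := Finset.not_disjoint_iff.1 hnd
    obtain ⟨j, rfl, a1, a2⟩ := Z.share _ _ _ _ hT hT' hne y hy hy'
    have hxj : x ≠ Z.h j := fun e => hxT (e ▸ hy)
    have hadj : G.Adj x (Z.h j) := iT'.adj hx' hy' hxj
    have hcj : col (Z.h j) = k + 1 := by
      obtain ⟨_, w, hw, hxw, hwc⟩ := hxl
      have e := hC.nb_unique iT hxA hxT hw hy hxw hadj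
      rw [← e, hwc, hk x hxD]
    have hb' : b' = 2 * j + 1 ∨ (b' = 2 * j ∧ b = 2 * j - 1) := by omega
    rcases hb' with rfl | ⟨rfl, rfl⟩
    · left
      have hl : Z.lk j := ⟨_, hT'⟩
      have hxm : x = Z.mid j := by
        apply hC.col_inj (Z.Q_T hl)
        · rw [← Z.eq_Q hT']; exact hx'
        · exact Z.mid_mem_Q j
        · rw [Z.colm j hl, hcj, hk x hxD]
          clear * -
          revert k
          decide
      exact ⟨j, hl, hxm ▸ hxD, hcj, by omega, Or.inl rfl⟩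
    · right
      refine ⟨j, hcj, rfl, rfl, T', hT', x, hx', hxD, ?_⟩
      intro y hyD hyx
      rcases hT'D y hyD with h | h
      · exact absurd (hC.col_inj iT' h hx' (by rw [hk y hyD, hk x hxD])) hyx
      · exact h
  · have hxg' : vgt G col x T' := (hT'D x hxD).resolve_left hx'
    obtain ⟨i, hl, rfl, h1, h2⟩ := Z.inv hC hT hT' hb hxA hxl hxg'
    left
    refine ⟨i, hl, hxD, ?_, h1, by omega⟩
    have h3 := Z.colm i hl
    rw [hk _ hxD] at h3
    exact z3_sub2 _ _ h3

/-- If `mid i ∈ D` and one of the blocks `2 * i + 1`, `2 * i + 2`, `2 * i + 3` is in `lamB`, then all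
elements of `D` are adjacent to `h (i + 1)`: it has colour `k + 2` and is contained in the triangle
`T'` of this block; every `x ∈ D` in `T'` is adjacent to it (other colour), every `x > T'` sees the
vertex of colour `k + 2` of `T'`. -/
theorem lam_U_adj (hC : PC G A col) {k : ZMod 3} (hk : ∀ x ∈ D, col x = k) {i b' : ℤ}
    (hi : Z.lk i) (hm : Z.mid i ∈ D) (hb' : b' = 2 * i + 1 ∨ b' = 2 * i + 2 ∨ b' = 2 * i + 3)
    (h' : lamB Z D b') : ∀ x ∈ D, G.Adj x (Z.h (i + 1)) := by
  intro x hxD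
  obtain ⟨T', hT', hT'D⟩ := h'
  have iT' := Z.isT _ _ hT'
  have hmem : Z.h (i + 1) ∈ T' := Z.mem' hT' (by unfold inS; omega)
  have hc : col (Z.h (i + 1)) = k + 2 := by
    have h1 := Z.mid_col hi
    rw [hk _ hm] at h1
    exact z3_sub1 _ _ h1
  rcases hT'D x hxD with h | h
  · apply iT'.adj h hmem
    intro e
    rw [← e, hk x hxD] at hc
    clear * - hc
    revert k
    decide
  · exact hC.gt_adj iT' h hmem (by rw [hc, hk x hxD])

/-- a failing block below a good one -/
private theorem LeftEnd_fail {b : ℤ} (h : ¬ lamB Z D b) {T : Finset α} (hT : T ∈ Z.bl b) :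
    ¬ ∀ x ∈ D, x ∈ T ∨ vgt G col x T := fun h1 => h ⟨T, hT, h1⟩

/-- a vertex below a triangle shows that the triangle does not work -/
private theorem LeftEnd_no (hC : PC G A col) (hD : D ⊆ A) {b : ℤ}
    (h : ∀ T ∈ Z.bl b, ∃ x ∈ D, vlt G col x T) : ¬ lamB Z D b := by
  rintro ⟨T, hT, h1⟩
  obtain ⟨x, hx, hl⟩ := h T hT
  rcases h1 x hx with h2 | h2
  · exact hl.1 h2
  · exact hC.not_both (Z.isT _ _ hT) (hD hx) hl h2

/-- first case -/
private theorem LeftEnd_U (hC : PC G A col) (hD : D ⊆ A) {k : ZMod 3} (hk : ∀ x ∈ D, col x = k)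
    {i : ℤ} (hi : Z.lk i) (hm : Z.mid i ∈ D) (hc : col (Z.h i) = k + 1)
    (hadj : ∀ x ∈ D, G.Adj x (Z.h (i + 1))) {b : ℤ} (hb : (Z.bl b).Nonempty) :
    lamB Z D b ↔ lam (.U i) b := by
  have hc1 : col (Z.h (i + 1)) = k + 2 := by
    have h1 := Z.mid_col hi
    rw [hk _ hm] at h1
    exact z3_sub1 _ _ h1
  have good : ∀ b, (b = 2 * i + 1 ∨ b = 2 * i + 2 ∨ b = 2 * i + 3) → (Z.bl b).Nonempty →
      lamB Z D b := by
    rintro b hb' ⟨T, hT⟩
    refine ⟨T, hT, ?_⟩
    intro x hx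
    by_cases hxT : x ∈ T
    · exact Or.inl hxT
    · right
      exact ⟨hxT, Z.h (i + 1), Z.mem' hT (by unfold inS; omega), hadj x hx, by
        rw [hc1, hk x hx]⟩
  have hlam : lam (.U i) b ↔ (b < 2 * i + 4 ∧ b ≠ 2 * i - 1 ∧ b ≠ 2 * i) := Iff.rfl
  rw [hlam]
  constructor
  · intro h
    by_contra hcon
    have h1 : (b = 2 * i - 1 ∨ b = 2 * i) ∨ 2 * i + 3 < b := by omega
    refine LeftEnd_no hC hD ?_ h
    intro T hT
    refine ⟨_, hm, ?_⟩
    rcases h1 with h1 | h1
    · exact Z.mid_lt_star hi hT h1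
    · exact Z.mid_lt hi hT h1
  · rintro ⟨h1, h2, h3⟩
    by_cases h4 : 2 * i + 1 ≤ b
    · exact good b (by omega) hb
    · by_contra hcon
      obtain ⟨T, hT⟩ := hb
      rcases lam_pair hC hD hk (b' := 2 * i + 1) (by omega) (good _ (Or.inl rfl) hi) hT
        (LeftEnd_fail hcon hT) with ⟨i', e1, e2, e3, e4, e5⟩ | ⟨j, e1, e2, e3, _⟩
      · have e6 : i = i' + 1 := by omega
        have h5 := Z.mid_col e1
        rw [hk _ e2, ← e6, hc] at h5
        clear * - h5
        revert k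
        decide
      · omega

/-- second case -/
private theorem LeftEnd_E (hC : PC G A col) (hD : D ⊆ A) {k : ZMod 3} (hk : ∀ x ∈ D, col x = k)
    {j : ℤ} (hc : col (Z.h j) = k + 1) (hl : ¬ lamB Z D (2 * j - 1)) {T' : Finset α}
    (hT' : T' ∈ Z.bl (2 * j)) {u : α} (hu : u ∈ T') (huD : u ∈ D)
    (hall : ∀ x ∈ D, x ≠ u → vgt G col x T') {b : ℤ} (hb : (Z.bl b).Nonempty) :
    lamB Z D b ↔ lam (.E j) b := by
  have iT' := Z.isT _ _ hT'
  have hj' : Z.h j ∈ T' := Z.mem' hT' (Or.inr (Or.inl rfl))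
  have hne : u ≠ Z.h j := by
    intro e
    rw [← e, hk u huD] at hc
    clear * - hc
    revert k
    decide
  have hadj : G.Adj u (Z.h j) := iT'.adj hu hj' hne
  have good : lamB Z D (2 * j) := by
    refine ⟨T', hT', ?_⟩
    intro x hx
    by_cases hxu : x = u
    · left
      rw [hxu]
      exact hu
    · exact Or.inr (hall x hx hxu)
  have hlam : lam (.E j) b ↔ (b < 2 * j + 1 ∧ b ≠ 2 * j - 1) := Iff.rfl
  rw [hlam]
  constructor
  · intro h
    by_contra hcon
    have h1 : b = 2 * j - 1 ∨ b = 2 * j + 1 ∨ 2 * j + 2 ≤ b := by omega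
    rcases h1 with rfl | rfl | h1
    · exact hl h
    · refine LeftEnd_no hC hD ?_ h
      intro T hT
      refine ⟨u, huD, ?_⟩
      have hjT : Z.h j ∈ T := Z.mem' hT (Or.inr (Or.inr rfl))
      have huT : u ∉ T := by
        intro huT
        exact hne (hC.share iT' (Z.isT _ _ hT) (Z.ne_of_lt hT' hT (by omega)) hu hj' huT hjT)
      exact ⟨huT, Z.h j, hjT, hadj, by rw [hc, hk u huD]⟩
    · refine LeftEnd_no hC hD ?_ h
      intro T hT
      refine ⟨u, huD, ?_⟩
      have hd : Disjoint T' T := by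
        apply Z.disj_of hT' hT (Z.ne_of_lt hT' hT (by omega))
        intro i h2 h3
        unfold inS at *
        omega
      exact Z.dis _ _ _ _ hT' hT hd (by omega) u hu
  · rintro ⟨h1, h2⟩
    by_cases h4 : b = 2 * j
    · rw [h4]; exact good
    · by_contra hcon
      obtain ⟨T, hT⟩ := hb
      rcases lam_pair hC hD hk (b' := 2 * j) (by omega) good hT
        (LeftEnd_fail hcon hT) with ⟨i', e1, e2, e3, e4, e5⟩ | ⟨j', e1, e2, e3, _⟩
      · have e6 : j = i' + 1 := by omega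
        have h5 := Z.mid_col e1
        rw [hk _ e2, ← e6, hc] at h5
        clear * - h5
        revert k
        decide
      · omega

/-- **The left end of a class.**

If there is no pair `b < b'` of blocks as in `lam_pair` (i.e. `lamB` is downward closed on the
nonempty blocks): `X = n a` where `a - 1` is the largest block in `lamB` (finite range `Z.bd`), or
`a = -N` if there is none.

Otherwise `lam_pair` gives two cases.

*First case* `(i, b, b')`: `X = U i`.  All elements of `D` are adjacent to `h (i + 1)`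
(`lam_U_adj`), whose colour is `k + 2`.  So for every triangle `T` with `inS (i + 1)`, i.e. in the
blocks `2 * i + 1`, `2 * i + 2`, `2 * i + 3`, every `x ∈ D` outside `T` is larger than `T`: these
blocks are in `lamB`.  `mid i < T` for the triangles of the blocks `2 * i - 1`, `2 * i`
(`mid_lt_star`) and of the blocks `> 2 * i + 3` (`mid_lt`), and it is not in them (`mid_unique`), so
these blocks are not in `lamB` (`PC.not_both`).  The nonempty blocks `b₀ < 2 * i - 1` are in `lamB`: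
otherwise `lam_pair` for `(b₀, b')` gives `i'` with `b₀ ∈ {2 * i' - 1, 2 * i'}` and
`b' ∈ {2 * i' + 1, 2 * i' + 2, 2 * i' + 3}`, so `i' = i - 1` and `mid (i - 1)`, `mid i` are in `D`,
but their colours are different (`col1`, `colm`); or `j` with `b' = 2 * j`, `b₀ = 2 * j - 1`, so
`j = i + 1`, `b₀ = 2 * i + 1`, a contradiction.

*Second case* `j`: `X = E j`.  `T' ∈ bl (2 * j)`, `u ∈ T' ∩ D`, all other elements of `D` are larger
than `T'`.  The block `2 * j` is in `lamB`, and `2 * j - 1` is not (choose the pair such that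
`b = 2 * j - 1` is not in `lamB`, it consists of one triangle).  `u` is adjacent to `h j`, of colour
`k + 1`, so `u < Q j`, `u ∉ Q j` (the only common vertex of `T'` and `Q j` is `h j`): `2 * j + 1` is
not in `lamB`.  Triangles of blocks `b ≥ 2 * j + 2` are disjoint from `T'` (`disj_of`) and larger
(`Z.dis`), so `u` is smaller: not in `lamB`.  Nonempty blocks `b₀ < 2 * j - 1` are in `lamB`:
otherwise `lam_pair` for `(b₀, 2 * j)` gives `i` with `2 * j = 2 * i + 2` and `mid i ∈ D`,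
`col (mid i) = col (h j) + 1 = k + 2`, a contradiction, or `b₀ = 2 * j - 1`. -/
theorem left_end (hC : PC G A col) (hD : D ⊆ A) {k : ZMod 3} (hk : ∀ x ∈ D, col x = k) {S : Sys}
    (hS : Blk S Z) : ∃ X : LEnd, X.Val S ∧ (∀ b, S.ex b → (lamB Z D b ↔ lam X b)) ∧
      LInfo Z D k X := by
  by_cases hp : ∃ b b', b < b' ∧ (Z.bl b).Nonempty ∧ ¬ lamB Z D b ∧ lamB Z D b'
  · obtain ⟨b, b', hbb, ⟨T, hT⟩, hnb, hb'⟩ := hp
    rcases lam_pair hC hD hk hbb hb' hT (LeftEnd_fail hnb hT) with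
      ⟨i, e1, e2, e3, e4, e5⟩ | ⟨j, e1, e2, e3, T', hT', u, hu, huD, hall⟩
    · have hadj := lam_U_adj hC hk e1 e2 e5 hb'
      refine ⟨.U i, ?_, ?_, ?_⟩
      · exact (hS _).2 e1
      · intro c hc
        exact LeftEnd_U hC hD hk e1 e2 e3 hadj ((hS c).1 hc)
      · exact ⟨e1, e2, hadj, e3⟩
    · subst e2
      refine ⟨.E j, ?_, ?_, ?_⟩
      · exact (hS _).2 ⟨T', hT'⟩
      · intro c hc
        exact LeftEnd_E hC hD hk e1 hnb hT' hu huD hall ((hS c).1 hc)
      · exact ⟨e1, T', hT', u, hu, huD, hall⟩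
  · push Not at hp
    obtain ⟨N, hN⟩ := Z.bd
    by_cases hex : ∃ b, lamB Z D b
    · have hbd : ∃ c, ∀ z, lamB Z D z → z ≤ c := by
        refine ⟨N, ?_⟩
        rintro z ⟨T, hT, _⟩
        exact (hN z ⟨T, hT⟩).2
      obtain ⟨m, hm, hmax⟩ := Int.exists_greatest_of_bdd hbd hex
      refine ⟨.n (m + 1), trivial, ?_, trivial⟩
      intro c hc
      have hlam : lam (.n (m + 1)) c ↔ c < m + 1 := Iff.rfl
      rw [hlam]
      constructor
      · intro h
        have := hmax c h
        omega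
      · intro h
        rcases eq_or_ne c m with rfl | hne
        · exact hm
        · by_contra hcon
          exact hp c m (by omega) ((hS c).1 hc) hcon hm
    · refine ⟨.n (-N), trivial, ?_, trivial⟩
      intro c hc
      have hlam : lam (.n (-N)) c ↔ c < -N := Iff.rfl
      rw [hlam]
      constructor
      · intro h
        exact absurd ⟨c, h⟩ hex
      · intro h
        have := (hN c ((hS c).1 hc)).1
        omega

end Pool.Agent.H.MP_ebc13b_lc.h61b
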