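import Pool.Agent.H.MP_ebc13b_lc.h61b.L1.Vals
import Pool.Agent.H.MP_ebc13b_lc.h53.ZShape

/-!
# Rows of maximal stable sets: the pattern
-/

namespace Pool.Agent.H.MP_ebc13b_lc.h61b

open Pool.Agent.H.MP_ebc13b_lc.h46 Pool.Agent.H.MP_ebc13b_lc.h53

variable {α : Type*} [DecidableEq α] {G : SimpleGraph α} {A F : Finset α} {col : α → ZMod 3}
  {Z : ZLine G A col}

open Classical in
/-- `0` if some triangle of the block is met by `F`, `1` otherwise -/
noncomputable def kk (Z : ZLine G A col) (F : Finset α) (b : ℤ) : ℕ := if Z.HitB F b then 0 else 1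

theorem kk_zero {b : ℤ} (h : Z.HitB F b) : kk Z F b = 0 := by
  classical
  unfold kk
  exact if_pos h

theorem kk_one {b : ℤ} (h : ¬ Z.HitB F b) : kk Z F b = 1 := by
  classical
  unfold kk
  exact if_neg h

private theorem MaxA_hit {b : ℤ} (h : kk Z F b = 0) : Z.HitB F b := by
  by_contra hn
  rw [kk_one hn] at h
  omega

private theorem MaxA_miss {b : ℤ} (h : kk Z F b = 1) : ¬ Z.HitB F b := by
  intro hn
  rw [kk_zero hn] at h
  omega

theorem MaxS.stab' (hF : MaxS G A F) : Stab G A F := ⟨hF.sub, hF.stab⟩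

/-- `F` is nonempty if there is a triangle (a vertex of it is in `F` or has a neighbour in `F`). -/
theorem MaxS.nonempty' (hF : MaxS G A F) {T : Finset α} (hT : IsT G A T) : F.Nonempty := by
  have hc : 0 < T.card := by
    rw [hT.2.card_eq]
    norm_num
  obtain ⟨v, hv⟩ := Finset.card_pos.1 hc
  by_cases hvF : v ∈ F
  · exact ⟨v, hvF⟩
  · obtain ⟨f, hf, -⟩ := hF.max v (hT.1 hv) hvF
    exact ⟨f, hf⟩

private theorem MaxA_nb (hF : MaxS G A F) : nb G A F = A \ F := by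
  ext v
  rw [mem_nb, Finset.mem_sdiff]
  constructor
  · rintro ⟨hv, d, hd, hvd⟩
    exact ⟨hv, fun hvF => hF.stab v hvF d hd hvd⟩
  · rintro ⟨hv, hvF⟩
    obtain ⟨f, hf, hvf⟩ := hF.max v hv hvF
    exact ⟨hv, f, hf, hvf⟩

/-- `T` not met by `F`: all three vertices are in `N(F)`. -/
theorem MM_max_miss (hF : MaxS G A F) {T : Finset α} (hT : IsT G A T) (hm : ¬ Hit F T) :
    MM G A F T = 3 := by
  have h0 : ∀ x ∈ T, x ∉ F := fun x hx hxF => hm ⟨x, hx, hxF⟩
  have h1 : T ∩ nb G A F = T := by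
    rw [MaxA_nb hF]
    refine Finset.inter_eq_left.2 fun x hx => ?_
    exact Finset.mem_sdiff.2 ⟨hT.1 hx, h0 x hx⟩
  have h2 : T ∩ F = ∅ := by
    rw [← Finset.disjoint_iff_inter_eq_empty, Finset.disjoint_left]
    exact h0
  unfold MM
  rw [h1, h2, hT.2.card_eq, Finset.card_empty]
  norm_num

/-- `MM_hit`, `MM_max_miss`, `vv_eq` -/
theorem vv_max (hC : PC G A col) (hF : MaxS G A F) {b : ℤ} (hb : (Z.bl b).Nonempty) :
    vv Z F b = 2 * kk Z F b := by
  obtain ⟨T₀, hT₀⟩ := hb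
  have hne : F.Nonempty := MaxS.nonempty' hF (Z.isT b T₀ hT₀)
  have hst := MaxS.stab' hF
  by_cases h : Z.HitB F b
  · rw [kk_zero h]
    obtain ⟨T, hT, u, hu, huF⟩ := h
    refine vv_eq hC hst hne ⟨T, hT, ?_⟩ ?_
    · rw [MM_hit hC hst (Z.isT b T hT) hu huF]
      norm_num
    · intro T' hT'
      have := (MM_pos hC hst hne (Z.isT b T' hT')).1
      simpa using this
  · rw [kk_one h]
    have h1 : ∀ T ∈ Z.bl b, MM G A F T = 3 := fun T hT =>
      MM_max_miss hF (Z.isT b T hT) (fun hh => h ⟨T, hT, hh⟩)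
    refine vv_eq hC hst hne ⟨T₀, hT₀, ?_⟩ ?_
    · rw [h1 T₀ hT₀]
      norm_num
    · intro T' hT'
      rw [h1 T' hT']
      norm_num

/-- `A` is the disjoint union of `F` and `nb F`, so `cc F = |A| - 2 |F|`. -/
theorem cc_max (hF : MaxS G A F) : cc G A F = (A.card : ℤ) - 2 * F.card := by
  have h1 := Finset.card_sdiff_add_card_eq_card hF.sub
  unfold cc
  rw [MaxA_nb hF]
  omega

/-- parity: `cc F - p = |A| - p - 2 |F|` is even -/
theorem cc_max_even (hF : MaxS G A F) {p : ℕ} (hp : Even (A.card + p)) :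
    ∃ ρ : ℤ, cc G A F - p = 2 * ρ := by
  obtain ⟨r, hr⟩ := hp
  refine ⟨(r : ℤ) - p - F.card, ?_⟩
  rw [cc_max hF]
  have : (A.card : ℤ) + p = r + r := by exact_mod_cast hr
  linarith

/-- unfold; `b₀`, `b₂` with value `1` are missed blocks, blocks with value `0` are met -/
theorem cyc_of_shape (h : Z.Shape0 F) {S : Sys} (hS : Blk S Z) : Cyc S (kk Z F) := by
  constructor
  · intro x _
    by_cases hx : Z.HitB F x
    · exact Or.inl (kk_zero hx)
    · exact Or.inr (kk_one hx)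
  · intro b₁ b₂ b₃ b₀ _ e2 _ e0 k1 k2 k3 k0 h12 h23 hb
    exact h b₁ b₂ b₃ b₀ (MaxA_hit k1) ⟨(hS b₂).1 e2, MaxA_miss k2⟩ (MaxA_hit k3)
      ⟨(hS b₀).1 e0, MaxA_miss k0⟩ h12 h23 hb

private theorem MaxA_lk {S : Sys} (hS : Blk S Z) {i b : ℤ} (h : Z.lk i) (e : b = 2 * i + 1) :
    S.ex b := by
  rw [e]
  exact (hS _).2 h

/-- all triangles of the four blocks are missed, and all triangles of the other blocks are met -/
theorem fsh1_of_shape {i : ℤ} (h : Z.Shape1 F i) {S : Sys} (hS : Blk S Z) :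
    FSh1 S (kk Z F) i := by
  obtain ⟨h1, h2, h3⟩ := h
  refine ⟨MaxA_lk hS h1 rfl, MaxA_lk hS h2 (by ring), ?_, ?_⟩
  · intro x _ hx
    apply kk_one
    rintro ⟨T, hT, hh⟩
    exact (h3 x T hT).2 hx hh
  · intro x hex hx
    apply kk_zero
    obtain ⟨T, hT⟩ := (hS x).1 hex
    refine ⟨T, hT, ?_⟩
    by_contra hn
    exact hx ((h3 x T hT).1 hn)

theorem fsh2_of_shape {i : ℤ} (h : Z.Shape2 F i) {S : Sys} (hS : Blk S Z) :
    FSh2 S (kk Z F) i := by
  obtain ⟨h1, h2, h3, h4, h5, h6, h7, h8⟩ := h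
  refine ⟨MaxA_lk hS h1 rfl, MaxA_lk hS h2 (by ring), kk_zero h3, kk_zero h4,
    fun _ => kk_one h5, ?_, ?_, ?_⟩
  · intro x _ hx
    apply kk_one
    intro hh
    have := h6 x hh
    omega
  · rcases h7 with h7 | h7
    · exact Or.inl fun x hex hx => kk_zero (h7 x hx ((hS x).1 hex))
    · exact Or.inr fun x _ hx => kk_one (h7 x hx)
  · rcases h8 with h8 | h8
    · exact Or.inl fun x hex hx => kk_zero (h8 x hx ((hS x).1 hex))
    · exact Or.inr fun x _ hx => kk_one (h8 x hx)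

theorem fsh3_of_shape {i : ℤ} (h : Z.Shape3 F i) {S : Sys} (hS : Blk S Z) :
    FSh3 S (kk Z F) i := by
  obtain ⟨h1, h2, h3, h4⟩ := h
  exact ⟨MaxA_lk hS h1 rfl, MaxA_lk hS h2 (by ring), MaxA_lk hS h3 (by ring),
    fun x hx => kk_zero ((h4 x).2 hx), fun x _ hx => kk_one fun hh => hx ((h4 x).1 hh)⟩

end Pool.Agent.H.MP_ebc13b_lc.h61b
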