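import Pool.Agent.H.MP_ebc13b_lc.h61b.L1.TwoSep

/-!
# Level 1: stable sets contained in two classes
-/

namespace Pool.Agent.H.MP_ebc13b_lc.h61b

open Pool.Agent.H.MP_ebc13b_lc.h46 Pool.Agent.H.MP_ebc13b_lc.h53

variable {α : Type*} [DecidableEq α] {G : SimpleGraph α} {A D : Finset α} {col : α → ZMod 3}
  {Z : ZLine G A col}

/-- the values, for the ends `X` and `Y` -/
private theorem TwoCls_two (hC : PC G A col) (hD : Stab G A D) {k : ZMod 3}
    (hk : ∀ x ∈ D, col x = k ∨ col x = k + 1) (h0 : ∃ x ∈ D, col x = k)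
    (h1 : ∃ x ∈ D, col x = k + 1) (hN : NIC G A D) {S : Sys} (hS : Blk S Z) {X : LEnd} {Y : REnd}
    (hX1 : ∀ b, S.ex b → (lamB Z (cl col D k) b ↔ lam X b))
    (hY1 : ∀ b, S.ex b → (rhoB Z (cl col D (k + 1)) b ↔ rho Y b)) : Two S (vv Z D) X Y := by
  intro x hx
  have hv := two_val hC hD hk h0 h1 hN ((hS x).1 hx)
  rw [hX1 x hx, hY1 x hx] at hv
  exact ⟨hv.1, hv.2.1, hv.2.2.1, fun a b => (hv.2.2.2 a b).1⟩

/-- `left_end` for the class `k`, `right_end` for the class `k + 1`.

If the ends are `n a` and `n c`: if `c ≤ a` the third alternative holds (`two_val`; `Compat2` is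
`c ≤ a`, `HX` and `HY` are trivial).  If `a < c` then `CF` by `cf_of_gap`; if some triangle separates
the classes, the first alternative holds.  Otherwise all existing blocks of `[a, c)` have the value
`2` and all other existing blocks have the value `1` (`two_val`): second alternative.

If at least one end is special: third alternative, `two_compat`, `two_HX`, `two_HY`, `two_val`. -/
theorem two_pat (hC : PC G A col) (hD : Stab G A D) {k : ZMod 3}
    (hk : ∀ x ∈ D, col x = k ∨ col x = k + 1) (h0 : ∃ x ∈ D, col x = k)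
    (h1 : ∃ x ∈ D, col x = k + 1) (hN : NIC G A D) {S : Sys} (hS : Blk S Z) :
    (CF G A D ∧ ∃ T, IsT G A T ∧ Sep G col D k T) ∨
    (∃ a b, a ≤ b ∧ ∀ x, S.ex x → vv Z D x = if a ≤ x ∧ x < b then 2 else 1) ∨
    (∃ (X : LEnd) (Y : REnd), X.Val S ∧ Y.Val S ∧ Compat2 X Y ∧ HX S Y X ∧ HY S X Y ∧
      Two S (vv Z D) X Y) := by
  have hDA : D ⊆ A := hD.1
  obtain ⟨X, hXV, hX1, hX2⟩ := left_end hC (D := cl col D k)
    (fun x hx => hDA (mem_cl.1 hx).1) (k := k) (fun x hx => (mem_cl.1 hx).2) hS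
  obtain ⟨Y, hYV, hY1, hY2⟩ := right_end hC (D := cl col D (k + 1))
    (fun x hx => hDA (mem_cl.1 hx).1) (k := k + 1) (fun x hx => (mem_cl.1 hx).2) hS
  have h2 := TwoCls_two hC hD hk h0 h1 hN hS hX1 hY1
  by_cases hsp : ∀ a b, ¬ (X = .n a ∧ Y = .n b)
  · right
    right
    exact ⟨X, Y, hXV, hYV, two_compat hC hD hN hk h0 h1 hS hX1 hY1 hX2 hY2 hsp,
      two_HX hC hD hS hY1 hX2, two_HY hC hD hS hX1 hY2, h2⟩
  · push Not at hsp
    obtain ⟨a, c, rfl, rfl⟩ := hsp
    by_cases hac : c ≤ a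
    · right
      right
      exact ⟨.n a, .n c, hXV, hYV, hac, trivial, trivial, h2⟩
    · have ha : ∀ b, (Z.bl b).Nonempty → (lamB Z (cl col D k) b ↔ b < a) :=
        fun b hb => hX1 b ((hS b).2 hb)
      have hc : ∀ b, (Z.bl b).Nonempty → (rhoB Z (cl col D (k + 1)) b ↔ c ≤ b) :=
        fun b hb => hY1 b ((hS b).2 hb)
      by_cases hT : ∃ T, IsT G A T ∧ Sep G col D k T
      · left
        exact ⟨cf_of_gap hC hD hN hk h0 h1 (by omega) ha hc, hT⟩
      · right
        left
        refine ⟨a, c, by omega, fun x hx => ?_⟩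
        have hx' := (hS x).1 hx
        have hv := two_val hC hD hk h0 h1 hN hx'
        rw [ha x hx', hc x hx'] at hv
        split_ifs with hxx
        · exact (hv.2.2.2 (by omega) (by omega)).2
            (fun T hTb hs => hT ⟨T, Z.isT _ _ hTb, hs⟩)
        · by_cases hxa : x < a
          · exact hv.2.1 hxa (by omega)
          · exact hv.2.2.1 hxa (by omega)

end Pool.Agent.H.MP_ebc13b_lc.h61b
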