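import Pool.Agent.H.MP_ebc13b_lc.h61b.L1.TwoVal
import Pool.Agent.H.MP_ebc13b_lc.h61b.L1.RightEnd

/-!
# Level 1: two-class sets, compatibility of the ends
-/

namespace Pool.Agent.H.MP_ebc13b_lc.h61b

open Pool.Agent.H.MP_ebc13b_lc.h46 Pool.Agent.H.MP_ebc13b_lc.h53

variable {α : Type*} [DecidableEq α] {G : SimpleGraph α} {A D : Finset α} {col : α → ZMod 3}
  {Z : ZLine G A col}

private theorem TwoSep_c1 (k : ZMod 3) : k + 1 ≠ k + 1 + 2 := by
  revert k
  decide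

private theorem TwoSep_c2 (k : ZMod 3) : k + 1 ≠ k + 1 + 1 := by
  revert k
  decide

private theorem TwoSep_c3 (k : ZMod 3) : k + 1 ≠ k := by
  revert k
  decide

private theorem TwoSep_c4 (k : ZMod 3) : k + 1 + 2 = k := by
  revert k
  decide

private theorem TwoSep_c5 (k : ZMod 3) : k + 1 + 1 + 1 = k := by
  revert k
  decide

private theorem TwoSep_c6 (a k : ZMod 3) (h : k + 1 = a + 1) : a = k := by
  revert a k
  decide

private theorem TwoSep_c7 (k : ZMod 3) : k + 2 ≠ k + 1 := by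
  revert k
  decide

private theorem TwoSep_c8 (k : ZMod 3) : k + 2 ≠ k := by
  revert k
  decide

private theorem TwoSep_notD (hD : Stab G A D) {u v : α} (huD : u ∈ D) (h : G.Adj u v) :
    v ∉ D := fun hv => hD.2 u huD v hv h

private theorem TwoSep_HX (hC : PC G A col) (hD : Stab G A D) {k : ZMod 3} {S : Sys} (hS : Blk S Z)
    {Y : REnd} (hY1 : ∀ b, S.ex b → (rhoB Z (cl col D (k + 1)) b ↔ rho Y b)) {i : ℤ}
    (hc : col (Z.h i) = k + 1) {u : α} (huD : u ∈ D) (hadj : G.Adj u (Z.h i)) :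
    S.ex (2 * i - 1) → rho Y (2 * i - 1) →
      ∀ x, (x = 2 * i - 3 ∨ x = 2 * i - 2) → S.ex x → rho Y x := by
  intro hex hr b hb hexb
  have hiD := TwoSep_notD hD huD hadj
  have hl : Z.lk (i - 1) := by
    have h1 := (hS _).1 hex
    have e : 2 * i - 1 = 2 * (i - 1) + 1 := by ring
    rw [e] at h1
    exact h1
  have ei : i - 1 + 1 = i := by ring
  have c1 : col (Z.h (i - 1)) = k := by
    have h1 := Z.col1 _ hl
    rw [ei, hc] at h1
    exact TwoSep_c6 _ _ h1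
  have c2 : col (Z.mid (i - 1)) = k + 2 := by
    rw [Z.colm _ hl, c1]
  obtain ⟨T₀, hT₀, hall⟩ := (hY1 _ hex).2 hr
  have e0 : T₀ = Z.Q (i - 1) := by
    apply Z.eq_Q
    have e : 2 * i - 1 = 2 * (i - 1) + 1 := by ring
    rw [← e]
    exact hT₀
  subst e0
  have iQ := Z.Q_T hl
  have hiQ : Z.h i ∈ Z.Q (i - 1) := by
    have h1 := Z.h1_mem_Q (i - 1)
    rw [ei] at h1
    exact h1
  -- elements of the class `k + 1`
  have hx1 : ∀ x ∈ D, col x = k + 1 → x ∉ Z.Q (i - 1) ∧ ¬ G.Adj x (Z.h (i - 1)) := by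
    intro x hxD hxk
    have hxQ : x ∉ Z.Q (i - 1) := by
      intro hxQ
      have h1 := hC.col_inj iQ hxQ hiQ (by rw [hxk, hc])
      exact hiD (h1 ▸ hxD)
    refine ⟨hxQ, ?_⟩
    intro hxa
    have h2 : vlt G col x (Z.Q (i - 1)) := (hall x (mem_cl.2 ⟨hxD, hxk⟩)).resolve_left hxQ
    have h3 : G.Adj x (Z.mid (i - 1)) :=
      hC.lt_adj iQ h2 (Z.mid_mem_Q _) (by rw [c2, hxk, z3_11])
    have h4 := hC.nb_unique iQ (hD.1 hxD) hxQ (Z.mid_mem_Q _) (Z.h_mem_Q _) h3 hxa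
    rw [h4, c1] at c2
    exact TwoSep_c8 k c2.symm
  obtain ⟨T, hT⟩ := (hS b).1 hexb
  have iT := Z.isT _ _ hT
  have hhT : Z.h (i - 1) ∈ T := Z.mem' hT (by unfold inS; omega)
  refine (hY1 b hexb).1 ⟨T, hT, ?_⟩
  intro x hx
  obtain ⟨hxD, hxk⟩ := mem_cl.1 hx
  obtain ⟨_, hxn⟩ := hx1 x hxD hxk
  right
  have hxT : x ∉ T := by
    intro hxT
    apply hxn
    apply iT.adj hxT hhT
    intro e
    rw [← e, hxk] at c1
    exact TwoSep_c3 k c1
  apply hC.lt_of_not_gt iT (hD.1 hxD) hxT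
  intro hg
  apply hxn
  exact hC.gt_adj iT hg hhT (by rw [c1, hxk, TwoSep_c4])

private theorem TwoSep_HY (hC : PC G A col) (hD : Stab G A D) {k : ZMod 3} {S : Sys} (hS : Blk S Z)
    {X : LEnd} (hX1 : ∀ b, S.ex b → (lamB Z (cl col D k) b ↔ lam X b)) {j : ℤ}
    (hc : col (Z.h j) = k) {u : α} (huD : u ∈ D) (hadj : G.Adj u (Z.h j)) :
    S.ex (2 * j + 1) → lam X (2 * j + 1) →
      ∀ x, (x = 2 * j + 2 ∨ x = 2 * j + 3) → S.ex x → lam X x := by
  intro hex hr b hb hexb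
  have hiD := TwoSep_notD hD huD hadj
  have hl : Z.lk j := (hS _).1 hex
  have c1 : col (Z.h (j + 1)) = k + 1 := by rw [Z.col1 _ hl, hc]
  have c2 : col (Z.mid j) = k + 2 := by rw [Z.colm _ hl, hc]
  obtain ⟨T₀, hT₀, hall⟩ := (hX1 _ hex).2 hr
  have e0 : T₀ = Z.Q j := Z.eq_Q hT₀
  subst e0
  have iQ := Z.Q_T hl
  have hx1 : ∀ x ∈ D, col x = k → x ∉ Z.Q j ∧ ¬ G.Adj x (Z.h (j + 1)) := by
    intro x hxD hxk
    have hxQ : x ∉ Z.Q j := by
      intro hxQ
      have h1 := hC.col_inj iQ hxQ (Z.h_mem_Q j) (by rw [hxk, hc])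
      exact hiD (h1 ▸ hxD)
    refine ⟨hxQ, ?_⟩
    intro hxa
    have h2 : vgt G col x (Z.Q j) := (hall x (mem_cl.2 ⟨hxD, hxk⟩)).resolve_left hxQ
    have h3 : G.Adj x (Z.mid j) := hC.gt_adj iQ h2 (Z.mid_mem_Q _) (by rw [c2, hxk])
    have h4 := hC.nb_unique iQ (hD.1 hxD) hxQ (Z.mid_mem_Q _) (Z.h1_mem_Q _) h3 hxa
    rw [h4, c1] at c2
    exact TwoSep_c7 k c2.symm
  obtain ⟨T, hT⟩ := (hS b).1 hexb
  have iT := Z.isT _ _ hT
  have hhT : Z.h (j + 1) ∈ T := Z.mem' hT (by unfold inS; omega)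
  refine (hX1 b hexb).1 ⟨T, hT, ?_⟩
  intro x hx
  obtain ⟨hxD, hxk⟩ := mem_cl.1 hx
  obtain ⟨_, hxn⟩ := hx1 x hxD hxk
  right
  have hxT : x ∉ T := by
    intro hxT
    apply hxn
    apply iT.adj hxT hhT
    intro e
    rw [← e, hxk] at c1
    exact TwoSep_c3 k c1.symm
  apply hC.gt_of_not_lt iT (hD.1 hxD) hxT
  intro hg
  apply hxn
  exact hC.lt_adj iT hg hhT (by rw [c1, hxk])

/-- If `u ∈ D ∩ T`, `T ∈ bl b`, then `lamB` of the class `k` and `rhoB` of the class `k + 1` hold for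
`b`, by the triangle `T`: `two_hit_left` and `nic_left`, or `two_hit_right` and `nic_right`. -/
theorem hit_lam_rho (hC : PC G A col) (hD : Stab G A D) (hN : NIC G A D) {k : ZMod 3}
    (hk : ∀ x ∈ D, col x = k ∨ col x = k + 1) (h0 : ∃ x ∈ D, col x = k)
    (h1 : ∃ x ∈ D, col x = k + 1) {b : ℤ} {T : Finset α} (hT : T ∈ Z.bl b) {u : α} (hu : u ∈ T)
    (huD : u ∈ D) : lamB Z (cl col D k) b ∧ rhoB Z (cl col D (k + 1)) b := by
  have iT := Z.isT _ _ hT
  rcases hk u huD with huk | huk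
  · refine ⟨⟨T, hT, ?_⟩, T, hT, ?_⟩
    · intro x hx
      obtain ⟨hxD, hxk⟩ := mem_cl.1 hx
      by_cases hxu : x = u
      · left
        rw [hxu]
        exact hu
      · exact Or.inr (nic_left hC hD hN h1 iT hu huD huk x hxD hxk hxu)
    · intro x hx
      obtain ⟨hxD, hxk⟩ := mem_cl.1 hx
      exact Or.inr (two_hit_left hC hD iT hu huD huk x hxD hxk)
  · refine ⟨⟨T, hT, ?_⟩, T, hT, ?_⟩
    · intro x hx
      obtain ⟨hxD, hxk⟩ := mem_cl.1 hx
      exact Or.inr (two_hit_right hC hD iT hu huD huk x hxD hxk)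
    · intro x hx
      obtain ⟨hxD, hxk⟩ := mem_cl.1 hx
      by_cases hxu : x = u
      · left
        rw [hxu]
        exact hu
      · exact Or.inr (nic_right hC hD hN h0 iT hu huD huk x hxD hxk hxu)

/-- If the two ends are normal and `a < c`, no triangle meets `D` (`hit_lam_rho`, `Z.ex`). -/
theorem cf_of_gap (hC : PC G A col) (hD : Stab G A D) (hN : NIC G A D) {k : ZMod 3}
    (hk : ∀ x ∈ D, col x = k ∨ col x = k + 1) (h0 : ∃ x ∈ D, col x = k)
    (h1 : ∃ x ∈ D, col x = k + 1) {a c : ℤ} (hac : a < c)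
    (ha : ∀ b, (Z.bl b).Nonempty → (lamB Z (cl col D k) b ↔ b < a))
    (hc : ∀ b, (Z.bl b).Nonempty → (rhoB Z (cl col D (k + 1)) b ↔ c ≤ b)) : CF G A D := by
  intro T iT
  obtain ⟨b, hT⟩ := Z.ex T iT
  rw [Finset.disjoint_left]
  intro u hu huD
  obtain ⟨e1, e2⟩ := hit_lam_rho hC hD hN hk h0 h1 hT hu huD
  have e3 := (ha b ⟨T, hT⟩).1 e1
  have e4 := (hc b ⟨T, hT⟩).1 e2
  omega

/-- **Relative position of the ends** for a two-class set, if at least one of them is special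
(`LInfo` for the class `k`, `RInfo` for the class `k + 1`).  All statements follow from
`hit_lam_rho`: the block of an element of `D` in a triangle satisfies `lam X` and `rho Y`.
* `U i`: `mid i ∈ D` is in the triangle `Q i` of the block `2 * i + 1`; `col (h i) = k + 1`.
* `E j` on the left: `u ∈ D` is in a triangle of the block `2 * j`; `col (h j) = k + 1`.
* `L l`: `mid l ∈ D` is in the triangle `Q l` of the block `2 * l + 1`; `col (h l) = k + 2`,
  `col (h (l + 1)) = k`.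
* `E j'` on the right: the block `2 * j'`; `col (h j') = k` (`= (k + 1) + 2`).

So:
* `U i`, `n b`: `rho` at `2 * i + 1`: `b ≤ 2 * i + 1`.  `E j`, `n b`: `b ≤ 2 * j`.
* `n a`, `L l`: `lam` at `2 * l + 1`: `2 * l + 1 < a`.  `n a`, `E j`: `2 * j < a`.
* `U i`, `L l`: `rho (L l)` at `2 * i + 1`: `l ≤ i + 1` and `2 * i + 1 ≠ 2 * l + 3`; `l ≠ i` since
  `col (h i) = k + 1 ≠ k + 2`.  So `l = i + 1` or `l ≤ i - 2`.
* `U i`, `E j`: `rho (E j)` at `2 * i + 1`: `2 * j - 1 < 2 * i + 1` and `2 * i + 1 ≠ 2 * j + 1`.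
* `E j`, `L l`: `rho (L l)` at `2 * j`: `2 * l - 2 < 2 * j`, `2 * j ≠ 2 * l + 2`; `j ≠ l` since
  `col (h j) = k + 1`, `col (h l) = k + 2`.  So `l + 2 ≤ j`.
* `E j`, `E j'`: `2 * j' - 1 < 2 * j`, and `j ≠ j'` by the colours. -/
theorem two_compat (hC : PC G A col) (hD : Stab G A D) (hN : NIC G A D) {k : ZMod 3}
    (hk : ∀ x ∈ D, col x = k ∨ col x = k + 1) (h0 : ∃ x ∈ D, col x = k)
    (h1 : ∃ x ∈ D, col x = k + 1) {S : Sys} (hS : Blk S Z) {X : LEnd} {Y : REnd}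
    (hX1 : ∀ b, S.ex b → (lamB Z (cl col D k) b ↔ lam X b))
    (hY1 : ∀ b, S.ex b → (rhoB Z (cl col D (k + 1)) b ↔ rho Y b))
    (hX2 : LInfo Z (cl col D k) k X) (hY2 : RInfo Z (cl col D (k + 1)) (k + 1) Y)
    (hsp : (∀ a b, ¬ (X = .n a ∧ Y = .n b))) : Compat2 X Y := by
  have key : ∀ b, ∀ T ∈ Z.bl b, ∀ u ∈ T, u ∈ D → lam X b ∧ rho Y b := by
    intro b T hT u hu huD
    obtain ⟨e1, e2⟩ := hit_lam_rho hC hD hN hk h0 h1 hT hu huD
    have e3 : S.ex b := (hS b).2 ⟨T, hT⟩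
    exact ⟨(hX1 b e3).1 e1, (hY1 b e3).1 e2⟩
  cases X with
  | n a =>
    cases Y with
    | n b => exact absurd ⟨rfl, rfl⟩ (hsp a b)
    | E j =>
      obtain ⟨_, T, hT, u, hu, huD, _⟩ := hY2
      have e : 2 * j < a := (key _ T hT u hu (mem_cl.1 huD).1).1
      show 2 * j + 1 ≤ a
      omega
    | L l =>
      obtain ⟨hl, hm, _, _⟩ := hY2
      have e : 2 * l + 1 < a :=
        (key _ _ (Z.Q_mem hl) _ (Z.mid_mem_Q l) (mem_cl.1 hm).1).1
      show 2 * l + 2 ≤ a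
      omega
  | E j =>
    obtain ⟨hcj, T, hT, u, hu, huD, _⟩ := hX2
    have e := (key _ T hT u hu (mem_cl.1 huD).1).2
    cases Y with
    | n b =>
      have e' : b ≤ 2 * j := e
      exact e'
    | E j' =>
      have e' : 2 * j' - 1 < 2 * j ∧ 2 * j ≠ 2 * j' + 1 := e
      have hne : j ≠ j' := by
        intro h
        have h5 := hY2.1
        rw [← h, hcj] at h5
        exact TwoSep_c1 k h5
      show j' + 1 ≤ j
      omega
    | L l =>
      have e' : 2 * l - 2 < 2 * j ∧ 2 * j ≠ 2 * l + 2 ∧ 2 * j ≠ 2 * l + 3 := e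
      have hne : j ≠ l := by
        intro h
        have h5 := hY2.2.2.2
        rw [← h, hcj] at h5
        exact TwoSep_c2 k h5
      show l + 2 ≤ j
      omega
  | U i =>
    obtain ⟨hl, hm, _, hci⟩ := hX2
    have e := (key _ _ (Z.Q_mem hl) _ (Z.mid_mem_Q i) (mem_cl.1 hm).1).2
    cases Y with
    | n b =>
      have e' : b ≤ 2 * i + 1 := e
      exact e'
    | E j =>
      have e' : 2 * j - 1 < 2 * i + 1 ∧ 2 * i + 1 ≠ 2 * j + 1 := e
      show j ≤ i - 1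
      omega
    | L l =>
      have e' : 2 * l - 2 < 2 * i + 1 ∧ 2 * i + 1 ≠ 2 * l + 2 ∧ 2 * i + 1 ≠ 2 * l + 3 := e
      have hne : i ≠ l := by
        intro h
        have h5 := hY2.2.2.2
        rw [← h, hci] at h5
        exact TwoSep_c2 k h5
      show l ≤ i - 2 ∨ l = i + 1
      omega

/-- `HX`: let `X` be `U i` or `E i`, so `col (h i) = k + 1` and some `u ∈ D` of colour `k` is adjacent
to `h i` (`mid i`, or the vertex `u` of a triangle of the block `2 * i`), so `h i ∉ D`.  Suppose that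
the block `2 * i - 1` exists, i.e. `Q (i - 1) = {h (i - 1), mid (i - 1), h i}`, of colours `k`,
`k + 2`, `k + 1`, and that `rhoB` of the class `k + 1` holds for it.  The elements `x` of the class
`k + 1` are not in `Q (i - 1)`, so they are smaller and adjacent to `mid (i - 1)`, and not adjacent to
`h (i - 1)`.  Let `T` be a triangle of the block `2 * i - 3` or `2 * i - 2`; it contains `h (i - 1)`.
`x ∉ T` (otherwise `x` is adjacent to `h (i - 1)`, their colours differ), and `x` does not see the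
vertex `h (i - 1)` of colour `k` of `T`, so `x < T`.  So `rhoB` holds for these blocks. -/
theorem two_HX (hC : PC G A col) (hD : Stab G A D) {k : ZMod 3} {S : Sys} (hS : Blk S Z)
    {X : LEnd} {Y : REnd}
    (hY1 : ∀ b, S.ex b → (rhoB Z (cl col D (k + 1)) b ↔ rho Y b))
    (hX2 : LInfo Z (cl col D k) k X) : HX S Y X := by
  cases X with
  | n a => trivial
  | E j =>
    obtain ⟨hc, T, hT, u, hu, huD, _⟩ := hX2
    have hjT : Z.h j ∈ T := Z.mem' hT (Or.inr (Or.inl rfl))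
    have hne : u ≠ Z.h j := by
      intro e
      have h5 := (mem_cl.1 huD).2
      rw [e, hc] at h5
      exact TwoSep_c3 k h5
    exact TwoSep_HX hC hD hS hY1 hc (mem_cl.1 huD).1 ((Z.isT _ _ hT).adj hu hjT hne)
  | U i =>
    obtain ⟨hl, hm, _, hc⟩ := hX2
    refine TwoSep_HX hC hD hS hY1 hc (mem_cl.1 hm).1 ?_
    exact (Z.Q_T hl).adj (Z.mid_mem_Q i) (Z.h_mem_Q i) (Z.mid_ne_h hl (Z.lk_re hl))

/-- `HY`: mirror image of `two_HX` (directly: `Y` is `L i` or `E j`; put `j = l + 1` resp. `j`.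
`col (h j) = k`, some `u ∈ D` of colour `k + 1` is adjacent to `h j`; `Q j = {h j, mid j, h (j + 1)}`
of colours `k`, `k + 2`, `k + 1`; if `lamB` of the class `k` holds for `2 * j + 1`, the elements `x`
of the class `k` are larger than `Q j` and adjacent to `mid j`, not to `h (j + 1)`, so they are larger
than the triangles of the blocks `2 * j + 2`, `2 * j + 3`). -/
theorem two_HY (hC : PC G A col) (hD : Stab G A D) {k : ZMod 3} {S : Sys} (hS : Blk S Z)
    {X : LEnd} {Y : REnd}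
    (hX1 : ∀ b, S.ex b → (lamB Z (cl col D k) b ↔ lam X b))
    (hY2 : RInfo Z (cl col D (k + 1)) (k + 1) Y) : HY S X Y := by
  cases Y with
  | n a => trivial
  | E j =>
    obtain ⟨hc, T, hT, u, hu, huD, _⟩ := hY2
    have hjT : Z.h j ∈ T := Z.mem' hT (Or.inr (Or.inl rfl))
    have hc' : col (Z.h j) = k := by rw [hc]; exact TwoSep_c4 k
    have hne : u ≠ Z.h j := by
      intro e
      have h5 := (mem_cl.1 huD).2
      rw [e, hc'] at h5
      exact TwoSep_c3 k h5.symm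
    exact TwoSep_HY hC hD hS hX1 hc' (mem_cl.1 huD).1 ((Z.isT _ _ hT).adj hu hjT hne)
  | L l =>
    obtain ⟨hl, hm, _, hc⟩ := hY2
    have hc' : col (Z.h (l + 1)) = k := by
      rw [Z.col1 l hl, hc]
      exact TwoSep_c5 k
    have key := TwoSep_HY hC hD hS hX1 hc' (mem_cl.1 hm).1
      ((Z.Q_T hl).adj (Z.mid_mem_Q l) (Z.h1_mem_Q l) (Z.mid_ne_h hl (Z.lk_re1 hl)))
    intro h1 h2 x hx hex
    have e1 : 2 * (l + 1) + 1 = 2 * l + 3 := by ring
    rw [e1] at key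
    exact key h1 h2 x (by omega) hex

end Pool.Agent.H.MP_ebc13b_lc.h61b
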