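import Pool.Agent.H.MP_ebc13b_lc.h61b.L1.Vals

/-!
# Level 1: values of the rows of stable sets contained in two classes
-/

namespace Pool.Agent.H.MP_ebc13b_lc.h61b

open Pool.Agent.H.MP_ebc13b_lc.h46 Pool.Agent.H.MP_ebc13b_lc.h53

variable {α : Type*} [DecidableEq α] {G : SimpleGraph α} {A D : Finset α} {col : α → ZMod 3}
  {Z : ZLine G A col}

/-- the elements of `D` of colour `k` -/
def cl (col : α → ZMod 3) (D : Finset α) (k : ZMod 3) : Finset α := D.filter (fun x => col x = k)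

theorem mem_cl {k : ZMod 3} {x : α} : x ∈ cl col D k ↔ x ∈ D ∧ col x = k := by
  unfold cl
  rw [Finset.mem_filter]

private theorem TwoVal_z (k : ZMod 3) : k + 1 + 2 = k ∧ k + 2 + 1 = k ∧ k + 1 + 1 = k + 2 ∧
    k ≠ k + 1 ∧ k ≠ k + 2 ∧ k + 1 ≠ k + 2 := by
  revert k
  decide

private theorem TwoVal_three (a k : ZMod 3) : a = k ∨ a = k + 1 ∨ a = k + 2 := by
  revert a k
  decide

/-- Let `D` be stable with nonempty classes `k` and `k + 1`, and `u ∈ D ∩ T` of colour `k`.  Then all
elements `x` of the class `k + 1` are smaller than `T`: `x ∉ T` and `x` is not adjacent to `u`, so it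
sees the vertex of colour `k + 2` of `T`.  -/
theorem two_hit_left (hC : PC G A col) (hD : Stab G A D) {k : ZMod 3} {T : Finset α}
    (hT : IsT G A T) {u : α} (hu : u ∈ T) (huD : u ∈ D) (huk : col u = k) :
    ∀ x ∈ D, col x = k + 1 → vlt G col x T := by
  obtain ⟨z1, z2, z3, z4, z5, z6⟩ := TwoVal_z k
  intro x hx hxc
  have hne : x ≠ u := by
    rintro rfl
    exact z4 (huk.symm.trans hxc)
  have hxT : x ∉ T := fun h => hD.2 x hx u huD (hT.adj h hu hne)
  refine hC.lt_of_not_gt hT (hD.1 hx) hxT fun hg => ?_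
  refine hD.2 x hx u huD (hC.gt_adj hT hg hu ?_)
  rw [hxc, z1, huk]

/-- the symmetric statement: `u ∈ D ∩ T` of colour `k + 1`; all elements of the class `k` are larger
than `T` -/
theorem two_hit_right (hC : PC G A col) (hD : Stab G A D) {k : ZMod 3} {T : Finset α}
    (hT : IsT G A T) {u : α} (hu : u ∈ T) (huD : u ∈ D) (huk : col u = k + 1) :
    ∀ x ∈ D, col x = k → vgt G col x T := by
  obtain ⟨z1, z2, z3, z4, z5, z6⟩ := TwoVal_z k
  intro x hx hxc
  have hne : x ≠ u := by
    rintro rfl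
    exact z4 (hxc.symm.trans huk)
  have hxT : x ∉ T := fun h => hD.2 x hx u huD (hT.adj h hu hne)
  refine hC.gt_of_not_lt hT (hD.1 hx) hxT fun hg => ?_
  refine hD.2 x hx u huD (hC.lt_adj hT hg hu ?_)
  rw [hxc, huk]

/-- `NIC` and `u ∈ D ∩ T` of colour `k`, the class `k + 1` nonempty: all other elements of the class `k`
are larger than `T`.  The vertex of colour `k + 2` of `T` is in `N(D \ {u})` by `two_hit_left`
(`PC.lt_adj`), so by `NIC` the vertex of colour `k + 1` is not; so no `x ≠ u` of the class `k` (it is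
outside `T`) is smaller than `T`. -/
theorem nic_left (hC : PC G A col) (hD : Stab G A D) (hN : NIC G A D) {k : ZMod 3}
    (h1 : ∃ x ∈ D, col x = k + 1) {T : Finset α} (hT : IsT G A T) {u : α} (hu : u ∈ T)
    (huD : u ∈ D) (huk : col u = k) : ∀ x ∈ D, col x = k → x ≠ u → vgt G col x T := by
  obtain ⟨z1, z2, z3, z4, z5, z6⟩ := TwoVal_z k
  intro x hx hxc hxu
  obtain ⟨y, hy, hyc⟩ := h1
  obtain ⟨w, hw, hwu, hwN⟩ := hN T hT u hu huD
  have hylt := two_hit_left hC hD hT hu huD huk y hy hyc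
  have hyu : y ≠ u := by
    rintro rfl
    exact z4 (huk.symm.trans hyc)
  have hwc : col w = k + 1 := by
    rcases TwoVal_three (col w) k with h | h | h
    · exact absurd (hC.col_inj hT hw hu (h.trans huk.symm)) hwu
    · exact h
    · exfalso
      refine hwN (mem_nb.2 ⟨hT.1 hw, y, Finset.mem_erase.2 ⟨hyu, hy⟩, ?_⟩)
      refine (hC.lt_adj hT hylt hw ?_).symm
      rw [h, hyc, z3]
  have hxT : x ∉ T := fun h => hxu (hC.col_inj hT h hu (hxc.trans huk.symm))
  refine hC.gt_of_not_lt hT (hD.1 hx) hxT fun hl => ?_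
  refine hwN (mem_nb.2 ⟨hT.1 hw, x, Finset.mem_erase.2 ⟨hxu, hx⟩, ?_⟩)
  refine (hC.lt_adj hT hl hw ?_).symm
  rw [hwc, hxc]

/-- symmetric: `u ∈ D ∩ T` of colour `k + 1`, the class `k` nonempty: all other elements of the class
`k + 1` are smaller than `T` -/
theorem nic_right (hC : PC G A col) (hD : Stab G A D) (hN : NIC G A D) {k : ZMod 3}
    (h0 : ∃ x ∈ D, col x = k) {T : Finset α} (hT : IsT G A T) {u : α} (hu : u ∈ T)
    (huD : u ∈ D) (huk : col u = k + 1) : ∀ x ∈ D, col x = k + 1 → x ≠ u → vlt G col x T := by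
  obtain ⟨z1, z2, z3, z4, z5, z6⟩ := TwoVal_z k
  intro x hx hxc hxu
  obtain ⟨y, hy, hyc⟩ := h0
  obtain ⟨w, hw, hwu, hwN⟩ := hN T hT u hu huD
  have hygt := two_hit_right hC hD hT hu huD huk y hy hyc
  have hyu : y ≠ u := by
    rintro rfl
    exact z4 (hyc.symm.trans huk)
  have hwc : col w = k := by
    rcases TwoVal_three (col w) k with h | h | h
    · exact h
    · exact absurd (hC.col_inj hT hw hu (h.trans huk.symm)) hwu
    · exfalso
      refine hwN (mem_nb.2 ⟨hT.1 hw, y, Finset.mem_erase.2 ⟨hyu, hy⟩, ?_⟩)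
      refine (hC.gt_adj hT hygt hw ?_).symm
      rw [h, hyc]
  have hxT : x ∉ T := fun h => hxu (hC.col_inj hT h hu (hxc.trans huk.symm))
  refine hC.lt_of_not_gt hT (hD.1 hx) hxT fun hl => ?_
  refine hwN (mem_nb.2 ⟨hT.1 hw, x, Finset.mem_erase.2 ⟨hxu, hx⟩, ?_⟩)
  refine (hC.gt_adj hT hl hw ?_).symm
  rw [hwc, hxc, z1]

/-- If both `lamB` (class `k`) and `rhoB` (class `k + 1`) hold for a block, one triangle of the block
does for both.

If the block is odd it has only one triangle.  Let `b = 2 * j`, `T₁` a triangle for `lamB` and `T₂` a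
triangle for `rhoB`, both contain `h j`.
* `col (h j) = k + 2`: every `x` of the class `k` is adjacent to `h j` (if `x ∈ T₁` as the colours
  differ, if `x > T₁` because `h j` is the vertex of colour `k + 2`), so `x ∈ T₂` or `x > T₂`: `T₂`.
* `col (h j) = k`: if no element of the class `k + 1` is adjacent to `h j`, take `T₁`: every `x` of
  the class `k + 1` is outside `T₁` (otherwise it is adjacent to `h j`) and does not see the vertex
  `h j` of colour `k`, so it sees the vertex of colour `k + 2`: `x < T₁`.  If `x₀` of the class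
  `k + 1` is adjacent to `h j`, then `x₀ ∈ T₂` (otherwise `x₀ < T₂` sees the vertex of colour
  `k + 2`, a second neighbour), and `T₂` does by `two_hit_right`.
* `col (h j) = k + 1`: symmetric: if no element of the class `k` is adjacent to `h j`, take `T₂`;
  otherwise the element `x₀` is in `T₁`, and `T₁` does by `two_hit_left`. -/
theorem both_lam_rho (hC : PC G A col) (hD : Stab G A D) {k : ZMod 3} {b : ℤ}
    (h1 : lamB Z (cl col D k) b) (h2 : rhoB Z (cl col D (k + 1)) b) :
    ∃ T ∈ Z.bl b, (∀ x ∈ D, col x = k → x ∈ T ∨ vgt G col x T) ∧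
      (∀ x ∈ D, col x = k + 1 → x ∈ T ∨ vlt G col x T) := by
  obtain ⟨z1, z2, z3, z4, z5, z6⟩ := TwoVal_z k
  obtain ⟨T₁, hT₁b, hl⟩ := h1
  obtain ⟨T₂, hT₂b, hr⟩ := h2
  have hl' : ∀ x ∈ D, col x = k → x ∈ T₁ ∨ vgt G col x T₁ := fun x hx hc =>
    hl x (mem_cl.2 ⟨hx, hc⟩)
  have hr' : ∀ x ∈ D, col x = k + 1 → x ∈ T₂ ∨ vlt G col x T₂ := fun x hx hc =>
    hr x (mem_cl.2 ⟨hx, hc⟩)
  rcases Int.even_or_odd' b with ⟨j, hj | hj⟩
  · have hT₁ := Z.isT _ _ hT₁b
    have hT₂ := Z.isT _ _ hT₂b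
    have hv₁ : Z.h j ∈ T₁ := Z.mem j b T₁ (Or.inr (Or.inl hj)) hT₁b
    have hv₂ : Z.h j ∈ T₂ := Z.mem j b T₂ (Or.inr (Or.inl hj)) hT₂b
    generalize Z.h j = v at hv₁ hv₂
    rcases TwoVal_three (col v) k with hv | hv | hv
    · by_cases hex : ∃ x ∈ D, col x = k + 1 ∧ G.Adj x v
      · obtain ⟨x₀, hx₀, hc₀, ha₀⟩ := hex
        have hx₀T : x₀ ∈ T₂ := by
          rcases hr' x₀ hx₀ hc₀ with h | h
          · exact h
          · exfalso
            obtain ⟨hn, u, hu, hxu, huc⟩ := h
            have := hC.nb_unique hT₂ (hD.1 hx₀) hn hu hv₂ hxu ha₀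
            subst this
            rw [hv, hc₀, z3] at huc
            exact z5 huc
        exact ⟨T₂, hT₂b, fun x hx hc => Or.inr (two_hit_right hC hD hT₂ hx₀T hx₀ hc₀ x hx hc), hr'⟩
      · refine ⟨T₁, hT₁b, hl', fun x hx hc => Or.inr ?_⟩
        have hnadj : ¬ G.Adj x v := fun h => hex ⟨x, hx, hc, h⟩
        have hne : x ≠ v := by
          rintro rfl
          exact z4 (hv.symm.trans hc)
        have hxT : x ∉ T₁ := fun h => hnadj (hT₁.adj h hv₁ hne)
        refine hC.lt_of_not_gt hT₁ (hD.1 hx) hxT fun hg => hnadj (hC.gt_adj hT₁ hg hv₁ ?_)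
        rw [hv, hc, z1]
    · by_cases hex : ∃ x ∈ D, col x = k ∧ G.Adj x v
      · obtain ⟨x₀, hx₀, hc₀, ha₀⟩ := hex
        have hx₀T : x₀ ∈ T₁ := by
          rcases hl' x₀ hx₀ hc₀ with h | h
          · exact h
          · exfalso
            obtain ⟨hn, u, hu, hxu, huc⟩ := h
            have := hC.nb_unique hT₁ (hD.1 hx₀) hn hu hv₁ hxu ha₀
            subst this
            rw [hv, hc₀] at huc
            exact z6 huc
        exact ⟨T₁, hT₁b, hl', fun x hx hc => Or.inr (two_hit_left hC hD hT₁ hx₀T hx₀ hc₀ x hx hc)⟩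
      · refine ⟨T₂, hT₂b, fun x hx hc => Or.inr ?_, hr'⟩
        have hnadj : ¬ G.Adj x v := fun h => hex ⟨x, hx, hc, h⟩
        have hne : x ≠ v := by
          rintro rfl
          exact z4 (hc.symm.trans hv)
        have hxT : x ∉ T₂ := fun h => hnadj (hT₂.adj h hv₂ hne)
        refine hC.gt_of_not_lt hT₂ (hD.1 hx) hxT fun hg => hnadj (hC.lt_adj hT₂ hg hv₂ ?_)
        rw [hv, hc]
    · refine ⟨T₂, hT₂b, fun x hx hc => ?_, hr'⟩
      have hne : x ≠ v := by
        rintro rfl
        exact z5 (hc.symm.trans hv)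
      have hadj : G.Adj x v := by
        rcases hl' x hx hc with h | h
        · exact hT₁.adj h hv₁ hne
        · refine hC.gt_adj hT₁ h hv₁ ?_
          rw [hv, hc]
      by_cases hxT : x ∈ T₂
      · exact Or.inl hxT
      · exact Or.inr ⟨hxT, v, hv₂, hadj, by rw [hv, hc]⟩
  · have e : T₁ = T₂ := by
      subst hj
      rw [Z.eqQ j T₁ hT₁b, Z.eqQ j T₂ hT₂b]
    subst e
    exact ⟨T₁, hT₁b, hl', hr'⟩

/-- **Values of a two-class row.**  Let `a` be `lamB` for the class `k`, and `c` be `rhoB` for the class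
`k + 1`.

Both: take `T` from `both_lam_rho`: if `T` meets `D` use `MM_hit`, otherwise `MM_two`: `M_D(T) = 1`.

If not both hold, all triangles `T` of the block are disjoint from `D`: if `u ∈ T ∩ D` has colour
`k`, then `c` holds by `two_hit_left` and `a` holds by `nic_left`; if it has colour `k + 1`, then `a`
holds by `two_hit_right` and `c` by `nic_right`.  So `MM_two` applies to all triangles of the block:
* only `a`: the triangle for `a` has value `M = 2`, and no triangle has value `1` (for it the class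
  `k + 1` would be smaller).
* only `c`: symmetric.
* none: all triangles have `M ∈ {2, 3}`, and `M = 2` only if the triangle separates the classes. -/
theorem two_val (hC : PC G A col) (hD : Stab G A D) {k : ZMod 3}
    (hk : ∀ x ∈ D, col x = k ∨ col x = k + 1) (h0 : ∃ x ∈ D, col x = k)
    (h1 : ∃ x ∈ D, col x = k + 1) (hN : NIC G A D) {b : ℤ} (hb : (Z.bl b).Nonempty) :
    (lamB Z (cl col D k) b → rhoB Z (cl col D (k + 1)) b → vv Z D b = 0) ∧
    (lamB Z (cl col D k) b → ¬ rhoB Z (cl col D (k + 1)) b → vv Z D b = 1) ∧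
    (¬ lamB Z (cl col D k) b → rhoB Z (cl col D (k + 1)) b → vv Z D b = 1) ∧
    (¬ lamB Z (cl col D k) b → ¬ rhoB Z (cl col D (k + 1)) b →
      (vv Z D b = 1 ∨ vv Z D b = 2) ∧ ((∀ T ∈ Z.bl b, ¬ Sep G col D k T) → vv Z D b = 2)) := by
  have hne : D.Nonempty := h0.imp fun _ h => h.1
  -- if not both hold, the triangles of the block are disjoint from `D`
  have hdis : ¬ (lamB Z (cl col D k) b ∧ rhoB Z (cl col D (k + 1)) b) →
      ∀ T ∈ Z.bl b, Disjoint T D := by
    intro hnb T hTb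
    have hT := Z.isT _ _ hTb
    rw [Finset.disjoint_left]
    intro u hu huD
    apply hnb
    rcases hk u huD with hc | hc
    · constructor
      · refine ⟨T, hTb, fun x hx => ?_⟩
        obtain ⟨hxD, hxc⟩ := mem_cl.1 hx
        by_cases hxu : x = u
        · left
          rw [hxu]
          exact hu
        · exact Or.inr (nic_left hC hD hN h1 hT hu huD hc x hxD hxc hxu)
      · refine ⟨T, hTb, fun x hx => ?_⟩
        obtain ⟨hxD, hxc⟩ := mem_cl.1 hx
        exact Or.inr (two_hit_left hC hD hT hu huD hc x hxD hxc)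
    · constructor
      · refine ⟨T, hTb, fun x hx => ?_⟩
        obtain ⟨hxD, hxc⟩ := mem_cl.1 hx
        exact Or.inr (two_hit_right hC hD hT hu huD hc x hxD hxc)
      · refine ⟨T, hTb, fun x hx => ?_⟩
        obtain ⟨hxD, hxc⟩ := mem_cl.1 hx
        by_cases hxu : x = u
        · left
          rw [hxu]
          exact hu
        · exact Or.inr (nic_right hC hD hN h0 hT hu huD hc x hxD hxc hxu)
  have mkl : ∀ T ∈ Z.bl b, (∀ x ∈ D, col x = k → vgt G col x T) → lamB Z (cl col D k) b :=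
    fun T hT h => ⟨T, hT, fun x hx => Or.inr (h x (mem_cl.1 hx).1 (mem_cl.1 hx).2)⟩
  have mkr : ∀ T ∈ Z.bl b, (∀ x ∈ D, col x = k + 1 → vlt G col x T) →
      rhoB Z (cl col D (k + 1)) b :=
    fun T hT h => ⟨T, hT, fun x hx => Or.inr (h x (mem_cl.1 hx).1 (mem_cl.1 hx).2)⟩
  -- lower bound if not both hold
  have hlow : ¬ (lamB Z (cl col D k) b ∧ rhoB Z (cl col D (k + 1)) b) →
      ∀ T ∈ Z.bl b, ((1 : ℕ) : ℤ) + 1 ≤ MM G A D T := by
    intro hnb T hTb
    obtain ⟨m1, m2, m3, m4⟩ := MM_two hC hD.1 hk h0 h1 (Z.isT _ _ hTb) (hdis hnb T hTb)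
    by_cases ha : ∀ x ∈ D, col x = k → vgt G col x T
    · by_cases hc : ∀ x ∈ D, col x = k + 1 → vlt G col x T
      · exact absurd ⟨mkl T hTb ha, mkr T hTb hc⟩ hnb
      · rw [m2 ha hc]
        norm_num
    · by_cases hc : ∀ x ∈ D, col x = k + 1 → vlt G col x T
      · rw [m3 ha hc]
        norm_num
      · obtain ⟨m5, m6⟩ := m4 ha hc
        by_cases hs : Sep G col D k T
        · rw [m5 hs]
          norm_num
        · rw [m6 hs]
          norm_num
  refine ⟨?_, ?_, ?_, ?_⟩
  · intro ha hc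
    obtain ⟨T, hTb, hl, hr⟩ := both_lam_rho hC hD ha hc
    have hT := Z.isT _ _ hTb
    refine vv_eq hC hD hne ⟨T, hTb, ?_⟩ fun T' hT' => ?_
    · by_cases hm : ∃ u ∈ T, u ∈ D
      · obtain ⟨u, hu, huD⟩ := hm
        rw [MM_hit hC hD hT hu huD]
        norm_num
      · have hm' : Disjoint T D := by
          rw [Finset.disjoint_left]
          intro x hx hxD
          exact hm ⟨x, hx, hxD⟩
        rw [(MM_two hC hD.1 hk h0 h1 hT hm').1]
        · norm_num
        · intro x hx hxc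
          exact (hl x hx hxc).resolve_left fun h => hm ⟨x, h, hx⟩
        · intro x hx hxc
          exact (hr x hx hxc).resolve_left fun h => hm ⟨x, h, hx⟩
    · have := (MM_pos hC hD hne (Z.isT _ _ hT')).1
      push_cast
      linarith
  · intro ha hc
    have hnb : ¬ (lamB Z (cl col D k) b ∧ rhoB Z (cl col D (k + 1)) b) := fun h => hc h.2
    obtain ⟨T, hTb, hl⟩ := ha
    have hm := hdis hnb T hTb
    refine vv_eq hC hD hne ⟨T, hTb, ?_⟩ (hlow hnb)
    rw [(MM_two hC hD.1 hk h0 h1 (Z.isT _ _ hTb) hm).2.1]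
    · norm_num
    · intro x hx hxc
      exact (hl x (mem_cl.2 ⟨hx, hxc⟩)).resolve_left fun h => Finset.disjoint_left.1 hm h hx
    · exact fun h => hc (mkr T hTb h)
  · intro ha hc
    have hnb : ¬ (lamB Z (cl col D k) b ∧ rhoB Z (cl col D (k + 1)) b) := fun h => ha h.1
    obtain ⟨T, hTb, hr⟩ := hc
    have hm := hdis hnb T hTb
    refine vv_eq hC hD hne ⟨T, hTb, ?_⟩ (hlow hnb)
    rw [(MM_two hC hD.1 hk h0 h1 (Z.isT _ _ hTb) hm).2.2.1]
    · norm_num
    · exact fun h => ha (mkl T hTb h)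
    · intro x hx hxc
      exact (hr x (mem_cl.2 ⟨hx, hxc⟩)).resolve_left fun h => Finset.disjoint_left.1 hm h hx
  · intro ha hc
    have hnb : ¬ (lamB Z (cl col D k) b ∧ rhoB Z (cl col D (k + 1)) b) := fun h => ha h.1
    have hM : ∀ T ∈ Z.bl b, (Sep G col D k T → MM G A D T = 2) ∧
        (¬ Sep G col D k T → MM G A D T = 3) := by
      intro T hTb
      exact (MM_two hC hD.1 hk h0 h1 (Z.isT _ _ hTb) (hdis hnb T hTb)).2.2.2
        (fun h => ha (mkl T hTb h)) (fun h => hc (mkr T hTb h))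
    obtain ⟨T, hTb, hvv⟩ := vv_spec (Z := Z) hC hD hne hb
    constructor
    · by_cases hs : Sep G col D k T
      · rw [(hM T hTb).1 hs] at hvv
        left
        omega
      · rw [(hM T hTb).2 hs] at hvv
        right
        omega
    · intro hns
      rw [(hM T hTb).2 (hns T hTb)] at hvv
      omega

end Pool.Agent.H.MP_ebc13b_lc.h61b
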