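import Pool.Agent.H.MP_ebc13b_lc.h61b.L1.LDefs
import Pool.Agent.H.MP_ebc13b_lc.h46.Row

/-!
# Level 1: the values of a row
-/

namespace Pool.Agent.H.MP_ebc13b_lc.h61b

open Pool.Agent.H.MP_ebc13b_lc.h46 Pool.Agent.H.MP_ebc13b_lc.h53

variable {α : Type*} [DecidableEq α] {G : SimpleGraph α} {A D T : Finset α} {col : α → ZMod 3}
  {Z : ZLine G A col}

private theorem Vals_z (k : ZMod 3) : k + 1 + 2 = k ∧ k + 2 + 1 = k ∧ k + 1 + 1 = k + 2 ∧
    k + 2 + 2 = k + 1 ∧ k ≠ k + 1 ∧ k ≠ k + 2 ∧ k + 1 ≠ k + 2 := by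
  revert k
  decide

private theorem Vals_shift1 (a b : ZMod 3) : a = b + 1 ↔ b = a + 2 := by
  revert a b
  decide

private theorem Vals_shift2 (a b : ZMod 3) : a = b + 2 ↔ b = a + 1 := by
  revert a b
  decide

private theorem Vals_univ (k : ZMod 3) : (Finset.univ : Finset (ZMod 3)) = {k, k + 1, k + 2} := by
  revert k
  decide

private theorem Vals_sum3 (f : ZMod 3 → ℤ) (k : ZMod 3) :
    ∑ c, f c = f k + f (k + 1) + f (k + 2) := by
  obtain ⟨_, _, _, _, h1, h2, h3⟩ := Vals_z k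
  rw [Vals_univ k, Finset.sum_insert, Finset.sum_insert, Finset.sum_singleton]
  · ring
  · simpa using h3
  · simp only [Finset.mem_insert, Finset.mem_singleton, not_or]
    exact ⟨h1, h2⟩

private theorem Vals_interD (hm : Disjoint T D) : T ∩ D = ∅ := Finset.disjoint_iff_inter_eq_empty.1 hm

/-- If `u ∈ T ∩ D` then the other two vertices of `T` are neighbours of `u`, so `T ∩ N(D)` has two
elements and `T ∩ D = {u}` (`D` is stable). -/
theorem MM_hit (hC : PC G A col) (hD : Stab G A D) (hT : IsT G A T) {u : α} (hu : u ∈ T)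
    (huD : u ∈ D) : MM G A D T = 1 := by
  have hcard : T.card = 3 := hT.2.card_eq
  have h1 : T ∩ D = {u} := by
    ext x
    rw [Finset.mem_inter, Finset.mem_singleton]
    constructor
    · rintro ⟨hx, hxD⟩
      by_contra hne
      exact hD.2 x hxD u huD (hT.adj hx hu hne)
    · rintro rfl
      exact ⟨hu, huD⟩
  have h2 : T ∩ nb G A D = T.erase u := by
    ext x
    rw [Finset.mem_inter, Finset.mem_erase]
    constructor
    · rintro ⟨hx, hxN⟩
      refine ⟨?_, hx⟩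
      rintro rfl
      exact Finset.disjoint_left.1 hD.disj hxN huD
    · rintro ⟨hne, hx⟩
      exact ⟨hx, mem_nb.2 ⟨hT.1 hx, u, huD, hT.adj hx hu hne⟩⟩
  unfold MM
  rw [h1, h2, Finset.card_erase_of_mem hu, hcard, Finset.card_singleton]
  norm_num

/-- `T` disjoint from `D`: a vertex `t ∈ T` is in `N(D)` iff it is adjacent to some `x ∈ D`, i.e. iff
there is `x ∈ D` with `x < T` and `col t = col x + 1`, or with `x > T` and `col t = col x + 2`
(`PC.lt_adj`, `PC.gt_adj`, `PC.lt_or_gt`, uniqueness of the neighbour). -/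
theorem mem_nb_T (hC : PC G A col) (hD : D ⊆ A) (hT : IsT G A T) (hm : Disjoint T D) {t : α}
    (ht : t ∈ T) : t ∈ nb G A D ↔
      ∃ x ∈ D, (vlt G col x T ∧ col t = col x + 1) ∨ (vgt G col x T ∧ col t = col x + 2) := by
  constructor
  · intro h
    obtain ⟨_, x, hx, htx⟩ := mem_nb.1 h
    have hxT : x ∉ T := fun h1 => Finset.disjoint_left.1 hm h1 hx
    refine ⟨x, hx, ?_⟩
    rcases hC.lt_or_gt hT (hD hx) hxT with h1 | h1
    · left
      obtain ⟨_, u, hu, hxu, hc⟩ := id h1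
      refine ⟨h1, ?_⟩
      rw [hC.nb_unique hT (hD hx) hxT ht hu htx.symm hxu]
      exact hc
    · right
      obtain ⟨_, u, hu, hxu, hc⟩ := id h1
      refine ⟨h1, ?_⟩
      rw [hC.nb_unique hT (hD hx) hxT ht hu htx.symm hxu]
      exact hc
  · rintro ⟨x, hx, ⟨h1, hc⟩ | ⟨h1, hc⟩⟩
    · exact mem_nb.2 ⟨hT.1 ht, x, hx, (hC.lt_adj hT h1 ht hc).symm⟩
    · exact mem_nb.2 ⟨hT.1 ht, x, hx, (hC.gt_adj hT h1 ht hc).symm⟩

open Classical in
/-- `T` disjoint from `D`: `M_D(T) = |T ∩ N(D)|`, the three vertices of `T` have the three colours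
(`PC.ex_col`, `PC.col_inj`), and the vertex of colour `c` is in `N(D)` iff there is `x ∈ D` of
colour `c + 2` with `x < T` or of colour `c + 1` with `x > T` (`mem_nb_T`). -/
theorem MM_sum (hC : PC G A col) (hD : D ⊆ A) (hT : IsT G A T) (hm : Disjoint T D) :
    MM G A D T = ∑ c : ZMod 3, if (∃ x ∈ D, col x = c + 2 ∧ vlt G col x T) ∨
      (∃ x ∈ D, col x = c + 1 ∧ vgt G col x T) then (1 : ℤ) else 0 := by
  have h1 : MM G A D T = ∑ t ∈ T, if t ∈ nb G A D then (1 : ℤ) else 0 := by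
    unfold MM
    rw [Vals_interD hm, Finset.card_empty, Finset.sum_ite_mem, Finset.sum_const]
    simp
  rw [h1]
  refine Finset.sum_nbij col (fun _ _ => Finset.mem_univ _) ?_ ?_ ?_
  · intro x hx y hy hxy
    exact hC.col_inj hT (Finset.mem_coe.1 hx) (Finset.mem_coe.1 hy) hxy
  · intro c _
    obtain ⟨u, hu, huc⟩ := hC.ex_col hT c
    exact ⟨u, Finset.mem_coe.2 hu, huc⟩
  · intro t ht
    have h2 : t ∈ nb G A D ↔ ((∃ x ∈ D, col x = col t + 2 ∧ vlt G col x T) ∨
        (∃ x ∈ D, col x = col t + 1 ∧ vgt G col x T)) := by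
      rw [mem_nb_T hC hD hT hm ht]
      constructor
      · rintro ⟨x, hx, ⟨h3, h4⟩ | ⟨h3, h4⟩⟩
        · exact Or.inl ⟨x, hx, (Vals_shift1 _ _).1 h4, h3⟩
        · exact Or.inr ⟨x, hx, (Vals_shift2 _ _).1 h4, h3⟩
      · rintro (⟨x, hx, h3, h4⟩ | ⟨x, hx, h3, h4⟩)
        · exact ⟨x, hx, Or.inl ⟨h4, (Vals_shift1 _ _).2 h3⟩⟩
        · exact ⟨x, hx, Or.inr ⟨h4, (Vals_shift2 _ _).2 h3⟩⟩
    by_cases h3 : t ∈ nb G A D
    · rw [if_pos h3, if_pos (h2.1 h3)]
    · rw [if_neg h3, if_neg (fun h4 => h3 (h2.2 h4))]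

/-- `1 ≤ M_D(T) ≤ 3` for nonempty stable `D`: `MM_hit`, or some `x ∈ D` is outside `T` and sees a
vertex of `T`. -/
theorem MM_pos (hC : PC G A col) (hD : Stab G A D) (hne : D.Nonempty) (hT : IsT G A T) :
    1 ≤ MM G A D T ∧ MM G A D T ≤ 3 := by
  have hcard : T.card = 3 := hT.2.card_eq
  constructor
  · by_cases hm : ∃ u ∈ T, u ∈ D
    · obtain ⟨u, hu, huD⟩ := hm
      rw [MM_hit hC hD hT hu huD]
    · have hm' : Disjoint T D := by
        rw [Finset.disjoint_left]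
        intro x hx hxD
        exact hm ⟨x, hx, hxD⟩
      obtain ⟨x, hx⟩ := hne
      have hxT : x ∉ T := fun h1 => Finset.disjoint_left.1 hm' h1 hx
      obtain ⟨u, hu, hxu, _⟩ := hC.pr T hT.1 hT.2 x (hD.1 hx) hxT
      have h2 : 0 < (T ∩ nb G A D).card := by
        rw [Finset.card_pos]
        exact ⟨u, Finset.mem_inter.2 ⟨hu, mem_nb.2 ⟨hT.1 hu, x, hx, hxu.symm⟩⟩⟩
      unfold MM
      rw [Vals_interD hm', Finset.card_empty]
      push_cast
      omega
  · have h1 : (T ∩ nb G A D).card ≤ 3 := by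
      rw [← hcard]
      exact Finset.card_le_card Finset.inter_subset_left
    unfold MM
    omega

/-- the minimum `vv` is attained (`Nat.sInf_mem`; the set is nonempty by `MM_pos`) -/
theorem vv_spec (hC : PC G A col) (hD : Stab G A D) (hne : D.Nonempty) {b : ℤ}
    (hb : (Z.bl b).Nonempty) : ∃ T ∈ Z.bl b, (vv Z D b : ℤ) + 1 = MM G A D T := by
  have h1 : {n : ℕ | ∃ T ∈ Z.bl b, (n : ℤ) + 1 = MM G A D T}.Nonempty := by
    obtain ⟨T, hT⟩ := hb
    have h2 := (MM_pos hC hD hne (Z.isT b T hT)).1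
    exact ⟨(MM G A D T - 1).toNat, T, hT, by omega⟩
  exact Nat.sInf_mem h1

/-- `Nat.sInf_le` -/
theorem vv_le (hC : PC G A col) (hD : Stab G A D) (hne : D.Nonempty) {b : ℤ} (hT : T ∈ Z.bl b) :
    (vv Z D b : ℤ) + 1 ≤ MM G A D T := by
  have h2 := (MM_pos hC hD hne (Z.isT b T hT)).1
  have h1 : (MM G A D T - 1).toNat ∈ {n : ℕ | ∃ T ∈ Z.bl b, (n : ℤ) + 1 = MM G A D T} :=
    ⟨T, hT, by omega⟩
  have h3 : vv Z D b ≤ (MM G A D T - 1).toNat := Nat.sInf_le h1
  omega

/-- the value is `n` if it is attained and a lower bound -/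
theorem vv_eq (hC : PC G A col) (hD : Stab G A D) (hne : D.Nonempty) {b : ℤ} {n : ℕ}
    (h1 : ∃ T ∈ Z.bl b, (n : ℤ) + 1 = MM G A D T)
    (h2 : ∀ T ∈ Z.bl b, (n : ℤ) + 1 ≤ MM G A D T) : vv Z D b = n := by
  obtain ⟨T, hT, hn⟩ := h1
  have h3 := vv_le (Z := Z) hC hD hne hT
  obtain ⟨T', hT', hn'⟩ := vv_spec (Z := Z) hC hD hne ⟨T, hT⟩
  have h4 := h2 T' hT'
  omega

/-- One class, `T` disjoint from `D`: `M = 1` iff all elements of `D` are smaller than `T` or all are
larger; otherwise `M = 2` (`MM_sum`: only `c = k + 1` and `c = k + 2` contribute). -/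
theorem MM_one (hC : PC G A col) (hD : D ⊆ A) (hne : D.Nonempty) {k : ZMod 3}
    (hk : ∀ x ∈ D, col x = k) (hT : IsT G A T) (hm : Disjoint T D) :
    (((∀ x ∈ D, vlt G col x T) ∨ (∀ x ∈ D, vgt G col x T)) → MM G A D T = 1) ∧
    (¬ ((∀ x ∈ D, vlt G col x T) ∨ (∀ x ∈ D, vgt G col x T)) → MM G A D T = 2) := by
  classical
  obtain ⟨z1, z2, z3, z4, z5, z6, z7⟩ := Vals_z k
  have hout : ∀ x ∈ D, x ∉ T := fun x hx h1 => Finset.disjoint_left.1 hm h1 hx
  have e : MM G A D T = (if ∃ x ∈ D, vlt G col x T then (1 : ℤ) else 0) +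
      (if ∃ x ∈ D, vgt G col x T then (1 : ℤ) else 0) := by
    rw [MM_sum hC hD hT hm, Vals_sum3 _ k]
    rw [if_neg, zero_add]
    · congr 1
      · refine if_congr ?_ rfl rfl
        constructor
        · rintro (⟨x, hx, _, h2⟩ | ⟨x, hx, h1, _⟩)
          · exact ⟨x, hx, h2⟩
          · exfalso
            rw [hk x hx, z3] at h1
            exact z6 h1
        · rintro ⟨x, hx, h1⟩
          exact Or.inl ⟨x, hx, (hk x hx).trans z1.symm, h1⟩
      · refine if_congr ?_ rfl rfl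
        constructor
        · rintro (⟨x, hx, h1, _⟩ | ⟨x, hx, _, h2⟩)
          · exfalso
            rw [hk x hx, z4] at h1
            exact z5 h1
          · exact ⟨x, hx, h2⟩
        · rintro ⟨x, hx, h1⟩
          exact Or.inr ⟨x, hx, (hk x hx).trans z2.symm, h1⟩
    · rintro (⟨x, hx, h1, _⟩ | ⟨x, hx, h1, _⟩)
      · rw [hk x hx] at h1
        exact z6 h1
      · rw [hk x hx] at h1
        exact z5 h1
  obtain ⟨x0, hx0⟩ := hne
  constructor
  · rintro (h1 | h1)
    · rw [e, if_pos ⟨x0, hx0, h1 x0 hx0⟩, if_neg, add_zero]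
      rintro ⟨x, hx, h2⟩
      exact hC.not_both hT (hD hx) (h1 x hx) h2
    · rw [e, if_pos (c := ∃ x ∈ D, vgt G col x T) ⟨x0, hx0, h1 x0 hx0⟩, if_neg, zero_add]
      rintro ⟨x, hx, h2⟩
      exact hC.not_both hT (hD hx) h2 (h1 x hx)
  · intro h1
    rw [not_or] at h1
    obtain ⟨h2, h3⟩ := h1
    push Not at h2 h3
    obtain ⟨x, hx, hx2⟩ := h2
    obtain ⟨y, hy, hy2⟩ := h3
    rw [e, if_pos ⟨y, hy, hC.lt_of_not_gt hT (hD hy) (hout y hy) hy2⟩,
      if_pos ⟨x, hx, hC.gt_of_not_lt hT (hD hx) (hout x hx) hx2⟩]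
    norm_num

/-- Two classes `k`, `k + 1`, both nonempty, `T` disjoint from `D`.  Let `a` be the statement that the
class `k` is larger than `T`, and `b` the statement that the class `k + 1` is smaller than `T`.
`M = 1` if both hold, `M = 2` if exactly one holds; if none holds, `M = 2` if `T` separates the
classes and `M = 3` otherwise.  (`MM_sum`: the vertex of colour `k + 1` is in `N(D)` iff some element
of the class `k` is smaller than `T`; the vertex of colour `k` iff some element of the class `k + 1` is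
larger than `T`; the vertex of colour `k + 2` iff some element of the class `k` is larger or some
element of the class `k + 1` is smaller.) -/
theorem MM_two (hC : PC G A col) (hD : D ⊆ A) {k : ZMod 3}
    (hk : ∀ x ∈ D, col x = k ∨ col x = k + 1) (h0 : ∃ x ∈ D, col x = k)
    (h1 : ∃ x ∈ D, col x = k + 1) (hT : IsT G A T) (hm : Disjoint T D) :
    ((∀ x ∈ D, col x = k → vgt G col x T) → (∀ x ∈ D, col x = k + 1 → vlt G col x T) →
      MM G A D T = 1) ∧
    ((∀ x ∈ D, col x = k → vgt G col x T) → ¬ (∀ x ∈ D, col x = k + 1 → vlt G col x T) →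
      MM G A D T = 2) ∧
    (¬ (∀ x ∈ D, col x = k → vgt G col x T) → (∀ x ∈ D, col x = k + 1 → vlt G col x T) →
      MM G A D T = 2) ∧
    (¬ (∀ x ∈ D, col x = k → vgt G col x T) → ¬ (∀ x ∈ D, col x = k + 1 → vlt G col x T) →
      (Sep G col D k T → MM G A D T = 2) ∧ (¬ Sep G col D k T → MM G A D T = 3)) := by
  classical
  obtain ⟨z1, z2, z3, z4, z5, z6, z7⟩ := Vals_z k
  have hout : ∀ x ∈ D, x ∉ T := fun x hx h1 => Finset.disjoint_left.1 hm h1 hx
  have e : MM G A D T = (if ∃ x ∈ D, col x = k + 1 ∧ vgt G col x T then (1 : ℤ) else 0) +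
      (if ∃ x ∈ D, col x = k ∧ vlt G col x T then (1 : ℤ) else 0) +
      (if (∃ x ∈ D, col x = k + 1 ∧ vlt G col x T) ∨ (∃ x ∈ D, col x = k ∧ vgt G col x T)
        then (1 : ℤ) else 0) := by
    rw [MM_sum hC hD hT hm, Vals_sum3 _ k]
    congr 1
    · congr 1
      · refine if_congr ?_ rfl rfl
        constructor
        · rintro (⟨x, hx, h1, _⟩ | h1)
          · exfalso
            rcases hk x hx with h2 | h2
            · exact z6 (h2.symm.trans h1)
            · exact z7 (h2.symm.trans h1)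
          · exact h1
        · exact Or.inr
      · refine if_congr ?_ rfl rfl
        rw [z1, z3]
        constructor
        · rintro (h1 | ⟨x, hx, h1, _⟩)
          · exact h1
          · exfalso
            rcases hk x hx with h2 | h2
            · exact z6 (h2.symm.trans h1)
            · exact z7 (h2.symm.trans h1)
        · exact Or.inl
    · refine if_congr ?_ rfl rfl
      rw [z4, z2]
  obtain ⟨x0, hx0, hc0⟩ := h0
  obtain ⟨x1, hx1, hc1⟩ := h1
  have nlt : ∀ x ∈ D, ¬ vlt G col x T → vgt G col x T := fun x hx h2 =>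
    hC.gt_of_not_lt hT (hD hx) (hout x hx) h2
  have ngt : ∀ x ∈ D, ¬ vgt G col x T → vlt G col x T := fun x hx h2 =>
    hC.lt_of_not_gt hT (hD hx) (hout x hx) h2
  have nb : ∀ x ∈ D, vlt G col x T → vgt G col x T → False := fun x hx h2 h3 =>
    hC.not_both hT (hD hx) h2 h3
  refine ⟨?_, ?_, ?_, ?_⟩
  · intro ha hb
    rw [e, if_neg, if_neg, if_pos]
    · norm_num
    · exact Or.inl ⟨x1, hx1, hc1, hb x1 hx1 hc1⟩
    · rintro ⟨x, hx, h2, h3⟩
      exact nb x hx h3 (ha x hx h2)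
    · rintro ⟨x, hx, h2, h3⟩
      exact nb x hx (hb x hx h2) h3
  · intro ha hb
    push Not at hb
    obtain ⟨y, hy, hy1, hy2⟩ := hb
    rw [e, if_pos, if_neg, if_pos]
    · norm_num
    · exact Or.inr ⟨x0, hx0, hc0, ha x0 hx0 hc0⟩
    · rintro ⟨x, hx, h2, h3⟩
      exact nb x hx h3 (ha x hx h2)
    · exact ⟨y, hy, hy1, nlt y hy hy2⟩
  · intro ha hb
    push Not at ha
    obtain ⟨y, hy, hy1, hy2⟩ := ha
    rw [e, if_neg, if_pos, if_pos]
    · norm_num
    · exact Or.inl ⟨x1, hx1, hc1, hb x1 hx1 hc1⟩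
    · exact ⟨y, hy, hy1, ngt y hy hy2⟩
    · rintro ⟨x, hx, h2, h3⟩
      exact nb x hx (hb x hx h2) h3
  · intro ha hb
    push Not at ha hb
    obtain ⟨y, hy, hy1, hy2⟩ := ha
    obtain ⟨w, hw, hw1, hw2⟩ := hb
    constructor
    · intro hs
      rw [e, if_pos, if_pos, if_neg]
      · norm_num
      · rintro (⟨x, hx, h2, h3⟩ | ⟨x, hx, h2, h3⟩)
        · exact nb x hx h3 (hs.2 x hx h2)
        · exact nb x hx (hs.1 x hx h2) h3
      · exact ⟨y, hy, hy1, ngt y hy hy2⟩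
      · exact ⟨w, hw, hw1, nlt w hw hw2⟩
    · intro hs
      rw [e, if_pos, if_pos, if_pos]
      · norm_num
      · unfold Sep at hs
        rw [not_and_or] at hs
        push Not at hs
        rcases hs with ⟨x, hx, h2, h3⟩ | ⟨x, hx, h2, h3⟩
        · exact Or.inr ⟨x, hx, h2, nlt x hx h3⟩
        · exact Or.inl ⟨x, hx, h2, ngt x hx h3⟩
      · exact ⟨y, hy, hy1, ngt y hy hy2⟩
      · exact ⟨w, hw, hw1, nlt w hw hw2⟩

/-- Three nonempty classes, `T` disjoint from `D`: `M = 2` if `T` separates the classes `k`, `k + 1`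
for some `k`, and `M = 3` otherwise.  (`MM_sum`: the vertex of colour `k + 2` is not in `N(D)` iff the
class `k + 1` is larger and the class `k` is smaller than `T`, i.e. iff `Sep` holds for `k`; this
happens for at most one `k` because the classes are nonempty.) -/
theorem MM_three (hC : PC G A col) (hD : D ⊆ A) (h3 : ∀ k, ∃ x ∈ D, col x = k) (hT : IsT G A T)
    (hm : Disjoint T D) :
    ((∃ k, Sep G col D k T) → MM G A D T = 2) ∧ ((¬ ∃ k, Sep G col D k T) → MM G A D T = 3) := by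
  classical
  have hout : ∀ x ∈ D, x ∉ T := fun x hx h1 => Finset.disjoint_left.1 hm h1 hx
  have nlt : ∀ x ∈ D, ¬ vlt G col x T → vgt G col x T := fun x hx h2 =>
    hC.gt_of_not_lt hT (hD hx) (hout x hx) h2
  have ngt : ∀ x ∈ D, ¬ vgt G col x T → vlt G col x T := fun x hx h2 =>
    hC.lt_of_not_gt hT (hD hx) (hout x hx) h2
  have nb : ∀ x ∈ D, vlt G col x T → vgt G col x T → False := fun x hx h2 h3 =>
    hC.not_both hT (hD hx) h2 h3
  have key : ∀ c : ZMod 3, ((∃ x ∈ D, col x = c + 2 ∧ vlt G col x T) ∨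
      (∃ x ∈ D, col x = c + 1 ∧ vgt G col x T)) ↔ ¬ Sep G col D (c + 1) T := by
    intro c
    obtain ⟨z1, z2, z3, z4, z5, z6, z7⟩ := Vals_z c
    unfold Sep
    rw [z3]
    constructor
    · rintro (⟨x, hx, h1, h2⟩ | ⟨x, hx, h1, h2⟩) ⟨h4, h5⟩
      · exact nb x hx h2 (h5 x hx h1)
      · exact nb x hx (h4 x hx h1) h2
    · intro h1
      rw [not_and_or] at h1
      push Not at h1
      rcases h1 with ⟨x, hx, h2, h4⟩ | ⟨x, hx, h2, h4⟩
      · exact Or.inr ⟨x, hx, h2, nlt x hx h4⟩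
      · exact Or.inl ⟨x, hx, h2, ngt x hx h4⟩
  constructor
  · rintro ⟨k, hk⟩
    obtain ⟨z1, z2, z3, z4, z5, z6, z7⟩ := Vals_z k
    have hk1 : ¬ Sep G col D (k + 1) T := by
      intro h1
      obtain ⟨x, hx, hxc⟩ := h3 (k + 1)
      exact nb x hx (h1.1 x hx hxc) (hk.2 x hx hxc)
    have hk2 : ¬ Sep G col D (k + 2) T := by
      intro h1
      obtain ⟨x, hx, hxc⟩ := h3 k
      exact nb x hx (hk.1 x hx hxc) (h1.2 x hx (hxc.trans z2.symm))
    rw [MM_sum hC hD hT hm, Vals_sum3 _ k, if_pos ((key k).2 hk1),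
      if_pos ((key (k + 1)).2 (by rwa [z3])), if_neg (fun h1 => (key (k + 2)).1 h1 (by rwa [z2]))]
    norm_num
  · intro hk
    have hk' : ∀ c, ¬ Sep G col D c T := fun c h1 => hk ⟨c, h1⟩
    rw [MM_sum hC hD hT hm, Vals_sum3 _ 0, if_pos ((key _).2 (hk' _)), if_pos ((key _).2 (hk' _)),
      if_pos ((key _).2 (hk' _))]
    norm_num

end Pool.Agent.H.MP_ebc13b_lc.h61b
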